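import Pool.Agent.Helper36.LightInt

/-!
The pointwise bounds of the regularised field and of its divergence.
-/

namespace Pool.Agent.Helper36.Light

open MeasureTheory Set Filter Topology

theorem tt_nonneg {n : ℕ} (x : E (n + 3)) : 0 ≤ tt x := by
  unfold tt; positivity

theorem sq_le_tt {n : ℕ} (x : E (n + 3)) (j : Fin (n + 2)) : (x j.succ) ^ 2 ≤ tt x := by
  unfold tt
  exact Finset.single_le_sum (f := fun j : Fin (n + 2) => (x j.succ) ^ 2)
    (fun i _ => sq_nonneg _) (Finset.mem_univ j)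

theorem two_le_tt {n : ℕ} (x : E (n + 3)) : (x 1) ^ 2 + (x 2) ^ 2 ≤ tt x := by
  unfold tt
  rw [Fin.sum_univ_succ, Fin.sum_univ_succ]
  have e1 : (Fin.succ (0 : Fin (n + 2))) = (1 : Fin (n + 3)) := rfl
  have e2 : (Fin.succ (Fin.succ (0 : Fin (n + 1)))) = (2 : Fin (n + 3)) := rfl
  rw [e1, e2]
  have : 0 ≤ ∑ i : Fin n, (x i.succ.succ.succ) ^ 2 := by positivity
  linarith

theorem abs_coord_le {n : ℕ} (x : E (n + 3)) (hs : |x 0| ≤ 10) (ht : tt x ≤ 100)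
    (i : Fin (n + 3)) : |x i| ≤ 10 := by
  refine Fin.cases hs (fun j => ?_) i
  have h1 := sq_le_tt x j
  apply abs_le_of_sq_le_sq _ (by norm_num)
  linarith

theorem w_mul_le {s t : ℝ} (ht : 0 < t) (ht' : t ≤ 100) : w 0 s t ^ 2 * t ≤ 100 := by
  have h1 := w0_sq (s := s) ht
  have h2 := q_ge (s := s) ht.le
  have h3 : 1 - kn 1 t = t / 100 := by
    unfold kn pp; rw [pow_one, max_eq_left (by linarith)]; ring
  rw [h3] at h2
  have : w 0 s t ^ 2 * (t / 100) ≤ w 0 s t ^ 2 * (1 - Nf s t) := by gcongr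
  linarith

/-- the estimates with explicit roots -/
theorem bound_aux {s t y z : ℝ} (ht : 0 < t) (ht' : t ≤ 100) (hz : 0 < z) (hz4 : z ≤ 4)
    (hzt : z ^ 4 ≤ t) (hy : 0 < y)
    (hys : g2 s ≠ 0 → y ^ 2 = |s| - 1 ∨ 1 / 4 ≤ 1 - g1 s ^ 2) :
    w 0 s t ≤ 40 * (z ^ 3)⁻¹ ∧
    |g2 s| * kn 1 t ^ 9 * w 0 s t ^ 3 ≤ 1024 * (1 + y⁻¹) * (z ^ 3)⁻¹ := by
  have hW0 : 0 ≤ w 0 s t := w_nonneg _ _ _
  have hk0 : 0 ≤ kn 1 t := kn_nonneg _ _
  have hk1 : kn 1 t ≤ 1 := kn_one_le ht.le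
  have hWt := w_mul_le (s := s) ht ht'
  have hW1 := w0_sq (s := s) ht
  have hq := q_lower (s := s) ht.le
  have hG2 := abs_g2_le s
  set W := w 0 s t with hWdef
  set k := kn 1 t with hkdef
  have hb : W * z ^ 2 ≤ 10 := by
    apply abs_le_of_sq_le_sq' _ (by norm_num) |>.2
    calc (W * z ^ 2) ^ 2 = W ^ 2 * z ^ 4 := by ring
      _ ≤ W ^ 2 * t := by gcongr
      _ ≤ 100 := hWt
      _ = 10 ^ 2 := by norm_num
  have hzinv : 1 ≤ 64 * (z ^ 3)⁻¹ := by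
    rw [← div_eq_mul_inv, le_div_iff₀ (by positivity), one_mul]
    calc z ^ 3 ≤ 4 ^ 3 := by gcongr
      _ = 64 := by norm_num
  constructor
  · rw [← div_eq_mul_inv, le_div_iff₀ (by positivity)]
    calc W * z ^ 3 = (W * z ^ 2) * z := by ring
      _ ≤ 10 * 4 := by gcongr
      _ = 40 := by norm_num
  · rcases eq_or_ne (g2 s) 0 with h0 | h0
    · rw [h0, abs_zero, zero_mul, zero_mul]; positivity
    have hg : (|g2 s| = 2 * y ^ 2 ∧ (y ^ 2) ^ 2 ≤ 1 - g1 s ^ 2) ∨ 1 / 4 ≤ 1 - g1 s ^ 2 := by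
      rcases hys h0 with h1 | h1
      · rcases g_cases s with h2 | ⟨_, h2, _, h3⟩ | h2
        · exact absurd h2 h0
        · left; rw [h1]; exact ⟨h2, h3⟩
        · right; exact h2
      · right; exact h1
    have hk9 : k ^ 9 ≤ 1 := pow_le_one₀ hk0 hk1
    rcases hg with ⟨h1, h2⟩ | h1
    · rw [h1]
      have ha : W * k ^ 3 * y ^ 2 ≤ 1 := by
        apply abs_le_of_sq_le_sq' _ (by norm_num) |>.2
        calc (W * k ^ 3 * y ^ 2) ^ 2 = W ^ 2 * (k ^ 6 * (y ^ 2) ^ 2) := by ring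
          _ ≤ W ^ 2 * ((1 - k) + k ^ 6 * (1 - g1 s ^ 2)) := by
              have : 0 ≤ 1 - k := by linarith
              have h3 : k ^ 6 * (y ^ 2) ^ 2 ≤ k ^ 6 * (1 - g1 s ^ 2) := by gcongr
              apply mul_le_mul_of_nonneg_left _ (by positivity)
              linarith
          _ ≤ W ^ 2 * (1 - Nf s t) := by gcongr
          _ = 1 ^ 2 := by rw [hW1]; norm_num
      have hab : W ^ 3 * k ^ 9 * y ^ 3 * z ^ 3 ≤ 32 := by
        apply abs_le_of_sq_le_sq' _ (by norm_num) |>.2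
        have h4 : 0 ≤ W * k ^ 3 * y ^ 2 := by positivity
        have h5 : 0 ≤ W * z ^ 2 := by positivity
        calc (W ^ 3 * k ^ 9 * y ^ 3 * z ^ 3) ^ 2
            = (W * k ^ 3 * y ^ 2) ^ 3 * (W * z ^ 2) ^ 3 * k ^ 9 := by ring
          _ ≤ 1 ^ 3 * 10 ^ 3 * 1 := by gcongr
          _ ≤ 32 ^ 2 := by norm_num
      have h6 : 2 * y ^ 2 * k ^ 9 * W ^ 3 ≤ 64 * y⁻¹ * (z ^ 3)⁻¹ := by
        rw [mul_assoc (64 : ℝ), ← mul_inv, ← div_eq_mul_inv, le_div_iff₀ (by positivity)]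
        calc 2 * y ^ 2 * k ^ 9 * W ^ 3 * (y * z ^ 3) = 2 * (W ^ 3 * k ^ 9 * y ^ 3 * z ^ 3) := by ring
          _ ≤ 2 * 32 := by gcongr
          _ = 64 := by norm_num
      refine h6.trans ?_
      have h7 : 0 ≤ y⁻¹ * (z ^ 3)⁻¹ := by positivity
      have h8 : 0 ≤ (z ^ 3)⁻¹ := by positivity
      nlinarith
    · have ha : W * k ^ 3 ≤ 2 := by
        apply abs_le_of_sq_le_sq' _ (by norm_num) |>.2
        calc (W * k ^ 3) ^ 2 = 4 * (W ^ 2 * (k ^ 6 * (1 / 4))) := by ring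
          _ ≤ 4 * (W ^ 2 * ((1 - k) + k ^ 6 * (1 - g1 s ^ 2))) := by
              have : 0 ≤ 1 - k := by linarith
              have h3 : k ^ 6 * (1 / 4) ≤ k ^ 6 * (1 - g1 s ^ 2) := by gcongr
              apply mul_le_mul_of_nonneg_left _ (by positivity)
              apply mul_le_mul_of_nonneg_left _ (by positivity)
              linarith
          _ ≤ 4 * (W ^ 2 * (1 - Nf s t)) := by gcongr
          _ = 2 ^ 2 := by rw [hW1]; norm_num
      have h4 : 0 ≤ W * k ^ 3 := by positivity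
      have h5 : |g2 s| * k ^ 9 * W ^ 3 ≤ 16 := by
        calc |g2 s| * k ^ 9 * W ^ 3 = |g2 s| * (W * k ^ 3) ^ 3 := by ring
          _ ≤ 2 * 2 ^ 3 := by gcongr
          _ = 16 := by norm_num
      refine h5.trans ?_
      have h7 : 0 ≤ y⁻¹ * (z ^ 3)⁻¹ := by positivity
      nlinarith

theorem both_bounds {n : ℕ} (x : E (n + 3)) (h1 : x 1 ≠ 0) (h2 : x 2 ≠ 0)
    (hs : |x 0| ≤ 10) (hs1 : x 0 ≠ 1) (hs2 : x 0 ≠ -1) (ht' : tt x ≤ 100) :
    w 0 (x 0) (tt x) ≤ 40 * HH x ∧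
    |g2 (x 0)| * kn 1 (tt x) ^ 9 * w 0 (x 0) (tt x) ^ 3 ≤ 1024 * HH x := by
  have hP : 0 < |x 1| * |x 2| := by positivity
  set P := |x 1| * |x 2| with hPdef
  have hPt : P ≤ tt x := by
    have h3 := two_le_tt x
    rw [← sq_abs (x 1), ← sq_abs (x 2)] at h3
    nlinarith [sq_nonneg (|x 1| - |x 2|), abs_nonneg (x 1), abs_nonneg (x 2)]
  have ht : 0 < tt x := lt_of_lt_of_le hP hPt
  set z := P ^ (1 / 4 : ℝ) with hz
  have hz0 : 0 < z := Real.rpow_pos_of_pos hP _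
  have hz4 : z ^ 4 = P := by
    rw [hz, ← Real.rpow_natCast, ← Real.rpow_mul hP.le]; norm_num
  have hz3 : P ^ (-(3 / 4) : ℝ) = (z ^ 3)⁻¹ := by
    rw [Real.rpow_neg hP.le, hz, ← Real.rpow_natCast, ← Real.rpow_mul hP.le]; norm_num
  have hzle : z ≤ 4 := by
    by_contra hcon
    push Not at hcon
    have : (4 : ℝ) ^ 4 < z ^ 4 := by gcongr
    rw [hz4] at this
    linarith
  rw [HH_eq x (abs_coord_le x hs ht'), ← hPdef, hz3]
  have hσ : ∀ a : ℝ, 0 < a → a ^ (-(1 / 2) : ℝ) = (√a)⁻¹ := by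
    intro a ha
    rw [Real.rpow_neg ha.le, Real.sqrt_eq_rpow]
  have hp1 : 0 < |x 0 - 1| := abs_pos.2 (sub_ne_zero.2 hs1)
  have hp2 : 0 < |x 0 + 1| := by
    apply abs_pos.2; intro h; apply hs2; linarith
  rw [hσ _ hp1, hσ _ hp2]
  have hi1 : 0 < (√|x 0 - 1|)⁻¹ := by positivity
  have hi2 : 0 < (√|x 0 + 1|)⁻¹ := by positivity
  have hz3' : 0 < (z ^ 3)⁻¹ := by positivity
  rcases le_total 0 (x 0) with hx | hx
  · have h3 := bound_aux (s := x 0) (y := √|x 0 - 1|) ht ht' hz0 hzle (by rw [hz4]; exact hPt)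
      (Real.sqrt_pos.2 hp1) (by
        intro h0
        rcases g_cases (x 0) with h | ⟨ha, hb, _, _⟩ | h
        · exact absurd h h0
        · left
          rw [Real.sq_sqrt hp1.le]
          rw [abs_of_nonneg hx] at ha ⊢
          exact abs_of_pos (by linarith)
        · right; exact h)
    refine ⟨h3.1.trans ?_, h3.2.trans ?_⟩
    · nlinarith [mul_pos hi1 hz3', mul_pos hi2 hz3']
    · nlinarith [mul_pos hi1 hz3', mul_pos hi2 hz3']
  · have h3 := bound_aux (s := x 0) (y := √|x 0 + 1|) ht ht' hz0 hzle (by rw [hz4]; exact hPt)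
      (Real.sqrt_pos.2 hp2) (by
        intro h0
        rcases g_cases (x 0) with h | ⟨ha, hb, _, _⟩ | h
        · exact absurd h h0
        · left
          rw [Real.sq_sqrt hp2.le]
          rw [abs_of_nonpos hx] at ha ⊢
          rw [abs_of_neg (by linarith)]; ring
        · right; exact h)
    refine ⟨h3.1.trans ?_, h3.2.trans ?_⟩
    · nlinarith [mul_pos hi1 hz3', mul_pos hi2 hz3']
    · nlinarith [mul_pos hi1 hz3', mul_pos hi2 hz3']

/-- the constant -/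
noncomputable def CD (n : ℕ) : ℝ := 40 * (n + 8) + 1024

theorem CD_pos (n : ℕ) : 0 < CD n := by unfold CD; positivity

theorem Dv_support {n : ℕ} {ε s t : ℝ} (h : 7 ≤ |s| ∨ 100 ≤ t) : Dv n ε s t = 0 := by
  unfold Dv XAs XB XBt Ns
  rcases h with h | h
  · obtain ⟨a, b, c⟩ := g_support h
    rw [a, b, c]; ring
  · rw [kn_zero_of (j := 2) h, kn_zero_of (j := 1) h, kn_zero_of (j := 0) h]; ring

theorem Dv_bound {n : ℕ} {ε : ℝ} (hε : 0 ≤ ε) (x : E (n + 3)) (h1 : x 1 ≠ 0) (h2 : x 2 ≠ 0)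
    (hs1 : x 0 ≠ 1) (hs2 : x 0 ≠ -1) :
    |Dv n ε (x 0) (tt x)| ≤ CD n * HH x := by
  by_cases h : 7 ≤ |x 0| ∨ 100 ≤ tt x
  · rw [Dv_support h, abs_zero]
    exact mul_nonneg (CD_pos n).le (HH_nonneg x)
  push Not at h
  have hb := both_bounds x h1 h2 (by linarith [h.1]) hs1 hs2 h.2.le
  have ht : 0 < tt x := by
    have h3 := two_le_tt x
    have : 0 < (x 1) ^ 2 := by positivity
    have : 0 ≤ (x 2) ^ 2 := by positivity
    linarith
  refine (Dv_le n hε ht h.2.le).trans ?_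
  unfold CD
  have h5 : (n + 8 : ℝ) * w 0 (x 0) (tt x) ≤ (n + 8 : ℝ) * (40 * HH x) := by
    apply mul_le_mul_of_nonneg_left hb.1; positivity
  linarith [hb.2]

theorem XA_bound {n : ℕ} {ε : ℝ} (hε : 0 ≤ ε) (x : E (n + 3)) (h1 : x 1 ≠ 0) (h2 : x 2 ≠ 0)
    (hs1 : x 0 ≠ 1) (hs2 : x 0 ≠ -1) :
    |XA ε (x 0) (tt x)| ≤ 40 * HH x ∧ ∀ j : Fin (n + 2),
    |XB ε (x 0) (tt x) * x j.succ| ≤ 40 * HH x := by
  by_cases h : 7 ≤ |x 0| ∨ 100 ≤ tt x
  · unfold XA XB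
    have h0 : 0 ≤ 40 * HH x := mul_nonneg (by norm_num) (HH_nonneg x)
    rcases h with h | h
    · obtain ⟨a, b, c⟩ := g_support h
      rw [a, b]; simpa using h0
    · rw [kn_zero_of (j := 2) h, kn_zero_of (j := 1) h]; simpa using h0
  push Not at h
  have hb := both_bounds x h1 h2 (by linarith [h.1]) hs1 hs2 h.2.le
  have ht : 0 < tt x := by
    have h3 := two_le_tt x
    have : 0 < (x 1) ^ 2 := by positivity
    have : 0 ≤ (x 2) ^ 2 := by positivity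
    linarith
  have hw0 : 0 ≤ w ε (x 0) (tt x) := w_nonneg _ _ _
  have hw1 : w ε (x 0) (tt x) ≤ w 0 (x 0) (tt x) := w_le hε ht
  have hk0 : 0 ≤ kn 1 (tt x) := kn_nonneg _ _
  have hk1 : kn 1 (tt x) ≤ 1 := kn_one_le ht.le
  have hG0 := abs_g0_le (x 0)
  have hG1 := abs_g1_le (x 0)
  constructor
  · refine le_trans ?_ hb.1
    unfold XA
    rw [kn_eq_pow 3, abs_mul, abs_mul, abs_of_nonneg hw0, abs_of_nonneg (pow_nonneg hk0 3)]
    calc |g1 (x 0)| * kn 1 (tt x) ^ 3 * w ε (x 0) (tt x)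
        ≤ 1 * 1 * w 0 (x 0) (tt x) := by
          gcongr
          exact pow_le_one₀ hk0 hk1
      _ = w 0 (x 0) (tt x) := by ring
  · intro j
    refine le_trans ?_ hb.1
    unfold XB
    rw [kn_eq_pow 2, abs_mul, abs_mul, abs_mul, abs_mul, abs_of_nonneg hw0,
      abs_of_nonneg (pow_nonneg hk0 2), abs_neg, abs_of_pos (show (0 : ℝ) < 3 / 50 by norm_num)]
    have hj : |x j.succ| ≤ 10 := abs_coord_le x (by linarith [h.1]) h.2.le _
    have hW0 : 0 ≤ w 0 (x 0) (tt x) := w_nonneg _ _ _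
    calc 3 / 50 * |g0 (x 0)| * kn 1 (tt x) ^ 2 * w ε (x 0) (tt x) * |x j.succ|
        ≤ 3 / 50 * (5 / 3) * 1 * w 0 (x 0) (tt x) * 10 := by
          gcongr
          exact pow_le_one₀ hk0 hk1
      _ = w 0 (x 0) (tt x) := by ring

end Pool.Agent.Helper36.Light
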