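import Pool.Agent.Helper36.LightSum

/-!
General lemmas for the final statement.
-/

namespace Pool.Agent.Helper36.Light

open MeasureTheory Set Filter Topology Metric
open scoped NNReal ENNReal RealInnerProductSpace

section ineq

variable {H : Type*} [NormedAddCommGroup H] [InnerProductSpace ℝ H] [CompleteSpace H]

/-- the convexity gap -/
noncomputable def gap (L M : H →L[ℝ] ℝ) (X : H) : ℝ :=
  (1 - √(1 - ‖L‖ ^ 2)) - (1 - √(1 - ‖M‖ ^ 2)) - (L - M) X

theorem gap_identity {L : H →L[ℝ] ℝ} {g : H} (hL : ‖L‖ ≤ 1) (hg : ‖g‖ < 1) :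
    2 * √(1 - ‖g‖ ^ 2) * gap L (innerSL ℝ g) ((√(1 - ‖g‖ ^ 2))⁻¹ • g) =
      (√(1 - ‖L‖ ^ 2) - √(1 - ‖g‖ ^ 2)) ^ 2 + ‖(InnerProductSpace.toDual ℝ H).symm L - g‖ ^ 2 := by
  set p := (InnerProductSpace.toDual ℝ H).symm L with hp
  have hLp : ∀ v, L v = ⟪p, v⟫ := fun v => by
    rw [hp, InnerProductSpace.toDual_symm_apply]
  have hn : ‖p‖ = ‖L‖ := by rw [hp]; exact LinearIsometryEquiv.norm_map _ _
  have hb : 0 < 1 - ‖g‖ ^ 2 := by
    have := norm_nonneg g
    nlinarith
  have ha : 0 ≤ 1 - ‖L‖ ^ 2 := by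
    have := norm_nonneg L
    nlinarith
  have hbs := Real.sq_sqrt hb.le
  have has := Real.sq_sqrt ha
  have hb0 : √(1 - ‖g‖ ^ 2) ≠ 0 := (Real.sqrt_pos.2 hb).ne'
  unfold gap
  rw [innerSL_apply_norm, sub_apply, map_smul, map_smul, hLp, innerSL_apply_apply,
    real_inner_self_eq_norm_sq, smul_eq_mul, smul_eq_mul, norm_sub_sq_real, hn]
  set a := √(1 - ‖L‖ ^ 2)
  set b := √(1 - ‖g‖ ^ 2)
  have : 2 * b * (1 - a - (1 - b) - (b⁻¹ * ⟪p, g⟫ - b⁻¹ * ‖g‖ ^ 2)) =
      2 * b * (b - a) - 2 * (⟪p, g⟫ - ‖g‖ ^ 2) := by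
    field_simp
    ring
  rw [this]
  nlinarith

theorem gap_nonneg {L : H →L[ℝ] ℝ} {g : H} (hL : ‖L‖ ≤ 1) (hg : ‖g‖ < 1) :
    0 ≤ gap L (innerSL ℝ g) ((√(1 - ‖g‖ ^ 2))⁻¹ • g) := by
  have h := gap_identity hL hg
  have hb : 0 < 1 - ‖g‖ ^ 2 := by
    have := norm_nonneg g
    nlinarith
  have hb0 : 0 < √(1 - ‖g‖ ^ 2) := Real.sqrt_pos.2 hb
  by_contra hcon
  push Not at hcon
  have h1 : 2 * √(1 - ‖g‖ ^ 2) * gap L (innerSL ℝ g) ((√(1 - ‖g‖ ^ 2))⁻¹ • g) < 0 :=
    mul_neg_of_pos_of_neg (by positivity) hcon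
  rw [h] at h1
  have h2 : 0 ≤ (√(1 - ‖L‖ ^ 2) - √(1 - ‖g‖ ^ 2)) ^ 2 +
    ‖(InnerProductSpace.toDual ℝ H).symm L - g‖ ^ 2 := by positivity
  linarith

theorem eq_of_gap_eq_zero {L : H →L[ℝ] ℝ} {g : H} (hL : ‖L‖ ≤ 1) (hg : ‖g‖ < 1)
    (h0 : gap L (innerSL ℝ g) ((√(1 - ‖g‖ ^ 2))⁻¹ • g) = 0) : L = innerSL ℝ g := by
  have h := gap_identity hL hg
  rw [h0, mul_zero] at h
  have h2 : ‖(InnerProductSpace.toDual ℝ H).symm L - g‖ ^ 2 = 0 := by
    have h3 : 0 ≤ (√(1 - ‖L‖ ^ 2) - √(1 - ‖g‖ ^ 2)) ^ 2 := sq_nonneg _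
    have h4 : 0 ≤ ‖(InnerProductSpace.toDual ℝ H).symm L - g‖ ^ 2 := sq_nonneg _
    linarith
  have h3 : (InnerProductSpace.toDual ℝ H).symm L = g := by
    rw [← sub_eq_zero, ← norm_eq_zero]
    exact pow_eq_zero_iff (two_ne_zero) |>.1 h2
  ext v
  rw [innerSL_apply_apply, ← h3, InnerProductSpace.toDual_symm_apply]

end ineq

theorem const_on_small_ball {m : ℕ} {g : E m → ℝ} {K : ℝ≥0} (hg : LipschitzWith K g)
    {x₀ : E m} {ρ : ℝ} (hρ : 0 < ρ)
    (h0 : ∀ᵐ x, x ∈ ball x₀ ρ → HasFDerivAt g (0 : E m →L[ℝ] ℝ) x) :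
    ∀ x ∈ ball x₀ (ρ / 2), g x = g x₀ := by
  intro x hx
  have hx₀ : x₀ ∈ ball x₀ (ρ / 2) := mem_ball_self (by positivity)
  have hkey : ∀ δ : ℝ, 0 < δ → δ ≤ ρ / 2 → |g x - g x₀| ≤ 2 * K * δ := by
    intro δ hδ hδρ
    set A : E m → ℝ := fun z => ∫ y in ball (0 : E m) δ, g (z + y) with hA
    have hfin : IsFiniteMeasure (volume.restrict (ball (0 : E m) δ)) :=
      ⟨by rw [Measure.restrict_apply_univ]; exact measure_ball_lt_top⟩
    have hint : ∀ z, IntegrableOn (fun y => g (z + y)) (ball (0 : E m) δ) := by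
      intro z
      have hc : Continuous fun y => g (z + y) := hg.continuous.comp (continuous_const.add continuous_id)
      exact (hc.continuousOn.integrableOn_compact (isCompact_closedBall 0 δ)).mono_set
        ball_subset_closedBall
    have hd : ∀ z ∈ ball x₀ (ρ / 2), HasFDerivAt A (0 : E m →L[ℝ] ℝ) z := by
      intro z hz
      have h1 := hasFDerivAt_integral_of_dominated_loc_of_lip (𝕜 := ℝ)
        (μ := volume.restrict (ball (0 : E m) δ)) (F := fun z y => g (z + y))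
        (F' := fun _ => (0 : E m →L[ℝ] ℝ)) (x₀ := z) (s := ball z 1) (bound := fun _ => (K : ℝ))
        (ball_mem_nhds z one_pos)
        (Eventually.of_forall fun z => (hint z).1) (hint z) aestronglyMeasurable_const
        (Eventually.of_forall fun y => by
          apply LipschitzWith.lipschitzOnWith
          apply LipschitzWith.of_dist_le_mul
          intro a b
          have := hg.dist_le_mul (a + y) (b + y)
          rw [dist_add_right] at this
          simpa using this)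
        (integrable_const _) (by
          rw [ae_restrict_iff' measurableSet_ball]
          have h2 := (measurePreserving_add_left volume z).quasiMeasurePreserving.ae h0
          filter_upwards [h2] with y hy hyb
          have h3 : z + y ∈ ball x₀ ρ := by
            rw [mem_ball, dist_eq_norm] at hz ⊢
            rw [mem_ball_zero_iff] at hyb
            calc ‖z + y - x₀‖ = ‖(z - x₀) + y‖ := by congr 1; abel
              _ ≤ ‖z - x₀‖ + ‖y‖ := norm_add_le _ _
              _ < ρ / 2 + ρ / 2 := by linarith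
              _ = ρ := by ring
          have h4 : HasFDerivAt (fun w : E m => w + y) (ContinuousLinearMap.id ℝ (E m)) z :=
            (hasFDerivAt_id z).add_const y
          have h5 := HasFDerivAt.comp (g := g) (f := fun w : E m => w + y) z (hy h3) h4
          exact h5.congr_fderiv (by simp))
      simpa using h1
    have hconst : A x = A x₀ := by
      apply IsOpen.is_const_of_fderiv_eq_zero (𝕜 := ℝ) isOpen_ball
        (convex_ball x₀ (ρ / 2)).isPreconnected
        (fun z hz => (hd z hz).differentiableAt.differentiableWithinAt)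
        (fun z hz => (hd z hz).fderiv) hx hx₀
    have hv0 : 0 < (volume (ball (0 : E m) δ)).toReal :=
      ENNReal.toReal_pos (measure_ball_pos _ _ hδ).ne' measure_ball_lt_top.ne
    have hdiff : ∀ z, |A z - g z * (volume (ball (0 : E m) δ)).toReal| ≤
        K * δ * (volume (ball (0 : E m) δ)).toReal := by
      intro z
      have h1 : A z - g z * (volume (ball (0 : E m) δ)).toReal =
          ∫ y in ball (0 : E m) δ, (g (z + y) - g z) := by
        rw [integral_sub (hint z) (integrable_const _), integral_const, smul_eq_mul, mul_comm]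
        congr 2
        rw [measureReal_def, Measure.restrict_apply_univ]
      rw [h1, ← Real.norm_eq_abs]
      refine (norm_setIntegral_le_of_norm_le_const (C := K * δ) measure_ball_lt_top ?_)
      intro y hy
      have h2 := hg.dist_le_mul (z + y) z
      rw [mem_ball_zero_iff] at hy
      rw [Real.dist_eq, dist_eq_norm, add_sub_cancel_left] at h2
      rw [Real.norm_eq_abs]
      refine h2.trans ?_
      exact mul_le_mul_of_nonneg_left hy.le K.2
    have h1 := abs_le.1 (hdiff x)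
    have h2 := abs_le.1 (hdiff x₀)
    rw [hconst] at h1
    have h3 : |(g x - g x₀)| * (volume (ball (0 : E m) δ)).toReal ≤
        2 * K * δ * (volume (ball (0 : E m) δ)).toReal := by
      rw [← abs_of_pos hv0, ← abs_mul, abs_of_pos hv0, abs_le]
      constructor <;> nlinarith [h1.1, h1.2, h2.1, h2.2]
    exact le_of_mul_le_mul_right h3 hv0
  by_contra hcon
  have hpos : 0 < |g x - g x₀| := abs_pos.2 (sub_ne_zero.2 hcon)
  set δ := min (ρ / 2) (|g x - g x₀| / (4 * (K + 1))) with hδdef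
  have hK : (0 : ℝ) ≤ K := K.2
  have hδ : 0 < δ := by
    apply lt_min (by positivity)
    positivity
  have h1 := hkey δ hδ (min_le_left _ _)
  have h2 : δ ≤ |g x - g x₀| / (4 * (K + 1)) := min_le_right _ _
  rw [le_div_iff₀ (by positivity)] at h2
  nlinarith

/-- Two locally Lipschitz functions with a.e. equal derivatives on a domain differ by a
constant there. -/
theorem const_of_ae_fderiv_eq {m : ℕ} {Ω : Set (E m)} (hO : IsOpen Ω) (hP : IsPreconnected Ω)
    {f h : E m → ℝ} (hf : LocallyLipschitzOn Ω f) (hh : LocallyLipschitzOn Ω h)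
    (h0 : ∀ᵐ x, x ∈ Ω → fderiv ℝ f x = fderiv ℝ h x) :
    ∀ x ∈ Ω, ∀ y ∈ Ω, f x - h x = f y - h y := by
  have hloc : ∀ x₀ ∈ Ω, ∃ ρ > 0, ball x₀ ρ ⊆ Ω ∧ ∀ x ∈ ball x₀ ρ, f x - h x = f x₀ - h x₀ := by
    intro x₀ hx₀
    obtain ⟨K, t, ht, hK⟩ := hf hx₀
    obtain ⟨K', t', ht', hK'⟩ := hh hx₀
    rw [hO.nhdsWithin_eq hx₀] at ht ht'
    obtain ⟨ρ, hρ, hρt⟩ := Metric.mem_nhds_iff.1
      (inter_mem (inter_mem ht ht') (hO.mem_nhds hx₀))
    obtain ⟨g, hg, hgf⟩ := (hK.mono (fun z hz => (hρt hz).1.1)).extend_real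
    obtain ⟨g', hg', hgf'⟩ := (hK'.mono (fun z hz => (hρt hz).1.2)).extend_real
    have h1 : ∀ᵐ x, x ∈ ball x₀ ρ → HasFDerivAt (fun z => g z - g' z) (0 : E m →L[ℝ] ℝ) x := by
      filter_upwards [h0, hg.ae_differentiableAt, hg'.ae_differentiableAt] with x hx hdx hdx' hxb
      have h2 : f =ᶠ[𝓝 x] g := by
        filter_upwards [isOpen_ball.mem_nhds hxb] with y hy
        exact hgf hy
      have h2' : h =ᶠ[𝓝 x] g' := by
        filter_upwards [isOpen_ball.mem_nhds hxb] with y hy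
        exact hgf' hy
      have h3 := hdx.hasFDerivAt.sub hdx'.hasFDerivAt
      rw [← h2.fderiv_eq, ← h2'.fderiv_eq, hx (hρt hxb).2, sub_self] at h3
      exact h3
    have h2 := const_on_small_ball (hg.sub hg') hρ h1
    refine ⟨ρ / 2, by positivity, ?_, ?_⟩
    · exact (ball_subset_ball (by linarith)).trans fun z hz => (hρt hz).2
    · intro x hx
      have h3 : x ∈ ball x₀ ρ := ball_subset_ball (by linarith) hx
      rw [hgf h3, hgf' h3, hgf (mem_ball_self hρ), hgf' (mem_ball_self hρ)]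
      exact h2 x hx
  have hd : ∀ x₀ ∈ Ω, HasFDerivAt (fun z => f z - h z) (0 : E m →L[ℝ] ℝ) x₀ := by
    intro x₀ hx₀
    obtain ⟨ρ, hρ, _, hc⟩ := hloc x₀ hx₀
    apply (hasFDerivAt_const (f x₀ - h x₀) x₀).congr_of_eventuallyEq
    filter_upwards [ball_mem_nhds x₀ hρ] with y hy
    exact hc y hy
  intro x hx y hy
  exact IsOpen.is_const_of_fderiv_eq_zero (𝕜 := ℝ) (f := fun z => f z - h z) hO hP
    (fun z hz => (hd z hz).differentiableAt.differentiableWithinAt)
    (fun z hz => (hd z hz).fderiv) hx hy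

/-- An accessible boundary point. -/
theorem exists_accessible {m : ℕ} {Ω : Set (E m)} (hO : IsOpen Ω) (hne : Ω.Nonempty)
    (hne' : Ωᶜ.Nonempty) : ∃ y ∈ frontier Ω, ∃ v : E m, ∀ s ∈ Ioo (0 : ℝ) 1, y + s • v ∈ Ω := by
  obtain ⟨x, hx⟩ := hne
  have hc : IsClosed Ωᶜ := hO.isClosed_compl
  obtain ⟨y, hy, hxy⟩ := hc.exists_infDist_eq_dist hne' x
  have hseg : ∀ s ∈ Ioc (0 : ℝ) 1, y + s • (x - y) ∈ Ω := by
    intro s hs
    by_contra hcon
    have h1 := infDist_le_dist_of_mem (x := x) (show y + s • (x - y) ∈ Ωᶜ from hcon)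
    rw [hxy, dist_eq_norm, dist_eq_norm] at h1
    have h2 : x - (y + s • (x - y)) = (1 - s) • (x - y) := by
      rw [sub_smul, one_smul]; abel
    rw [h2, norm_smul, Real.norm_eq_abs, abs_of_nonneg (by linarith [hs.2])] at h1
    have h3 : 0 < ‖x - y‖ := by
      rw [norm_pos_iff, sub_ne_zero]
      rintro rfl
      exact hy hx
    nlinarith [hs.1]
  refine ⟨y, ?_, x - y, fun s hs => hseg s ⟨hs.1, hs.2.le⟩⟩
  rw [hO.frontier_eq]
  refine ⟨?_, hy⟩
  have h1 : Tendsto (fun s : ℝ => y + s • (x - y)) (𝓝[>] 0) (𝓝 (y + (0 : ℝ) • (x - y))) := by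
    apply Tendsto.mono_left _ nhdsWithin_le_nhds
    apply Continuous.tendsto
    fun_prop
  rw [zero_smul, add_zero] at h1
  apply mem_closure_of_tendsto h1
  filter_upwards [Ioc_mem_nhdsGT (zero_lt_one (α := ℝ))] with s hs
  exact hseg s hs

theorem hausdorff_top {m : ℕ} {K : Set (E m)} (hK : 0 < volume K) :
    μH[(m : ℝ) - 1] K = ⊤ := by
  rcases Measure.hausdorffMeasure_zero_or_top (show (m : ℝ) - 1 < m by linarith) K with h | h
  · exfalso
    have h1 : (volume : Measure (E m)) ≪ μH[(m : ℝ)] := by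
      have h2 : Measure.IsAddHaarMeasure (G := E m) μH[(m : ℝ)] := by
        have := isAddHaarMeasure_hausdorffMeasure (E := E m)
        rwa [finrank_euclideanSpace, Fintype.card_fin] at this
      exact Measure.absolutelyContinuous_isAddHaarMeasure _ _
    exact hK.ne' (h1 h)
  · exact h

/-- the gradient of the sum at almost every point -/
theorem IsPacking.gradient {n : ℕ} {Ω : Set (E (n + 3))} {c : ℕ → E (n + 3)} {r : ℕ → ℝ} {δ : ℝ}
    (h : IsPacking Ω c r δ) :
    ∀ᵐ x, ∃ g : E (n + 3), ‖g‖ < 1 ∧ fderiv ℝ (uS c r) x = innerSL ℝ g ∧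
      XS c r x = (√(1 - ‖g‖ ^ 2))⁻¹ • g := by
  have h1 : ∀ᵐ x : E (n + 3), ∀ i : ℕ, x 1 ≠ (c i) 1 := by
    rw [ae_all_iff]
    intro i
    exact ae_coord_ne 1 _
  filter_upwards [h1, h.fderiv_off] with x hx hoff
  by_cases hb : ∃ i : Idx r, x ∈ ball (c i) (r i)
  · obtain ⟨i, hi⟩ := hb
    have hr := i.2
    refine ⟨DU ((r i / 13)⁻¹ • (x - c i)), ?_, (h.hasFDerivAt hi).fderiv, ?_⟩
    · have h2 := norm_DU_sq ((r i / 13)⁻¹ • (x - c i))
      have h3 : 0 < tt ((r i / 13)⁻¹ • (x - c i)) := by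
        have h4 := two_le_tt ((r i / 13)⁻¹ • (x - c i))
        have h5 : ((r i / 13)⁻¹ • (x - c i)) 1 ≠ 0 := by
          rw [PiLp.smul_apply, PiLp.sub_apply, smul_eq_mul]
          apply mul_ne_zero
          · positivity
          · exact sub_ne_zero.2 (hx i)
        have h6 : 0 < (((r i / 13)⁻¹ • (x - c i)) 1) ^ 2 := by positivity
        have h7 : 0 ≤ (((r i / 13)⁻¹ • (x - c i)) 2) ^ 2 := sq_nonneg _
        linarith
      have h4 := q_pos (s := ((r i / 13)⁻¹ • (x - c i)) 0) h3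
      rw [← h2] at h4
      have h5 := norm_nonneg (DU ((r i / 13)⁻¹ • (x - c i)))
      nlinarith
    · have h2 : XS c r x = XI c r i x := h.tsum_mem XI_out hi
      rw [h2]
      exact XX_zero_eq _
  · push Not at hb
    refine ⟨0, by simp, ?_, ?_⟩
    · rw [hoff hb, map_zero]
    · rw [XS_out hb, smul_zero]

/-- the centres lie on light segments -/
theorem IsPacking.light {n : ℕ} {Ω : Set (E (n + 3))} {c : ℕ → E (n + 3)} {r : ℕ → ℝ} {δ : ℝ}
    (h : IsPacking Ω c r δ) {i : ℕ} (hi : 0 < r i) :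
    ∃ y ∈ Ω, c i ≠ y ∧ segment ℝ (c i) y ⊆ Ω ∧ |uS c r (c i) - uS c r y| = dist (c i) y := by
  set l := r i / 13 with hl
  have hl0 : 0 < l := by positivity
  set y := c i + l • bv (0 : Fin (n + 3)) with hy
  have hnorm : ‖l • bv (0 : Fin (n + 3))‖ = l := by
    rw [norm_smul, Real.norm_of_nonneg hl0.le]; simp
  have hd : dist (c i) y = l := by
    rw [hy, dist_self_add_right, hnorm]
  have hyb : y ∈ ball (c i) (r i) := by
    rw [mem_ball, dist_comm, hd, hl]; linarith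
  have hcb : c i ∈ ball (c i) (r i) := mem_ball_self hi
  have hbΩ : ball (c i) (r i) ⊆ Ω := ball_sub h ⟨i, hi⟩
  refine ⟨y, hbΩ hyb, ?_, ((convex_ball _ _).segment_subset hcb hyb).trans hbΩ, ?_⟩
  · intro he
    rw [← he, dist_self] at hd
    exact hl0.ne hd
  · have e1 : uS c r (c i) = uI c r ⟨i, hi⟩ (c i) := h.tsum_mem uI_out (i := ⟨i, hi⟩) hcb
    have e2 : uS c r y = uI c r ⟨i, hi⟩ y := h.tsum_mem uI_out (i := ⟨i, hi⟩) hyb
    have e3 : uI c r ⟨i, hi⟩ (c i) = 0 := by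
      have := ub_axis (c := c i) (l := l) (s := 0) hl0 (by rw [abs_zero]; exact hl0.le)
      rw [zero_smul, add_zero] at this
      exact this
    have e4 : uI c r ⟨i, hi⟩ y = l := ub_axis hl0 (by rw [abs_of_pos hl0])
    rw [e1, e2, e3, e4, hd, zero_sub, abs_neg, abs_of_pos hl0]

end Pool.Agent.Helper36.Light
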