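import Mathlib

/-!
Integration by parts of a `C¹` compactly supported vector field against a Lipschitz function.
-/

namespace Pool.Agent.Helper36.Light

open MeasureTheory Set Filter Topology
open scoped NNReal

/-- Euclidean space -/
abbrev E (m : ℕ) : Type := EuclideanSpace ℝ (Fin m)

/-- basis vector -/
noncomputable abbrev bv {m : ℕ} (i : Fin m) : E m := EuclideanSpace.single i (1 : ℝ)

theorem ibp {m : ℕ} (F F' : Fin m → E m → ℝ) (hF : ∀ i, ContDiff ℝ 1 (F i))
    (hc : ∀ i, HasCompactSupport (F i)) (hd : ∀ i x, HasLineDerivAt ℝ (F i) (F' i x) x (bv i))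
    {K : ℝ≥0} {η : E m → ℝ} (hη : LipschitzWith K η) :
    ∫ x, fderiv ℝ η x (∑ i, F i x • bv i) = - ∫ x, (∑ i, F' i x) * η x := by
  have hF' : ∀ i x, F' i x = fderiv ℝ (F i) x (bv i) := by
    intro i x
    have h1 := (hd i x).lineDeriv
    rw [← h1, DifferentiableAt.lineDeriv_eq_fderiv]
    exact ((hF i).differentiable (by simp)).differentiableAt
  have hF'c : ∀ i, Continuous (F' i) := by
    intro i
    have : F' i = fun x => fderiv ℝ (F i) x (bv i) := funext (hF' i)
    rw [this]
    exact ((hF i).continuous_fderiv (by simp)).clm_apply continuous_const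
  have hF's : ∀ i, HasCompactSupport (F' i) := by
    intro i
    have : F' i = fun x => fderiv ℝ (F i) x (bv i) := funext (hF' i)
    rw [this]
    exact ((hc i).fderiv ℝ).comp_left (g := fun L : E m →L[ℝ] ℝ => L (bv i)) rfl
  have h1 : ∀ᵐ x : E m, fderiv ℝ η x (∑ i, F i x • bv i) = ∑ i, lineDeriv ℝ η x (bv i) * F i x := by
    filter_upwards [hη.ae_differentiableAt] with x hx
    rw [map_sum]
    apply Finset.sum_congr rfl
    intro i _
    rw [map_smul, hx.lineDeriv_eq_fderiv, smul_eq_mul, mul_comm]
  rw [integral_congr_ae h1, integral_finsetSum, ← integral_neg]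
  · have h2 : ∀ i, ∫ x, lineDeriv ℝ η x (bv i) * F i x = ∫ x, -(F' i x * η x) := by
      intro i
      obtain ⟨D, hD⟩ := (hF i).lipschitzWith_of_hasCompactSupport (hc i) (by simp)
      rw [hη.integral_lineDeriv_mul_eq hD (hc i)]
      apply integral_congr_ae
      filter_upwards with x
      rw [DifferentiableAt.lineDeriv_eq_fderiv, map_neg, hF' i x, neg_mul]
      exact ((hF i).differentiable (by simp)).differentiableAt
    simp_rw [h2]
    rw [← integral_finsetSum]
    · apply integral_congr_ae
      filter_upwards with x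
      rw [Finset.sum_neg_distrib, Finset.sum_mul]
    · intro i _
      apply Integrable.neg
      apply Continuous.integrable_of_hasCompactSupport
      · exact (hF'c i).mul hη.continuous
      · exact (hF's i).mul_right
  · intro i _
    have hb : ∀ᵐ x : E m, ‖lineDeriv ℝ η x (bv i)‖ ≤ K * ‖bv i‖ :=
      Eventually.of_forall fun x => norm_lineDeriv_le_of_lipschitz ℝ hη
    have hm : AEStronglyMeasurable (fun x => lineDeriv ℝ η x (bv i)) volume :=
      aestronglyMeasurable_lineDeriv hη.continuous volume
    have hFi : Integrable (F i) volume :=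
      (hF i).continuous.integrable_of_hasCompactSupport (hc i)
    exact hFi.bdd_mul hm hb

end Pool.Agent.Helper36.Light
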