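import Pool.Agent.Helper36.LightST
import Pool.Agent.Helper36.LightIBP

/-!
The dominating function.
-/

namespace Pool.Agent.Helper36.Light

open MeasureTheory Set Filter Topology

theorem integrableOn_abs_rpow {r : ℝ} (hr : -1 < r) (R : ℝ) (hR : 0 ≤ R) :
    IntegrableOn (fun y : ℝ => |y| ^ r) (Icc (-R) R) := by
  have h1 : IntegrableOn (fun y : ℝ => |y| ^ r) (Icc 0 R) := by
    have h := (intervalIntegral.intervalIntegrable_rpow' (a := 0) (b := R) hr)
    rw [intervalIntegrable_iff_integrableOn_Icc_of_le hR] at h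
    apply h.congr_fun _ measurableSet_Icc
    intro y hy
    change y ^ r = |y| ^ r
    rw [abs_of_nonneg hy.1]
  have h2 : IntegrableOn (fun y : ℝ => |y| ^ r) (Icc (-R) 0) := by
    have h := h1.comp_neg
    have e : -Icc (0 : ℝ) R = Icc (-R) 0 := by
      ext y; simp only [Set.mem_neg, mem_Icc]; constructor <;> rintro ⟨a, b⟩ <;> constructor <;> linarith
    rw [e] at h
    apply h.congr_fun _ measurableSet_Icc
    intro y hy
    simp only [abs_neg]
  have e : Icc (-R) R = Icc (-R) 0 ∪ Icc 0 R := (Icc_union_Icc_eq_Icc (by linarith) hR).symm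
  rw [e]
  exact h2.union h1

theorem integrableOn_abs_sub_rpow {r : ℝ} (hr : -1 < r) (R c : ℝ) (hR : 0 ≤ R) :
    IntegrableOn (fun y : ℝ => |y - c| ^ r) (Icc (-R) R) := by
  have h := integrableOn_abs_rpow hr (R + |c|) (by positivity)
  have h2 : IntegrableOn (fun y : ℝ => |y - c| ^ r) ((fun y => y - c) ⁻¹' Icc (-(R + |c|)) (R + |c|)) := by
    have hm : MeasurePreserving (fun y : ℝ => y - c) volume volume :=
      measurePreserving_sub_right volume c
    have he : MeasurableEmbedding (fun y : ℝ => y - c) := measurableEmbedding_subRight c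
    exact (hm.integrableOn_comp_preimage he).2 h
  apply h2.mono_set
  intro y hy
  simp only [mem_preimage, mem_Icc]
  have := abs_le.1 (le_refl |c|)
  have h3 := hy.1
  have h4 := hy.2
  constructor <;> linarith

/-- `|x'|²` -/
noncomputable def tt {n : ℕ} (x : E (n + 3)) : ℝ := ∑ j : Fin (n + 2), (x j.succ) ^ 2

/-- one-dimensional factors of the dominating function -/
noncomputable def hf {n : ℕ} (i : Fin (n + 3)) (y : ℝ) : ℝ :=
  (Icc (-10) 10).indicator (fun y : ℝ =>
    if i = 0 then 1 + |y - 1| ^ (-(1 / 2) : ℝ) + |y + 1| ^ (-(1 / 2) : ℝ)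
    else if i = 1 ∨ i = 2 then |y| ^ (-(3 / 4) : ℝ) else 1) y

theorem integrable_hf {n : ℕ} (i : Fin (n + 3)) : Integrable (hf i) := by
  unfold hf
  rw [integrable_indicator_iff measurableSet_Icc]
  by_cases h0 : i = 0
  · simp only [h0, if_true]
    apply Integrable.add
    · apply Integrable.add
      · exact integrable_const_iff.2 (Or.inr ⟨by simp⟩)
      · exact integrableOn_abs_sub_rpow (by norm_num) 10 1 (by norm_num)
    · have := integrableOn_abs_sub_rpow (r := -(1 / 2)) (by norm_num) 10 (-1) (by norm_num)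
      simp only [sub_neg_eq_add] at this
      exact this
  · simp only [h0, if_false]
    by_cases h1 : i = 1 ∨ i = 2
    · simp only [h1, if_true]
      exact integrableOn_abs_rpow (by norm_num) 10 (by norm_num)
    · simp only [h1, if_false]
      exact integrable_const_iff.2 (Or.inr ⟨by simp⟩)

/-- dominating function -/
noncomputable def HH {n : ℕ} (x : E (n + 3)) : ℝ := ∏ i, hf i (x i)

theorem integrable_HH {n : ℕ} : Integrable (HH (n := n)) := by
  have h : Integrable (fun x : Fin (n + 3) → ℝ => ∏ i, hf i (x i)) := by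
    have := Integrable.fintype_prod (f := fun (i : Fin (n + 3)) (y : ℝ) => hf i y)
      (μ := fun _ => volume) (fun i => integrable_hf i)
    exact this
  have h2 := (PiLp.volume_preserving_ofLp (Fin (n + 3))).integrable_comp_of_integrable h
  exact h2

theorem HH_nonneg {n : ℕ} (x : E (n + 3)) : 0 ≤ HH x := by
  apply Finset.prod_nonneg
  intro i _
  unfold hf
  apply indicator_nonneg
  intro y _
  split_ifs <;> positivity

theorem HH_eq {n : ℕ} (x : E (n + 3)) (h : ∀ i, |x i| ≤ 10) :
    HH x = (1 + |x 0 - 1| ^ (-(1 / 2) : ℝ) + |x 0 + 1| ^ (-(1 / 2) : ℝ)) *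
      (|x 1| * |x 2|) ^ (-(3 / 4) : ℝ) := by
  unfold HH
  have h1 : ∀ i : Fin (n + 3), hf i (x i) = if i = 0 then 1 + |x i - 1| ^ (-(1 / 2) : ℝ)
      + |x i + 1| ^ (-(1 / 2) : ℝ) else if i = 1 ∨ i = 2 then |x i| ^ (-(3 / 4) : ℝ) else 1 := by
    intro i
    unfold hf
    rw [indicator_of_mem]
    rw [mem_Icc]; exact abs_le.1 (h i)
  simp_rw [h1]
  rw [Fin.prod_univ_succ, Fin.prod_univ_succ, Fin.prod_univ_succ]
  have e1 : (Fin.succ (0 : Fin (n + 2))) = (1 : Fin (n + 3)) := rfl
  have e2 : (Fin.succ (Fin.succ (0 : Fin (n + 1)))) = (2 : Fin (n + 3)) := rfl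
  have h3 : ∀ i : Fin n, (if i.succ.succ.succ = (0 : Fin (n + 3)) then
      1 + |x i.succ.succ.succ - 1| ^ (-(1 / 2) : ℝ)
      + |x i.succ.succ.succ + 1| ^ (-(1 / 2) : ℝ) else
      if i.succ.succ.succ = 1 ∨ i.succ.succ.succ = (2 : Fin (n + 3)) then
        |x i.succ.succ.succ| ^ (-(3 / 4) : ℝ) else 1) = 1 := by
    intro i
    rw [if_neg (Fin.succ_ne_zero _), if_neg]
    rw [← e1, ← e2]
    rintro (h | h)
    · exact Fin.succ_ne_zero _ (Fin.succ_injective _ h)
    · exact Fin.succ_ne_zero _ (Fin.succ_injective _ (Fin.succ_injective _ h))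
  simp_rw [h3]
  rw [Finset.prod_const_one, e1, e2]
  have n1 : (1 : Fin (n + 3)) ≠ 0 := by rw [← e1]; exact Fin.succ_ne_zero _
  have n2 : (2 : Fin (n + 3)) ≠ 0 := by rw [← e2]; exact Fin.succ_ne_zero _
  simp only [if_true, n1, n2, if_false, true_or, or_true, mul_one]
  rw [Real.mul_rpow (abs_nonneg _) (abs_nonneg _)]

end Pool.Agent.Helper36.Light
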