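import Mathlib

/-!
One-dimensional spline functions used in the construction of a bump with a light segment.
-/

namespace Pool.Agent.Helper36.Light

open Set

/-- positive part power -/
noncomputable def pp (n : ℕ) (y : ℝ) : ℝ := (max y 0) ^ n

theorem pp_of_nonneg {n : ℕ} {y : ℝ} (h : 0 ≤ y) : pp n y = y ^ n := by
  simp [pp, max_eq_left h]

theorem pp_of_nonpos {n : ℕ} {y : ℝ} (h : y ≤ 0) : pp (n + 1) y = 0 := by
  simp [pp, max_eq_right h]

theorem pp_nonneg {n : ℕ} {y : ℝ} : 0 ≤ pp n y := pow_nonneg (le_max_right _ _) _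

theorem continuous_pp (n : ℕ) : Continuous (pp n) := by
  unfold pp; fun_prop

theorem hasDerivAt_pp (n : ℕ) (y : ℝ) :
    HasDerivAt (pp (n + 2)) ((n + 2 : ℕ) * pp (n + 1) y) y := by
  have h1 : HasDerivWithinAt (pp (n + 2)) ((n + 2 : ℕ) * pp (n + 1) y) (Iic 0 ∪ Ici 0) y := by
    rcases lt_trichotomy y 0 with hy | hy | hy
    · have : HasDerivAt (pp (n + 2)) ((n + 2 : ℕ) * pp (n + 1) y) y := by
        rw [pp_of_nonpos hy.le, mul_zero]
        apply (hasDerivAt_const y (0 : ℝ)).congr_of_eventuallyEq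
        filter_upwards [Iio_mem_nhds hy] with z hz
        exact pp_of_nonpos (le_of_lt hz)
      exact this.hasDerivWithinAt
    · subst hy
      apply HasDerivWithinAt.union
      · rw [pp_of_nonpos le_rfl, mul_zero]
        apply (hasDerivWithinAt_const (0 : ℝ) (Iic 0) (0 : ℝ)).congr
        · intro z hz; exact pp_of_nonpos hz
        · exact pp_of_nonpos le_rfl
      · have h2 := (hasDerivAt_pow (n + 2) (0 : ℝ)).hasDerivWithinAt (s := Ici 0)
        have h3 : pp (n + 1) 0 = (0 : ℝ) ^ (n + 2 - 1) := by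
          rw [pp_of_nonneg le_rfl]; rfl
        rw [h3]
        apply h2.congr
        · intro z hz; exact pp_of_nonneg hz
        · exact pp_of_nonneg le_rfl
    · have : HasDerivAt (pp (n + 2)) ((n + 2 : ℕ) * pp (n + 1) y) y := by
        have h2 := hasDerivAt_pow (n + 2) y
        have h3 : pp (n + 1) y = y ^ (n + 2 - 1) := pp_of_nonneg hy.le
        rw [h3]
        apply h2.congr_of_eventuallyEq
        filter_upwards [Ioi_mem_nhds hy] with z hz
        exact pp_of_nonneg (le_of_lt hz)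
      exact this.hasDerivWithinAt
  rw [Iic_union_Ici] at h1
  exact h1.hasDerivAt Filter.univ_mem

theorem contDiff_pp (n : ℕ) : ContDiff ℝ 1 (pp (n + 2)) := by
  rw [contDiff_one_iff_deriv]
  refine ⟨fun y => (hasDerivAt_pp n y).differentiableAt, ?_⟩
  have : deriv (pp (n + 2)) = fun y => ((n + 2 : ℕ) : ℝ) * pp (n + 1) y := by
    funext y; exact (hasDerivAt_pp n y).deriv
  rw [this]
  exact continuous_const.mul (continuous_pp _)

/-- one-sided spline -/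
noncomputable def P0 (s : ℝ) : ℝ :=
  1 / 3 * pp 3 (s - 1) - 11 / 15 * pp 3 (s - 2) + 5 / 12 * pp 3 (s - 3) - 1 / 60 * pp 3 (s - 7)
/-- its derivative -/
noncomputable def P1 (s : ℝ) : ℝ :=
  pp 2 (s - 1) - 11 / 5 * pp 2 (s - 2) + 5 / 4 * pp 2 (s - 3) - 1 / 20 * pp 2 (s - 7)
/-- its second derivative -/
noncomputable def P2 (s : ℝ) : ℝ :=
  2 * pp 1 (s - 1) - 22 / 5 * pp 1 (s - 2) + 5 / 2 * pp 1 (s - 3) - 1 / 10 * pp 1 (s - 7)

theorem hasDerivAt_pp_sub (n : ℕ) (a s : ℝ) :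
    HasDerivAt (fun s => pp (n + 2) (s - a)) ((n + 2 : ℕ) * pp (n + 1) (s - a)) s := by
  exact (hasDerivAt_pp n (s - a)).comp_sub_const s a

theorem hasDerivAt_P0 (s : ℝ) : HasDerivAt P0 (P1 s) s := by
  have h1 := (hasDerivAt_pp_sub 1 1 s).const_mul (1 / 3 : ℝ)
  have h2 := (hasDerivAt_pp_sub 1 2 s).const_mul (11 / 15 : ℝ)
  have h3 := (hasDerivAt_pp_sub 1 3 s).const_mul (5 / 12 : ℝ)
  have h4 := (hasDerivAt_pp_sub 1 7 s).const_mul (1 / 60 : ℝ)
  have h := ((h1.sub h2).add h3).sub h4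
  refine h.congr_deriv ?_
  unfold P1; push_cast; ring

theorem hasDerivAt_P1 (s : ℝ) : HasDerivAt P1 (P2 s) s := by
  have h1 := (hasDerivAt_pp_sub 0 1 s)
  have h2 := (hasDerivAt_pp_sub 0 2 s).const_mul (11 / 5 : ℝ)
  have h3 := (hasDerivAt_pp_sub 0 3 s).const_mul (5 / 4 : ℝ)
  have h4 := (hasDerivAt_pp_sub 0 7 s).const_mul (1 / 20 : ℝ)
  have h := ((h1.sub h2).add h3).sub h4
  refine h.congr_deriv ?_
  unfold P2; push_cast; ring

theorem continuous_P2 : Continuous P2 := by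
  unfold P2
  have := continuous_pp 1
  fun_prop

/-- the profile along the axis -/
noncomputable def g0 (s : ℝ) : ℝ := s - P0 s + P0 (-s)
/-- its derivative -/
noncomputable def g1 (s : ℝ) : ℝ := 1 - P1 s - P1 (-s)
/-- its second derivative -/
noncomputable def g2 (s : ℝ) : ℝ := - P2 s + P2 (-s)

theorem hasDerivAt_g0 (s : ℝ) : HasDerivAt g0 (g1 s) s := by
  have h1 := hasDerivAt_P0 s
  have h2 := (hasDerivAt_P0 (-s)).comp s (hasDerivAt_neg s)
  have h := ((hasDerivAt_id s).sub h1).add h2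
  refine h.congr_deriv ?_
  unfold g1; ring

theorem hasDerivAt_g1 (s : ℝ) : HasDerivAt g1 (g2 s) s := by
  have h1 := hasDerivAt_P1 s
  have h2 := (hasDerivAt_P1 (-s)).comp s (hasDerivAt_neg s)
  have h := ((hasDerivAt_const s (1 : ℝ)).sub h1).sub h2
  refine h.congr_deriv ?_
  unfold g2; ring

theorem continuous_g2 : Continuous g2 := by
  unfold g2
  have := continuous_P2
  fun_prop

theorem g0_neg (s : ℝ) : g0 (-s) = - g0 s := by unfold g0; rw [neg_neg]; ring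
theorem g1_neg (s : ℝ) : g1 (-s) = g1 s := by unfold g1; rw [neg_neg]; ring
theorem g2_neg (s : ℝ) : g2 (-s) = - g2 s := by unfold g2; rw [neg_neg]; ring

theorem P_nonpos {s : ℝ} (h : s ≤ 1) : P0 s = 0 ∧ P1 s = 0 ∧ P2 s = 0 := by
  unfold P0 P1 P2
  rw [pp_of_nonpos (by linarith), pp_of_nonpos (by linarith), pp_of_nonpos (by linarith),
    pp_of_nonpos (by linarith), pp_of_nonpos (by linarith), pp_of_nonpos (by linarith),
    pp_of_nonpos (by linarith), pp_of_nonpos (by linarith), pp_of_nonpos (by linarith),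
    pp_of_nonpos (by linarith), pp_of_nonpos (by linarith), pp_of_nonpos (by linarith)]
  norm_num

/-- values for `s ∈ [-1,1]` -/
theorem g_of_le_one {s : ℝ} (h : |s| ≤ 1) : g0 s = s ∧ g1 s = 1 ∧ g2 s = 0 := by
  obtain ⟨h1, h2⟩ := abs_le.1 h
  obtain ⟨a, b, c⟩ := P_nonpos h2
  obtain ⟨a', b', c'⟩ := P_nonpos (show -s ≤ 1 by linarith)
  unfold g0 g1 g2
  rw [a, b, c, a', b', c']
  norm_num

theorem g_of_one_two {s : ℝ} (h1 : 1 ≤ s) (h2 : s ≤ 2) :
    g0 s = s - 1 / 3 * (s - 1) ^ 3 ∧ g1 s = 1 - (s - 1) ^ 2 ∧ g2 s = - (2 * (s - 1)) := by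
  obtain ⟨a', b', c'⟩ := P_nonpos (show -s ≤ 1 by linarith)
  unfold g0 g1 g2
  rw [a', b', c']
  unfold P0 P1 P2
  rw [pp_of_nonneg (show (0 : ℝ) ≤ s - 1 by linarith), pp_of_nonpos (show s - 2 ≤ 0 by linarith),
    pp_of_nonpos (show s - 3 ≤ 0 by linarith), pp_of_nonpos (show s - 7 ≤ 0 by linarith),
    pp_of_nonneg (show (0 : ℝ) ≤ s - 1 by linarith), pp_of_nonpos (show s - 2 ≤ 0 by linarith),
    pp_of_nonpos (show s - 3 ≤ 0 by linarith), pp_of_nonpos (show s - 7 ≤ 0 by linarith),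
    pp_of_nonneg (show (0 : ℝ) ≤ s - 1 by linarith), pp_of_nonpos (show s - 2 ≤ 0 by linarith),
    pp_of_nonpos (show s - 3 ≤ 0 by linarith), pp_of_nonpos (show s - 7 ≤ 0 by linarith)]
  refine ⟨by ring, by ring, by ring⟩

theorem g_of_two_three {s : ℝ} (h1 : 2 ≤ s) (h2 : s ≤ 3) :
    g0 s = s - 1 / 3 * (s - 1) ^ 3 + 11 / 15 * (s - 2) ^ 3 ∧
    g1 s = 1 - (s - 1) ^ 2 + 11 / 5 * (s - 2) ^ 2 ∧
    g2 s = - (2 * (s - 1)) + 22 / 5 * (s - 2) := by
  obtain ⟨a', b', c'⟩ := P_nonpos (show -s ≤ 1 by linarith)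
  unfold g0 g1 g2
  rw [a', b', c']
  unfold P0 P1 P2
  rw [pp_of_nonneg (show (0 : ℝ) ≤ s - 1 by linarith), pp_of_nonneg (show 0 ≤ s - 2 by linarith),
    pp_of_nonpos (show s - 3 ≤ 0 by linarith), pp_of_nonpos (show s - 7 ≤ 0 by linarith),
    pp_of_nonneg (show (0 : ℝ) ≤ s - 1 by linarith), pp_of_nonneg (show 0 ≤ s - 2 by linarith),
    pp_of_nonpos (show s - 3 ≤ 0 by linarith), pp_of_nonpos (show s - 7 ≤ 0 by linarith),
    pp_of_nonneg (show (0 : ℝ) ≤ s - 1 by linarith), pp_of_nonneg (show 0 ≤ s - 2 by linarith),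
    pp_of_nonpos (show s - 3 ≤ 0 by linarith), pp_of_nonpos (show s - 7 ≤ 0 by linarith)]
  refine ⟨by ring, by ring, by ring⟩

theorem g_of_three_seven {s : ℝ} (h1 : 3 ≤ s) (h2 : s ≤ 7) :
    g0 s = 1 / 60 * (7 - s) ^ 3 ∧
    g1 s = - (1 / 20 * (7 - s) ^ 2) ∧
    g2 s = 1 / 10 * (7 - s) := by
  obtain ⟨a', b', c'⟩ := P_nonpos (show -s ≤ 1 by linarith)
  unfold g0 g1 g2
  rw [a', b', c']
  unfold P0 P1 P2
  rw [pp_of_nonneg (show (0 : ℝ) ≤ s - 1 by linarith), pp_of_nonneg (show 0 ≤ s - 2 by linarith),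
    pp_of_nonneg (show 0 ≤ s - 3 by linarith), pp_of_nonpos (show s - 7 ≤ 0 by linarith),
    pp_of_nonneg (show (0 : ℝ) ≤ s - 1 by linarith), pp_of_nonneg (show 0 ≤ s - 2 by linarith),
    pp_of_nonneg (show 0 ≤ s - 3 by linarith), pp_of_nonpos (show s - 7 ≤ 0 by linarith),
    pp_of_nonneg (show (0 : ℝ) ≤ s - 1 by linarith), pp_of_nonneg (show 0 ≤ s - 2 by linarith),
    pp_of_nonneg (show 0 ≤ s - 3 by linarith), pp_of_nonpos (show s - 7 ≤ 0 by linarith)]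
  refine ⟨by ring, by ring, by ring⟩

theorem g_of_seven {s : ℝ} (h1 : 7 ≤ s) : g0 s = 0 ∧ g1 s = 0 ∧ g2 s = 0 := by
  obtain ⟨a', b', c'⟩ := P_nonpos (show -s ≤ 1 by linarith)
  unfold g0 g1 g2
  rw [a', b', c']
  unfold P0 P1 P2
  rw [pp_of_nonneg (show (0 : ℝ) ≤ s - 1 by linarith), pp_of_nonneg (show 0 ≤ s - 2 by linarith),
    pp_of_nonneg (show 0 ≤ s - 3 by linarith), pp_of_nonneg (show 0 ≤ s - 7 by linarith),
    pp_of_nonneg (show (0 : ℝ) ≤ s - 1 by linarith), pp_of_nonneg (show 0 ≤ s - 2 by linarith),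
    pp_of_nonneg (show 0 ≤ s - 3 by linarith), pp_of_nonneg (show 0 ≤ s - 7 by linarith),
    pp_of_nonneg (show (0 : ℝ) ≤ s - 1 by linarith), pp_of_nonneg (show 0 ≤ s - 2 by linarith),
    pp_of_nonneg (show 0 ≤ s - 3 by linarith), pp_of_nonneg (show 0 ≤ s - 7 by linarith)]
  refine ⟨by ring, by ring, by ring⟩

theorem g_support {s : ℝ} (h1 : 7 ≤ |s|) : g0 s = 0 ∧ g1 s = 0 ∧ g2 s = 0 := by
  rcases le_abs.1 h1 with h | h
  · exact g_of_seven h
  · obtain ⟨a, b, c⟩ := g_of_seven h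
    rw [g0_neg] at a; rw [g1_neg] at b; rw [g2_neg] at c
    exact ⟨by linarith, b, by linarith⟩

theorem bounds_nonneg {s : ℝ} (h0 : 0 ≤ s) :
    0 ≤ g0 s ∧ g0 s ≤ 5 / 3 ∧ |g1 s| ≤ 1 ∧ |g2 s| ≤ 2 := by
  rcases le_total s 1 with h1 | h1
  · obtain ⟨a, b, c⟩ := g_of_le_one (show |s| ≤ 1 by rw [abs_of_nonneg h0]; exact h1)
    rw [a, b, c]; norm_num; exact ⟨h0, by linarith⟩
  rcases le_total s 2 with h2 | h2
  · obtain ⟨a, b, c⟩ := g_of_one_two h1 h2
    rw [a, b, c]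
    obtain ⟨σ, hσ⟩ : ∃ σ, s = σ + 1 := ⟨s - 1, by ring⟩
    subst hσ
    have e0 : 0 ≤ σ := by linarith
    have e1 : σ ≤ 1 := by linarith
    have e2 : 0 ≤ 1 - σ := by linarith
    refine ⟨?_, ?_, ?_, ?_⟩
    · nlinarith [mul_nonneg e0 e2, mul_nonneg e0 (mul_nonneg e0 e2)]
    · nlinarith [mul_nonneg e0 e2, mul_nonneg e0 (mul_nonneg e0 e2), sq_nonneg (1 - σ), mul_nonneg e2 (mul_nonneg e2 e2)]
    · rw [abs_le]; constructor <;> nlinarith [mul_nonneg e0 e2]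
    · rw [abs_le]; constructor <;> linarith
  rcases le_total s 3 with h3 | h3
  · obtain ⟨a, b, c⟩ := g_of_two_three h2 h3
    rw [a, b, c]
    obtain ⟨σ, hσ⟩ : ∃ σ, s = σ + 2 := ⟨s - 2, by ring⟩
    subst hσ
    have e0 : 0 ≤ σ := by linarith
    have e1 : σ ≤ 1 := by linarith
    have e2 : 0 ≤ 1 - σ := by linarith
    refine ⟨?_, ?_, ?_, ?_⟩
    · nlinarith [mul_nonneg e0 e2, mul_nonneg e0 (mul_nonneg e0 e2), mul_nonneg e2 (mul_nonneg e2 e2), mul_nonneg e0 (mul_nonneg e0 e0)]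
    · nlinarith [mul_nonneg e0 e2, mul_nonneg e0 (mul_nonneg e0 e2), mul_nonneg e2 (mul_nonneg e2 e2), mul_nonneg e0 (mul_nonneg e0 e0)]
    · rw [abs_le]; constructor
      · nlinarith [mul_nonneg e0 e2, sq_nonneg (σ - 5/6)]
      · nlinarith [mul_nonneg e0 e2]
    · rw [abs_le]; constructor <;> linarith
  rcases le_total s 7 with h4 | h4
  · obtain ⟨a, b, c⟩ := g_of_three_seven h3 h4
    rw [a, b, c]
    obtain ⟨σ, hσ⟩ : ∃ σ, s = 7 - σ := ⟨7 - s, by ring⟩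
    subst hσ
    have e0 : 0 ≤ σ := by linarith
    have e1 : σ ≤ 4 := by linarith
    have e2 : 0 ≤ 4 - σ := by linarith
    have h7 : 7 - (7 - σ) = σ := by ring
    rw [h7]
    refine ⟨by positivity, ?_, ?_, ?_⟩
    · nlinarith [mul_nonneg e0 e2, mul_nonneg e0 (mul_nonneg e0 e2), mul_nonneg e2 (mul_nonneg e2 e2)]
    · rw [abs_le]; constructor <;> nlinarith [mul_nonneg e0 e2]
    · rw [abs_le]; constructor <;> linarith
  · obtain ⟨a, b, c⟩ := g_of_seven h4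
    rw [a, b, c]; norm_num

theorem abs_g0_le (s : ℝ) : |g0 s| ≤ 5 / 3 := by
  rcases le_total 0 s with h | h
  · obtain ⟨a, b, _, _⟩ := bounds_nonneg h
    rw [abs_of_nonneg a]; exact b
  · obtain ⟨a, b, _, _⟩ := bounds_nonneg (show 0 ≤ -s by linarith)
    rw [g0_neg] at a b
    rw [abs_of_nonpos (by linarith)]; exact b

theorem abs_g1_le (s : ℝ) : |g1 s| ≤ 1 := by
  rcases le_total 0 s with h | h
  · exact (bounds_nonneg h).2.2.1
  · have := (bounds_nonneg (show 0 ≤ -s by linarith)).2.2.1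
    rwa [g1_neg] at this

theorem abs_g2_le (s : ℝ) : |g2 s| ≤ 2 := by
  rcases le_total 0 s with h | h
  · exact (bounds_nonneg h).2.2.2
  · have := (bounds_nonneg (show 0 ≤ -s by linarith)).2.2.2
    rwa [g2_neg, abs_neg] at this

/-- the key trichotomy -/
theorem g_cases (s : ℝ) : g2 s = 0 ∨ (1 < |s| ∧ |g2 s| = 2 * (|s| - 1) ∧ |s| - 1 ≤ 1 ∧
    (|s| - 1) ^ 2 ≤ 1 - g1 s ^ 2) ∨ (1 / 4 ≤ 1 - g1 s ^ 2) := by
  wlog hs : 0 ≤ s with H
  · have := H (-s) (by linarith)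
    rwa [g2_neg, g1_neg, abs_neg, abs_neg, neg_eq_zero] at this
  rw [abs_of_nonneg hs]
  rcases le_or_gt s 1 with h1 | h1
  · left
    exact (g_of_le_one (show |s| ≤ 1 by rw [abs_of_nonneg hs]; exact h1)).2.2
  right
  rcases le_total s 2 with h2 | h2
  · left
    obtain ⟨a, b, c⟩ := g_of_one_two h1.le h2
    rw [b, c, abs_neg, abs_of_nonneg (by linarith)]
    refine ⟨h1, rfl, by linarith, ?_⟩
    have e0 : 0 ≤ (s - 1) ^ 2 := sq_nonneg _
    have e1 : (s - 1) ^ 2 ≤ 1 := by nlinarith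
    nlinarith
  right
  rcases le_total s 3 with h3 | h3
  · obtain ⟨a, b, c⟩ := g_of_two_three h2 h3
    obtain ⟨σ, hσ⟩ : ∃ σ, s = σ + 2 := ⟨s - 2, by ring⟩
    subst hσ
    have e0 : 0 ≤ σ := by linarith
    have e1 : σ ≤ 1 := by linarith
    have e2 : 0 ≤ 1 - σ := by linarith
    have l1 : -(17 / 20) ≤ g1 (σ + 2) := by
      rw [b]; nlinarith [mul_nonneg e0 e2, sq_nonneg (σ - 5/6)]
    have l2 : g1 (σ + 2) ≤ 0 := by
      rw [b]; nlinarith [mul_nonneg e0 e2]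
    nlinarith
  rcases le_total s 7 with h4 | h4
  · obtain ⟨a, b, c⟩ := g_of_three_seven h3 h4
    have l1 : -(17 / 20) ≤ g1 s := by rw [b]; nlinarith
    have l2 : g1 s ≤ 0 := by rw [b]; nlinarith [sq_nonneg (7 - s)]
    nlinarith
  · obtain ⟨a, b, c⟩ := g_of_seven h4
    rw [b]; norm_num

theorem contDiff_g1 : ContDiff ℝ 1 g1 := by
  rw [contDiff_one_iff_deriv]
  refine ⟨fun y => (hasDerivAt_g1 y).differentiableAt, ?_⟩
  have : deriv g1 = g2 := by
    funext y; exact (hasDerivAt_g1 y).deriv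
  rw [this]; exact continuous_g2

theorem contDiff_g0 : ContDiff ℝ 1 g0 := by
  rw [contDiff_one_iff_deriv]
  refine ⟨fun y => (hasDerivAt_g0 y).differentiableAt, ?_⟩
  have : deriv g0 = g1 := by
    funext y; exact (hasDerivAt_g0 y).deriv
  rw [this]; exact contDiff_g1.continuous

end Pool.Agent.Helper36.Light
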