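import Pool.Agent.Helper36.LightIBP

/-!
Disjoint balls of small total volume with dense centres.
-/

namespace Pool.Agent.Helper36.Light

open MeasureTheory Set Filter Topology Metric
open scoped NNReal ENNReal

theorem exists_strong {α : Type*} (P : ∀ j : ℕ, (∀ i, i < j → α) → α → Prop)
    (h : ∀ j f, ∃ a, P j f a) : ∃ r : ℕ → α, ∀ j, P j (fun i _ => r i) (r j) := by
  choose F hF using h
  refine ⟨fun j => WellFounded.fix (C := fun _ => α) Nat.lt_wfRel.wf F j, fun j => ?_⟩
  have := hF j (fun i _ => WellFounded.fix (C := fun _ => α) Nat.lt_wfRel.wf F i)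
  have e : WellFounded.fix (C := fun _ => α) Nat.lt_wfRel.wf F j =
      F j (fun i _ => WellFounded.fix (C := fun _ => α) Nat.lt_wfRel.wf F i) :=
    WellFounded.fix_eq _ _ _
  rw [← e] at this
  exact this

/-- the properties of the packing -/
structure IsPacking {m : ℕ} (Ω : Set (E m)) (c : ℕ → E m) (r : ℕ → ℝ) (δ : ℝ) : Prop where
  nonneg : ∀ i, 0 ≤ r i
  le : ∀ i, r i ≤ δ * (1 / 2) ^ i
  sub : ∀ i, 0 < r i → closedBall (c i) (r i) ⊆ Ω
  sep : ∀ i j, i ≠ j → 0 < r i → 0 < r j → r i + r j ≤ dist (c i) (c j)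
  dense : ∀ x ∈ Ω, (∀ i, 0 < r i → x ∉ closedBall (c i) (r i)) → x ∈ closure (c '' {i | 0 < r i})

theorem exists_packing {m : ℕ} {Ω : Set (E m)} (hO : IsOpen Ω) (hne : Ω.Nonempty)
    {δ : ℝ} (hδ : 0 < δ) : ∃ (c : ℕ → E m) (r : ℕ → ℝ), IsPacking Ω c r δ := by
  have : Nonempty Ω := hne.to_subtype
  set c : ℕ → E m := fun i => (TopologicalSpace.denseSeq Ω i : E m) with hc
  have hcΩ : ∀ i, c i ∈ Ω := fun i => (TopologicalSpace.denseSeq Ω i).2
  have hcd : Ω ⊆ closure (range c) := by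
    have h1 : DenseRange (TopologicalSpace.denseSeq Ω) := TopologicalSpace.denseRange_denseSeq Ω
    intro x hx
    have h2 := h1 ⟨x, hx⟩
    have h3 := image_closure_subset_closure_image (f := fun y : Ω => (y : E m))
      continuous_subtype_val (mem_image_of_mem _ h2)
    rw [← range_comp] at h3
    exact h3
  obtain ⟨r, hr⟩ := exists_strong (fun (j : ℕ) (f : ∀ i, i < j → ℝ) (a : ℝ) =>
    0 ≤ a ∧ a ≤ δ * (1 / 2) ^ j ∧ (0 < a → closedBall (c j) a ⊆ Ω) ∧
    (∀ i (h : i < j), 0 < f i h → 0 < a → f i h + a ≤ dist (c i) (c j)) ∧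
    (a = 0 → ∃ i, ∃ h : i < j, 0 < f i h ∧ dist (c i) (c j) ≤ f i h)) (by
      intro j f
      by_cases hex : ∃ i, ∃ h : i < j, 0 < f i h ∧ dist (c i) (c j) ≤ f i h
      · exact ⟨0, le_rfl, by positivity, fun h => absurd h (lt_irrefl _),
          fun _ _ _ h => absurd h (lt_irrefl _), fun _ => hex⟩
      · push Not at hex
        have e0 : ∀ᶠ a in 𝓝[>] (0 : ℝ), 0 < a := eventually_mem_nhdsWithin
        have e1 : ∀ᶠ a in 𝓝[>] (0 : ℝ), a ≤ δ * (1 / 2) ^ j :=
          mem_nhdsWithin_of_mem_nhds (Iic_mem_nhds (by positivity))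
        have e2 : ∀ᶠ a in 𝓝[>] (0 : ℝ), closedBall (c j) a ⊆ Ω := by
          obtain ⟨ρ, hρ, hρ'⟩ := nhds_basis_closedBall.mem_iff.1 (hO.mem_nhds (hcΩ j))
          have : ∀ᶠ a in 𝓝[>] (0 : ℝ), a ≤ ρ := mem_nhdsWithin_of_mem_nhds (Iic_mem_nhds hρ)
          filter_upwards [this] with a ha
          exact (closedBall_subset_closedBall ha).trans hρ'
        have e3 : ∀ᶠ a in 𝓝[>] (0 : ℝ), ∀ i : Fin j, 0 < f i i.2 →
            f i i.2 + a ≤ dist (c i) (c j) := by
          rw [eventually_all]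
          intro i
          by_cases hi : 0 < f i i.2
          · have h1 := hex i i.2 hi
            have : ∀ᶠ a in 𝓝[>] (0 : ℝ), a ≤ dist (c i) (c j) - f i i.2 :=
              mem_nhdsWithin_of_mem_nhds (Iic_mem_nhds (by linarith))
            filter_upwards [this] with a ha _
            linarith
          · exact Eventually.of_forall fun a h => absurd h hi
        obtain ⟨a, h0, h1, h2, h3⟩ := (e0.and (e1.and (e2.and e3))).exists
        exact ⟨a, h0.le, h1, fun _ => h2, fun i h hf _ => h3 ⟨i, h⟩ hf,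
          fun h => absurd h h0.ne'⟩)
  refine ⟨c, r, fun i => (hr i).1, fun i => (hr i).2.1, fun i => (hr i).2.2.1, ?_, ?_⟩
  · intro i j hij hi hj
    rcases lt_or_gt_of_ne hij with h | h
    · exact (hr j).2.2.2.1 i h hi hj
    · rw [dist_comm, add_comm]
      exact (hr i).2.2.2.1 j h hj hi
  · intro x hx hx'
    rw [Metric.mem_closure_iff]
    intro ε hε
    obtain ⟨N, hN⟩ : ∃ N : ℕ, δ * (1 / 2) ^ N < ε / 2 := by
      obtain ⟨N, hN⟩ := exists_pow_lt_of_lt_one (show 0 < ε / 2 / δ by positivity)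
        (show (1 / 2 : ℝ) < 1 by norm_num)
      refine ⟨N, ?_⟩
      rw [lt_div_iff₀ hδ] at hN
      linarith
    set F : Set (E m) := ⋃ i ∈ {i | i < N ∧ 0 < r i}, closedBall (c i) (r i) with hF
    have hFc : IsClosed F := by
      apply Set.Finite.isClosed_biUnion
      · exact (finite_lt_nat N).subset fun i hi => hi.1
      · intro i _; exact isClosed_closedBall
    have hxF : x ∉ F := by
      intro h
      rw [hF, mem_iUnion₂] at h
      obtain ⟨i, hi, h⟩ := h
      exact hx' i hi.2 h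
    obtain ⟨ρ, hρ, hρ'⟩ := Metric.mem_nhds_iff.1 (hFc.isOpen_compl.mem_nhds hxF)
    obtain ⟨_, ⟨j, rfl⟩, hj⟩ := Metric.mem_closure_iff.1 (hcd hx) (min ρ (ε / 2))
      (lt_min hρ (by positivity))
    obtain ⟨i, hi, hij⟩ : ∃ i, 0 < r i ∧ dist (c i) (c j) ≤ r i := by
      rcases (hr j).1.eq_or_lt with h | h
      · obtain ⟨i, _, h1, h2⟩ := (hr j).2.2.2.2 h.symm
        exact ⟨i, h1, h2⟩
      · exact ⟨j, h, by rw [dist_self]; exact h.le⟩
    have hiN : N ≤ i := by
      by_contra hcon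
      push Not at hcon
      have h1 : c j ∈ F := by
        rw [hF, mem_iUnion₂]
        exact ⟨i, ⟨hcon, hi⟩, by rw [mem_closedBall, dist_comm]; exact hij⟩
      have h2 : c j ∈ ball x ρ := by
        rw [mem_ball, dist_comm]; exact lt_of_lt_of_le hj (min_le_left _ _)
      exact hρ' h2 h1
    refine ⟨c i, mem_image_of_mem _ hi, ?_⟩
    have h1 : r i ≤ δ * (1 / 2) ^ N := by
      refine ((hr i).2.1).trans ?_
      apply mul_le_mul_of_nonneg_left _ hδ.le
      exact pow_le_pow_of_le_one (by norm_num) (by norm_num) hiN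
    have h2 : dist x (c j) < ε / 2 := lt_of_lt_of_le hj (min_le_right _ _)
    have h3 := dist_triangle x (c j) (c i)
    rw [dist_comm (c j) (c i)] at h3
    linarith

theorem IsPacking.summable {m : ℕ} {Ω : Set (E m)} {c : ℕ → E m} {r : ℕ → ℝ} {δ : ℝ}
    (h : IsPacking Ω c r δ) : Summable r := by
  have : Summable (fun i : ℕ => δ * (1 / 2 : ℝ) ^ i) := summable_geometric_two.mul_left δ
  exact Summable.of_nonneg_of_le h.nonneg h.le this

/-- For small `δ` the balls do not fill `Ω`. -/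
theorem exists_packing_volume {m : ℕ} (hm : m ≠ 0) {Ω : Set (E m)} (hO : IsOpen Ω)
    (hne : Ω.Nonempty) :
    ∃ (δ : ℝ) (c : ℕ → E m) (r : ℕ → ℝ), 0 < δ ∧ δ ≤ 1 ∧ IsPacking Ω c r δ ∧
      0 < volume (Ω \ ⋃ i ∈ {i | 0 < r i}, closedBall (c i) (r i)) := by
  have hvol : volume Ω ≠ 0 := (hO.measure_pos volume hne).ne'
  have hκ : volume (ball (0 : E m) 1) ≠ ∞ := measure_ball_lt_top.ne
  obtain ⟨t, ht, htv⟩ := ENNReal.exists_nnreal_pos_mul_lt (a := 2 * volume (ball (0 : E m) 1))
    (ENNReal.mul_ne_top (by norm_num) hκ) hvol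
  set δ : ℝ := min t 1 with hδ
  have hδ0 : 0 < δ := lt_min (by exact_mod_cast ht) one_pos
  obtain ⟨c, r, h⟩ := exists_packing hO hne hδ0
  refine ⟨δ, c, r, hδ0, min_le_right _ _, h, ?_⟩
  have h1 : volume (⋃ i ∈ {i | 0 < r i}, closedBall (c i) (r i)) < volume Ω := by
    have h2 : ∀ i, volume (closedBall (c i) (r i)) ≤
        ENNReal.ofReal (δ * (1 / 2) ^ i) * volume (ball (0 : E m) 1) := by
      intro i
      rw [Measure.addHaar_closedBall _ _ (h.nonneg i), finrank_euclideanSpace, Fintype.card_fin]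
      gcongr
      have h3 : r i ≤ 1 := by
        refine (h.le i).trans ?_
        calc δ * (1 / 2) ^ i ≤ 1 * 1 := by
              gcongr
              · exact min_le_right _ _
              · exact pow_le_one₀ (by norm_num) (by norm_num)
          _ = 1 := one_mul 1
      calc r i ^ m ≤ r i ^ 1 := pow_le_pow_of_le_one (h.nonneg i) h3 (Nat.one_le_iff_ne_zero.2 hm)
        _ = r i := pow_one _
        _ ≤ _ := h.le i
    calc volume (⋃ i ∈ {i | 0 < r i}, closedBall (c i) (r i))
        ≤ volume (⋃ i, closedBall (c i) (r i)) := by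
          apply measure_mono
          exact iUnion₂_subset_iUnion _ _
      _ ≤ ∑' i, volume (closedBall (c i) (r i)) := measure_iUnion_le _
      _ ≤ ∑' i : ℕ, ENNReal.ofReal (δ * (1 / 2) ^ i) * volume (ball (0 : E m) 1) :=
          ENNReal.tsum_le_tsum h2
      _ = ENNReal.ofReal (δ * 2) * volume (ball (0 : E m) 1) := by
          rw [ENNReal.tsum_mul_right, ← ENNReal.ofReal_tsum_of_nonneg, tsum_mul_left,
            tsum_geometric_two]
          · intro i; positivity
          · exact summable_geometric_two.mul_left δ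
      _ ≤ t * (2 * volume (ball (0 : E m) 1)) := by
          rw [ENNReal.ofReal_mul hδ0.le, mul_assoc, ENNReal.ofReal_ofNat]
          gcongr
          rw [ENNReal.ofReal_le_iff_le_toReal ENNReal.coe_ne_top, ENNReal.coe_toReal]
          exact min_le_left _ _
      _ < volume Ω := htv
  rw [tsub_pos_iff_lt.symm] at h1
  exact lt_of_lt_of_le h1 (le_measure_sdiff)

end Pool.Agent.Helper36.Light
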