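import Pool.Agent.Helper36.LightOneD

/-!
The functions of the two variables `s = x₁`, `t = |x'|²`.
-/

namespace Pool.Agent.Helper36.Light

open Set

/-- powers of the cut-off `(1 - t/100)₊` -/
noncomputable def kn (j : ℕ) (t : ℝ) : ℝ := pp j (1 - t / 100)

theorem hasDerivAt_kn (j : ℕ) (t : ℝ) :
    HasDerivAt (kn (j + 2)) (-(((j + 2 : ℕ) : ℝ) / 100 * kn (j + 1) t)) t := by
  have h1 : HasDerivAt (fun t : ℝ => 1 - t / 100) (-(1 / 100)) t := by
    have := ((hasDerivAt_id t).div_const 100).const_sub 1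
    simpa using this
  have h := (hasDerivAt_pp j (1 - t / 100)).comp t h1
  refine h.congr_deriv ?_
  unfold kn; ring

theorem contDiff_kn (j : ℕ) : ContDiff ℝ 1 (kn (j + 2)) := by
  unfold kn
  exact (contDiff_pp j).comp (by fun_prop)

theorem continuous_kn (j : ℕ) : Continuous (kn j) := by
  unfold kn
  exact (continuous_pp j).comp (by fun_prop)

theorem kn_nonneg (j : ℕ) (t : ℝ) : 0 ≤ kn j t := pp_nonneg

theorem kn_eq_pow (j : ℕ) (t : ℝ) : kn j t = (kn 1 t) ^ j := by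
  unfold kn pp; rw [pow_one]

theorem kn_zero_of {j : ℕ} {t : ℝ} (h : 100 ≤ t) : kn (j + 1) t = 0 := by
  unfold kn; exact pp_of_nonpos (by linarith)

theorem kn_one_le {t : ℝ} (h : 0 ≤ t) : kn 1 t ≤ 1 := by
  unfold kn pp
  rw [pow_one]
  exact max_le (by linarith) (by norm_num)

/-- `|DU|²` -/
noncomputable def Nf (s t : ℝ) : ℝ := g1 s ^ 2 * kn 6 t + 9 / 2500 * t * g0 s ^ 2 * kn 4 t

/-- `(1 - |DU|² + ε)^{-1/2}` -/
noncomputable def w (ε s t : ℝ) : ℝ := (√(1 - Nf s t + ε))⁻¹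

theorem q_lower {s t : ℝ} (ht : 0 ≤ t) :
    (1 - kn 1 t) + kn 1 t ^ 6 * (1 - g1 s ^ 2) ≤ 1 - Nf s t := by
  unfold Nf
  rw [kn_eq_pow 6, kn_eq_pow 4]
  set k := kn 1 t with hk
  have k0 : 0 ≤ k := kn_nonneg 1 t
  have k1 : k ≤ 1 := kn_one_le ht
  have hg : g0 s ^ 2 ≤ 25 / 9 := by
    have := abs_g0_le s
    rw [← sq_abs]
    nlinarith [abs_nonneg (g0 s)]
  have hkt : t * k ^ 4 ≤ 100 * (1 - k) * k ^ 4 := by
    rcases le_or_gt 100 t with h | h
    · have : k = 0 := kn_zero_of (j := 0) h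
      rw [this]; norm_num
    · have : k = 1 - t / 100 := by
        rw [hk]; unfold kn pp; rw [pow_one]; exact max_eq_left (by linarith)
      rw [this]
      apply le_of_eq
      ring
  have h1 : 9 / 2500 * t * g0 s ^ 2 * k ^ 4 ≤ (1 - k) * k ^ 4 := by
    have h2 : 0 ≤ t * k ^ 4 := by positivity
    calc 9 / 2500 * t * g0 s ^ 2 * k ^ 4 = 9 / 2500 * (g0 s ^ 2) * (t * k ^ 4) := by ring
      _ ≤ 9 / 2500 * (25 / 9) * (t * k ^ 4) := by gcongr
      _ ≤ 9 / 2500 * (25 / 9) * (100 * (1 - k) * k ^ 4) := by gcongr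
      _ = (1 - k) * k ^ 4 := by ring
  have h3 : k ^ 4 * (k ^ 2 + 1 - k) ≤ k := by
    have h4 : k ^ 2 + 1 - k ≤ 1 := by nlinarith
    have h5 : k ^ 4 ≤ k := by
      calc k ^ 4 ≤ k ^ 1 := pow_le_pow_of_le_one k0 k1 (by norm_num)
        _ = k := pow_one k
    calc k ^ 4 * (k ^ 2 + 1 - k) ≤ k ^ 4 * 1 := by
          apply mul_le_mul_of_nonneg_left h4 (by positivity)
      _ ≤ k := by rw [mul_one]; exact h5
  nlinarith

theorem q_ge {s t : ℝ} (ht : 0 ≤ t) : 1 - kn 1 t ≤ 1 - Nf s t := by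
  have h1 := q_lower (s := s) ht
  have h2 : 0 ≤ 1 - g1 s ^ 2 := by
    have := abs_g1_le s
    rw [← sq_abs]; nlinarith [abs_nonneg (g1 s)]
  have h3 : 0 ≤ kn 1 t ^ 6 * (1 - g1 s ^ 2) := mul_nonneg (pow_nonneg (kn_nonneg _ _) _) h2
  linarith

theorem Nf_nonneg {s t : ℝ} (ht : 0 ≤ t) : 0 ≤ Nf s t := by
  unfold Nf
  have := kn_nonneg 6 t
  have := kn_nonneg 4 t
  positivity

theorem Nf_le_one {s t : ℝ} (ht : 0 ≤ t) : Nf s t ≤ 1 := by
  have h1 := q_ge (s := s) ht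
  have h2 := kn_one_le ht
  linarith

theorem q_pos {s t : ℝ} (ht : 0 < t) : 0 < 1 - Nf s t := by
  have h1 := q_ge (s := s) ht.le
  have h2 : kn 1 t < 1 := by
    unfold kn pp
    rw [pow_one]
    exact max_lt (by linarith) (by norm_num)
  linarith

/-- `∂_s N` -/
noncomputable def Ns (s t : ℝ) : ℝ :=
  2 * g1 s * g2 s * kn 6 t + 9 / 1250 * t * g0 s * g1 s * kn 4 t
/-- `∂_t N` -/
noncomputable def Nt (s t : ℝ) : ℝ :=
  -(6 / 100) * g1 s ^ 2 * kn 5 t + 9 / 2500 * g0 s ^ 2 * kn 4 t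
    - 9 / 62500 * t * g0 s ^ 2 * kn 3 t

theorem hasDerivAt_Ns (s t : ℝ) : HasDerivAt (fun s => Nf s t) (Ns s t) s := by
  have h1 := ((hasDerivAt_g1 s).pow 2).mul_const (kn 6 t)
  have h2 := (((hasDerivAt_g0 s).pow 2).const_mul (9 / 2500 * t)).mul_const (kn 4 t)
  have h := h1.add h2
  refine h.congr_deriv ?_
  unfold Ns; push_cast; ring

theorem hasDerivAt_Nt (s t : ℝ) : HasDerivAt (fun t => Nf s t) (Nt s t) t := by
  have h1 := (hasDerivAt_kn 4 t).const_mul (g1 s ^ 2)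
  have h2 := (((hasDerivAt_id t).const_mul (9 / 2500)).mul_const (g0 s ^ 2)).mul
    (hasDerivAt_kn 2 t)
  have h := h1.add h2
  refine h.congr_deriv ?_
  unfold Nt; push_cast; simp only [id]; ring

theorem hasDerivAt_w_comp {ε : ℝ} {f : ℝ → ℝ} {f' a : ℝ} (hf : HasDerivAt f f' a)
    (hpos : 0 < 1 - f a + ε) :
    HasDerivAt (fun y => (√(1 - f y + ε))⁻¹) (1 / 2 * ((√(1 - f a + ε))⁻¹) ^ 3 * f') a := by
  have h1 : HasDerivAt (fun y => 1 - f y + ε) (-f') a := by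
    have := (hf.const_sub 1).add_const ε
    simpa using this
  have h2 := h1.sqrt hpos.ne'
  have h3 : √(1 - f a + ε) ≠ 0 := (Real.sqrt_pos.2 hpos).ne'
  have h4 := h2.inv h3
  refine h4.congr_deriv ?_
  field_simp

/-- first component factor -/
noncomputable def XA (ε s t : ℝ) : ℝ := g1 s * kn 3 t * w ε s t
/-- other components factor -/
noncomputable def XB (ε s t : ℝ) : ℝ := -(3 / 50) * g0 s * kn 2 t * w ε s t

/-- `∂_s XA` -/
noncomputable def XAs (ε s t : ℝ) : ℝ :=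
  g2 s * kn 3 t * w ε s t + 1 / 2 * g1 s * kn 3 t * w ε s t ^ 3 * Ns s t
/-- `∂_t XB` -/
noncomputable def XBt (ε s t : ℝ) : ℝ :=
  -(3 / 50) * g0 s * (-(1 / 50) * kn 1 t * w ε s t + 1 / 2 * kn 2 t * w ε s t ^ 3 * Nt s t)

theorem hasDerivAt_XA {ε s t : ℝ} (h : 0 < 1 - Nf s t + ε) :
    HasDerivAt (fun s => XA ε s t) (XAs ε s t) s := by
  have h1 := hasDerivAt_w_comp (ε := ε) (hasDerivAt_Ns s t) h
  have h2 := ((hasDerivAt_g1 s).mul_const (kn 3 t)).mul h1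
  refine h2.congr_deriv ?_
  unfold XAs w; ring

theorem hasDerivAt_XB {ε s t : ℝ} (h : 0 < 1 - Nf s t + ε) :
    HasDerivAt (fun t => XB ε s t) (XBt ε s t) t := by
  have h1 := hasDerivAt_w_comp (ε := ε) (hasDerivAt_Nt s t) h
  have h2 := ((hasDerivAt_kn 0 t).const_mul (-(3 / 50) * g0 s)).mul h1
  refine h2.congr_deriv ?_
  unfold XBt w; push_cast; ring

/-- the divergence -/
noncomputable def Dv (n : ℕ) (ε s t : ℝ) : ℝ :=
  XAs ε s t + (n + 2 : ℝ) * XB ε s t + 2 * t * XBt ε s t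

theorem w_nonneg (ε s t : ℝ) : 0 ≤ w ε s t := inv_nonneg.2 (Real.sqrt_nonneg _)

theorem w_le {ε s t : ℝ} (hε : 0 ≤ ε) (ht : 0 < t) : w ε s t ≤ w 0 s t := by
  unfold w
  have h := q_pos (s := s) ht
  apply inv_anti₀
  · apply Real.sqrt_pos.2; linarith
  · apply Real.sqrt_le_sqrt; linarith

theorem w0_sq {s t : ℝ} (ht : 0 < t) : w 0 s t ^ 2 * (1 - Nf s t) = 1 := by
  unfold w
  have h := q_pos (s := s) ht
  rw [add_zero, inv_pow, Real.sq_sqrt h.le, inv_mul_cancel₀ h.ne']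

/-- The basic estimate of the divergence. -/
theorem Dv_le (n : ℕ) {ε s t : ℝ} (hε : 0 ≤ ε) (ht : 0 < t) (ht' : t ≤ 100) :
    |Dv n ε s t| ≤ (n + 8 : ℝ) * w 0 s t + |g2 s| * kn 1 t ^ 9 * w 0 s t ^ 3 := by
  have hw0 : 0 ≤ w ε s t := w_nonneg _ _ _
  have hw1 : w ε s t ≤ w 0 s t := w_le hε ht
  have hW0 : 0 ≤ w 0 s t := w_nonneg _ _ _
  have hk0 : 0 ≤ kn 1 t := kn_nonneg _ _
  have hk1 : kn 1 t ≤ 1 := kn_one_le ht.le
  have hG0 := abs_g0_le s
  have hG1 := abs_g1_le s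
  have hG2 := abs_g2_le s
  have hk : ∀ j, kn 1 t ^ j ≤ 1 := fun j => pow_le_one₀ hk0 hk1
  have hkn : ∀ j, 0 ≤ kn 1 t ^ j := fun j => pow_nonneg hk0 j
  have htW : t * w 0 s t ^ 3 ≤ 100 * w 0 s t := by
    have h1 := w0_sq (s := s) ht
    have h2 := q_ge (s := s) ht.le
    have h3 : 1 - kn 1 t = t / 100 := by
      unfold kn pp; rw [pow_one, max_eq_left (by linarith)]; ring
    rw [h3] at h2
    have h4 : t * w 0 s t ^ 2 ≤ 100 := by
      calc t * w 0 s t ^ 2 = 100 * (w 0 s t ^ 2 * (t / 100)) := by ring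
        _ ≤ 100 * (w 0 s t ^ 2 * (1 - Nf s t)) := by gcongr
        _ = 100 := by rw [h1, mul_one]
    calc t * w 0 s t ^ 3 = (t * w 0 s t ^ 2) * w 0 s t := by ring
      _ ≤ 100 * w 0 s t := by gcongr
  set W := w 0 s t with hWdef
  set v := w ε s t with hvdef
  set k := kn 1 t with hkdef
  have hv3 : v ^ 3 ≤ W ^ 3 := pow_le_pow_left₀ hw0 hw1 3
  have hv30 : 0 ≤ v ^ 3 := by positivity
  have e1 : |g2 s * kn 3 t * v| ≤ 2 * W := by
    rw [kn_eq_pow 3, abs_mul, abs_mul, abs_of_nonneg hw0, abs_of_nonneg (hkn 3)]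
    calc |g2 s| * k ^ 3 * v ≤ 2 * 1 * W := by
          gcongr
          exact hk 3
      _ = 2 * W := by ring
  have e2 : |1 / 2 * g1 s * kn 3 t * v ^ 3 * Ns s t| ≤
      |g2 s| * k ^ 9 * W ^ 3 + 3 / 500 * (t * W ^ 3) := by
    have h1 : 1 / 2 * g1 s * kn 3 t * v ^ 3 * Ns s t =
        g1 s ^ 2 * g2 s * k ^ 9 * v ^ 3 + 9 / 2500 * (t * g0 s * g1 s ^ 2 * k ^ 7 * v ^ 3) := by
      unfold Ns
      rw [kn_eq_pow 3, kn_eq_pow 6, kn_eq_pow 4]
      ring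
    rw [h1]
    have hg1sq : g1 s ^ 2 ≤ 1 := by
      rw [← sq_abs]; nlinarith [abs_nonneg (g1 s)]
    refine (abs_add_le _ _).trans (add_le_add ?_ ?_)
    · rw [abs_mul, abs_mul, abs_mul, abs_of_nonneg (sq_nonneg (g1 s)), abs_of_nonneg (hkn 9),
        abs_of_nonneg hv30]
      calc g1 s ^ 2 * |g2 s| * k ^ 9 * v ^ 3 ≤ 1 * |g2 s| * k ^ 9 * W ^ 3 := by gcongr
        _ = |g2 s| * k ^ 9 * W ^ 3 := by ring
    · rw [abs_mul, abs_mul, abs_mul, abs_mul, abs_mul, abs_of_pos ht,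
        abs_of_nonneg (sq_nonneg (g1 s)), abs_of_nonneg (hkn 7), abs_of_nonneg hv30,
        abs_of_pos (show (0 : ℝ) < 9 / 2500 by norm_num)]
      calc 9 / 2500 * (t * |g0 s| * g1 s ^ 2 * k ^ 7 * v ^ 3)
          ≤ 9 / 2500 * (t * (5 / 3) * 1 * 1 * W ^ 3) := by
            gcongr
            exact hk 7
        _ = 3 / 500 * (t * W ^ 3) := by ring
  have e3 : |(n + 2 : ℝ) * XB ε s t| ≤ (n + 2 : ℝ) * W := by
    unfold XB
    rw [abs_mul, abs_of_nonneg (show (0 : ℝ) ≤ n + 2 by positivity)]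
    apply mul_le_mul_of_nonneg_left _ (by positivity)
    rw [← hvdef, kn_eq_pow 2, abs_mul, abs_mul, abs_mul, abs_of_nonneg hw0, abs_of_nonneg (hkn 2)]
    have : |(-(3 / 50) : ℝ)| = 3 / 50 := by rw [abs_neg, abs_of_pos (by norm_num)]
    rw [this]
    calc 3 / 50 * |g0 s| * k ^ 2 * v ≤ 3 / 50 * (5 / 3) * 1 * W := by
          gcongr
          exact hk 2
      _ ≤ W := by linarith
  have e4 : |2 * t * XBt ε s t| ≤ W + 11 / 500 * (t * W ^ 3) := by
    have hNt : |Nt s t| ≤ 11 / 100 := by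
      unfold Nt
      rw [kn_eq_pow 5, kn_eq_pow 4, kn_eq_pow 3]
      have hg1sq : g1 s ^ 2 ≤ 1 := by
        rw [← sq_abs]; nlinarith [abs_nonneg (g1 s)]
      have hg0sq : g0 s ^ 2 ≤ 25 / 9 := by
        rw [← sq_abs]; nlinarith [abs_nonneg (g0 s)]
      have a1 : g1 s ^ 2 * k ^ 5 ≤ 1 := by
        calc g1 s ^ 2 * k ^ 5 ≤ 1 * 1 := by
              gcongr
              exact hk 5
          _ = 1 := by norm_num
      have a2 : g0 s ^ 2 * k ^ 4 ≤ 25 / 9 := by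
        calc g0 s ^ 2 * k ^ 4 ≤ 25 / 9 * 1 := by
              gcongr
              exact hk 4
          _ = 25 / 9 := by norm_num
      have a3 : t * g0 s ^ 2 * k ^ 3 ≤ 2500 / 9 := by
        calc t * g0 s ^ 2 * k ^ 3 ≤ 100 * (25 / 9) * 1 := by
              gcongr
              exact hk 3
          _ = 2500 / 9 := by norm_num
      have b1 : 0 ≤ g1 s ^ 2 * k ^ 5 := by positivity
      have b2 : 0 ≤ g0 s ^ 2 * k ^ 4 := by positivity
      have b3 : 0 ≤ t * g0 s ^ 2 * k ^ 3 := by positivity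
      rw [abs_le]; constructor <;> nlinarith
    have hNt0 := abs_nonneg (Nt s t)
    have h1 : 2 * t * XBt ε s t = 3 / 1250 * (t * g0 s * k * v)
        + -(3 / 50) * (t * g0 s * k ^ 2 * v ^ 3 * Nt s t) := by
      unfold XBt
      rw [kn_eq_pow 2, ← hvdef, ← hkdef]
      ring
    rw [h1]
    refine (abs_add_le _ _).trans (add_le_add ?_ ?_)
    · rw [abs_mul, abs_mul, abs_mul, abs_mul, abs_of_pos ht, abs_of_nonneg hk0,
        abs_of_nonneg hw0, abs_of_pos (show (0 : ℝ) < 3 / 1250 by norm_num)]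
      calc 3 / 1250 * (t * |g0 s| * k * v) ≤ 3 / 1250 * (100 * (5 / 3) * 1 * W) := by gcongr
        _ ≤ W := by linarith
    · rw [abs_mul, abs_mul, abs_mul, abs_mul, abs_mul, abs_of_pos ht, abs_of_nonneg (hkn 2),
        abs_of_nonneg hv30]
      have : |(-(3 / 50) : ℝ)| = 3 / 50 := by rw [abs_neg, abs_of_pos (by norm_num)]
      rw [this]
      calc 3 / 50 * (t * |g0 s| * k ^ 2 * v ^ 3 * |Nt s t|)
          ≤ 3 / 50 * (t * (5 / 3) * 1 * W ^ 3 * (11 / 100)) := by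
            gcongr
            exact hk 2
        _ ≤ 11 / 500 * (t * W ^ 3) := by
            have : 0 ≤ t * W ^ 3 := by positivity
            linarith
  unfold Dv
  have e5 : |XAs ε s t| ≤ 2 * W + (|g2 s| * k ^ 9 * W ^ 3 + 3 / 500 * (t * W ^ 3)) := by
    unfold XAs
    exact (abs_add_le _ _).trans (add_le_add e1 e2)
  have e6 := abs_add_le (XAs ε s t + (n + 2 : ℝ) * XB ε s t) (2 * t * XBt ε s t)
  have e7 := abs_add_le (XAs ε s t) ((n + 2 : ℝ) * XB ε s t)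
  have e8 : 3 / 500 * (t * W ^ 3) + 11 / 500 * (t * W ^ 3) ≤ 14 / 5 * W := by linarith
  nlinarith

end Pool.Agent.Helper36.Light
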