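import Pool.Agent.Helper36.LightV
import Pool.Agent.Helper36.LightPack

/-!
The sum of the rescaled bumps.
-/

namespace Pool.Agent.Helper36.Light

open MeasureTheory Set Filter Topology Metric
open scoped NNReal ENNReal

/-- indices of genuine balls -/
abbrev Idx (r : ℕ → ℝ) : Type := {i : ℕ // 0 < r i}

section general

variable {m : ℕ} {Ω : Set (E m)} {c : ℕ → E m} {r : ℕ → ℝ} {δ : ℝ}

theorem IsPacking.disj (h : IsPacking Ω c r δ) {i j : Idx r} (hij : i ≠ j) :
    Disjoint (ball (c i) (r i)) (ball (c j) (r j)) := by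
  apply ball_disjoint_ball
  exact h.sep i j (fun e => hij (Subtype.ext e)) i.2 j.2

theorem IsPacking.not_mem (h : IsPacking Ω c r δ) {i j : Idx r} (hij : j ≠ i) {x : E m}
    (hx : x ∈ ball (c i) (r i)) : x ∉ ball (c j) (r j) := fun hx' =>
  disjoint_left.1 (h.disj hij) hx' hx

theorem IsPacking.tsum_mem {F : Type*} [NormedAddCommGroup F] (h : IsPacking Ω c r δ)
    {f : Idx r → E m → F} (hf : ∀ (i : Idx r) x, x ∉ ball (c i) (r i) → f i x = 0) {i : Idx r} {x : E m}
    (hx : x ∈ ball (c i) (r i)) : ∑' j, f j x = f i x :=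
  tsum_eq_single i fun j hj => hf j x (h.not_mem hj hx)

theorem tsum_not_mem {F : Type*} [NormedAddCommGroup F]
    {f : Idx r → E m → F} (hf : ∀ (i : Idx r) x, x ∉ ball (c i) (r i) → f i x = 0) {x : E m}
    (hx : ∀ i : Idx r, x ∉ ball (c i) (r i)) : ∑' j, f j x = 0 := by
  have : ∀ j, f j x = 0 := fun j => hf j x (hx j)
  simp [this]

theorem IsPacking.summable_at {F : Type*} [NormedAddCommGroup F] (h : IsPacking Ω c r δ)
    {f : Idx r → E m → F} (hf : ∀ (i : Idx r) x, x ∉ ball (c i) (r i) → f i x = 0) (x : E m) :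
    Summable fun i => f i x := by
  by_cases hx : ∃ i : Idx r, x ∈ ball (c i) (r i)
  · obtain ⟨i, hi⟩ := hx
    exact (hasSum_single i fun j hj => hf j x (h.not_mem hj hi)).summable
  · push Not at hx
    have : (fun j => f j x) = fun _ => 0 := funext fun j => hf j x (hx j)
    rw [this]; exact summable_zero

theorem IsPacking.integrable_tsum {F : Type*} [NormedAddCommGroup F]
    (h : IsPacking Ω c r δ)
    {f : Idx r → E m → F} (hf : ∀ (i : Idx r) x, x ∉ ball (c i) (r i) → f i x = 0)
    (hi : ∀ i, Integrable (f i)) (hs : Summable fun i => ∫ x, ‖f i x‖) :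
    Integrable fun x => ∑' i, f i x := by
  constructor
  · apply aestronglyMeasurable_of_tendsto_ae (u := (atTop : Filter (Finset (Idx r))))
      (f := fun s x => ∑ i ∈ s, f i x)
    · intro s
      exact Finset.aestronglyMeasurable_fun_sum s fun i _ => (hi i).1
    · filter_upwards with x
      exact (h.summable_at hf x).hasSum
  · unfold HasFiniteIntegral
    have h1 : ∀ x, ‖∑' i, f i x‖ₑ ≤ ∑' i, ‖f i x‖ₑ := by
      intro x
      by_cases hx : ∃ i : Idx r, x ∈ ball (c i) (r i)
      · obtain ⟨i, hi⟩ := hx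
        rw [h.tsum_mem hf hi]
        exact ENNReal.le_tsum (f := fun j => ‖f j x‖ₑ) i
      · push Not at hx
        rw [tsum_not_mem hf hx, enorm_zero]
        exact bot_le
    refine lt_of_le_of_lt (lintegral_mono h1) ?_
    rw [lintegral_tsum fun i => (hi i).1.enorm]
    have h2 : ∀ i, ∫⁻ x, ‖f i x‖ₑ = ENNReal.ofReal (∫ x, ‖f i x‖) := fun i =>
      (ofReal_integral_norm_eq_lintegral_enorm (hi i)).symm
    simp_rw [h2]
    rw [← ENNReal.ofReal_tsum_of_nonneg (fun i => integral_nonneg fun x => norm_nonneg _) hs]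
    exact ENNReal.ofReal_lt_top

end general

section bumps

variable {n : ℕ} {Ω : Set (E (n + 3))} {c : ℕ → E (n + 3)} {r : ℕ → ℝ} {δ : ℝ}

/-- the summands -/
noncomputable def uI (c : ℕ → E (n + 3)) (r : ℕ → ℝ) (i : Idx r) (x : E (n + 3)) : ℝ :=
  ub (c i) (r i / 13) x
/-- the summands of the field -/
noncomputable def XI (c : ℕ → E (n + 3)) (r : ℕ → ℝ) (i : Idx r) (x : E (n + 3)) : E (n + 3) :=
  Xb (c i) (r i / 13) x
/-- the summands of the source -/
noncomputable def GI (c : ℕ → E (n + 3)) (r : ℕ → ℝ) (i : Idx r) (x : E (n + 3)) : ℝ :=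
  Gb (c i) (r i / 13) x

theorem not_ball {i : Idx r} {x : E (n + 3)} (hx : x ∉ ball (c i) (r i)) :
    13 * (r i / 13) ≤ ‖x - c i‖ := by
  rw [mem_ball, dist_eq_norm, not_lt] at hx
  linarith

theorem uI_out (i : Idx r) (x : E (n + 3)) (hx : x ∉ ball (c i) (r i)) : uI c r i x = 0 :=
  ub_eq_zero (by have := i.2; positivity) (not_ball hx)
theorem XI_out (i : Idx r) (x : E (n + 3)) (hx : x ∉ ball (c i) (r i)) : XI c r i x = 0 :=
  Xb_eq_zero (by have := i.2; positivity) (not_ball hx)
theorem GI_out (i : Idx r) (x : E (n + 3)) (hx : x ∉ ball (c i) (r i)) : GI c r i x = 0 :=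
  Gb_eq_zero (by have := i.2; positivity) (not_ball hx)

/-- the function -/
noncomputable def uS (c : ℕ → E (n + 3)) (r : ℕ → ℝ) (x : E (n + 3)) : ℝ := ∑' i, uI c r i x
/-- the field -/
noncomputable def XS (c : ℕ → E (n + 3)) (r : ℕ → ℝ) (x : E (n + 3)) : E (n + 3) :=
  ∑' i, XI c r i x
/-- the source -/
noncomputable def GS (c : ℕ → E (n + 3)) (r : ℕ → ℝ) (x : E (n + 3)) : ℝ := ∑' i, GI c r i x

theorem integrable_XI (i : Idx r) : Integrable (XI c r i) :=
  integrable_Xb _ (by have := i.2; positivity)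

theorem integrable_GI (i : Idx r) : Integrable (GI c r i) :=
  integrable_Gb _ (by have := i.2; positivity)

theorem IsPacking.le_one (h : IsPacking Ω c r δ) (hδ : δ ≤ 1) (i : ℕ) : r i ≤ 1 := by
  refine (h.le i).trans ?_
  calc δ * (1 / 2) ^ i ≤ 1 * 1 := by
        gcongr
        exact pow_le_one₀ (by norm_num) (by norm_num)
    _ = 1 := one_mul 1

theorem IsPacking.summable_pow (h : IsPacking Ω c r δ) (hδ : δ ≤ 1) {k : ℕ} (hk : k ≠ 0) :
    Summable fun i : Idx r => (r i / 13) ^ k := by
  have h1 : Summable fun i : Idx r => r i := h.summable.comp_injective Subtype.val_injective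
  apply Summable.of_nonneg_of_le _ _ h1
  · intro i; have := i.2; positivity
  · intro i
    have h2 := i.2
    have h3 := h.le_one hδ i
    calc (r i / 13) ^ k ≤ (r i) ^ k := by
          gcongr
          linarith
      _ ≤ (r i) ^ 1 := pow_le_pow_of_le_one h2.le h3 (Nat.one_le_iff_ne_zero.2 hk)
      _ = r i := pow_one _

theorem IsPacking.summable_XI (h : IsPacking Ω c r δ) (hδ : δ ≤ 1) :
    Summable fun i : Idx r => ∫ x, ‖XI c r i x‖ := by
  have h1 : ∀ i : Idx r, ∫ x, ‖XI c r i x‖ = (r i / 13) ^ (n + 3) *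
      ∫ x : E (n + 3), ‖XX 0 x‖ := fun i =>
    integral_norm_Xb _ (by have := i.2; positivity)
  simp_rw [h1]
  exact (h.summable_pow hδ (by omega)).mul_right _

theorem IsPacking.summable_GI (h : IsPacking Ω c r δ) (hδ : δ ≤ 1) :
    Summable fun i : Idx r => ∫ x, ‖GI c r i x‖ := by
  have h1 : ∀ i : Idx r, ∫ x, ‖GI c r i x‖ = (r i / 13) ^ (n + 2) *
      ∫ x : E (n + 3), ‖GG x‖ := fun i =>
    integral_norm_Gb _ (by have := i.2; positivity)
  simp_rw [h1]
  exact (h.summable_pow hδ (by omega)).mul_right _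

theorem IsPacking.integrable_XS (h : IsPacking Ω c r δ) (hδ : δ ≤ 1) : Integrable (XS c r) :=
  h.integrable_tsum XI_out integrable_XI (h.summable_XI hδ)

theorem IsPacking.integrable_GS (h : IsPacking Ω c r δ) (hδ : δ ≤ 1) : Integrable (GS c r) :=
  h.integrable_tsum GI_out integrable_GI (h.summable_GI hδ)

theorem ball_sub (h : IsPacking Ω c r δ) (i : Idx r) : ball (c i) (r i) ⊆ Ω :=
  ball_subset_closedBall.trans (h.sub i i.2)

theorem GS_out {x : E (n + 3)} (hx : ∀ i : Idx r, x ∉ ball (c i) (r i)) : GS c r x = 0 :=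
  tsum_not_mem GI_out hx
theorem XS_out {x : E (n + 3)} (hx : ∀ i : Idx r, x ∉ ball (c i) (r i)) : XS c r x = 0 :=
  tsum_not_mem XI_out hx
theorem uS_out {x : E (n + 3)} (hx : ∀ i : Idx r, x ∉ ball (c i) (r i)) : uS c r x = 0 :=
  tsum_not_mem uI_out hx

/-- weak identity for the sum -/
theorem IsPacking.weak (h : IsPacking Ω c r δ) (hδ : δ ≤ 1) {η : E (n + 3) → ℝ} {L M : ℝ}
    (hη : LocallyLipschitzOn Ω η) (hL : ∀ᵐ x, x ∈ Ω → ‖fderiv ℝ η x‖ ≤ L)
    (hM : ∀ x ∈ Ω, |η x| ≤ M) :
    ∫ x, fderiv ℝ η x (XS c r x) = ∫ x, GS c r x * η x := by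
  have hkey : ∀ i : Idx r, ∫ x, fderiv ℝ η x (XI c r i x) = ∫ x, GI c r i x * η x ∧
      AEStronglyMeasurable (fun x => GI c r i x * η x) volume := by
    intro i
    obtain ⟨K, hK⟩ := LocallyLipschitzOn.exists_lipschitzOnWith_of_compact
      (isCompact_closedBall (c i) (r i)) (hη.mono (h.sub i i.2))
    obtain ⟨g, hg, hgη⟩ := hK.extend_real
    have h1 := weak_resc (c i) (l := r i / 13) (by have := i.2; positivity) hg
    have h2 : ∀ x, fderiv ℝ η x (XI c r i x) = fderiv ℝ g x (Xb (c i) (r i / 13) x) := by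
      intro x
      by_cases hx : x ∈ ball (c i) (r i)
      · have : η =ᶠ[𝓝 x] g := by
          filter_upwards [isOpen_ball.mem_nhds hx] with y hy
          exact hgη (ball_subset_closedBall hy)
        rw [this.fderiv_eq]; rfl
      · have h3 := XI_out i x hx
        have h4 : Xb (c i) (r i / 13) x = 0 := h3
        rw [h3, h4, map_zero, map_zero]
    have h3 : ∀ x, GI c r i x * η x = Gb (c i) (r i / 13) x * g x := by
      intro x
      by_cases hx : x ∈ ball (c i) (r i)
      · rw [hgη (ball_subset_closedBall hx)]; rfl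
      · have h3 := GI_out i x hx
        have h4 : Gb (c i) (r i / 13) x = 0 := h3
        rw [h3, h4, zero_mul, zero_mul]
    simp_rw [h2, h3]
    exact ⟨h1, (integrable_Gb _ (by have := i.2; positivity)).1.mul
      hg.continuous.aestronglyMeasurable⟩
  have hL' : ∀ i : Idx r, ∀ᵐ x, ‖fderiv ℝ η x (XI c r i x)‖ ≤ L * ‖XI c r i x‖ := by
    intro i
    filter_upwards [hL] with x hx
    by_cases hxb : x ∈ ball (c i) (r i)
    · refine (ContinuousLinearMap.le_opNorm _ _).trans ?_
      exact mul_le_mul_of_nonneg_right (hx (ball_sub h i hxb)) (norm_nonneg _)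
    · rw [XI_out i x hxb, map_zero, norm_zero, norm_zero, mul_zero]
  have hM' : ∀ i : Idx r, ∀ x, ‖GI c r i x * η x‖ ≤ ‖GI c r i x‖ * M := by
    intro i x
    rw [norm_mul]
    by_cases hxb : x ∈ ball (c i) (r i)
    · exact mul_le_mul_of_nonneg_left (hM x (ball_sub h i hxb)) (norm_nonneg _)
    · rw [GI_out i x hxb, norm_zero, zero_mul, zero_mul]
  have i1 : ∀ i : Idx r, Integrable fun x => fderiv ℝ η x (XI c r i x) := fun i =>
    Integrable.mono' ((integrable_XI i).norm.const_mul L)
      (measurable_fderiv_apply η (integrable_XI i).1) (hL' i)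
  have i2 : ∀ i : Idx r, Integrable fun x => GI c r i x * η x := fun i =>
    Integrable.mono' ((integrable_GI i).norm.mul_const M) (hkey i).2
      (Eventually.of_forall (hM' i))
  have s1 : Summable fun i : Idx r => ∫ x, ‖fderiv ℝ η x (XI c r i x)‖ := by
    apply Summable.of_nonneg_of_le (fun i => integral_nonneg fun x => norm_nonneg _) _
      ((h.summable_XI hδ).mul_left L)
    intro i
    rw [← integral_const_mul]
    exact integral_mono_ae (i1 i).norm ((integrable_XI i).norm.const_mul L) (hL' i)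
  have s2 : Summable fun i : Idx r => ∫ x, ‖GI c r i x * η x‖ := by
    apply Summable.of_nonneg_of_le (fun i => integral_nonneg fun x => norm_nonneg _) _
      ((h.summable_GI hδ).mul_right M)
    intro i
    rw [← integral_mul_const]
    exact integral_mono (i2 i).norm ((integrable_GI i).norm.mul_const M) (hM' i)
  have e1 : ∀ x, fderiv ℝ η x (XS c r x) = ∑' i : Idx r, fderiv ℝ η x (XI c r i x) := fun x =>
    (fderiv ℝ η x).map_tsum (h.summable_at XI_out x)
  have e2 : ∀ x, GS c r x * η x = ∑' i : Idx r, GI c r i x * η x := fun x =>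
    (tsum_mul_right).symm
  simp_rw [e1, e2]
  rw [← integral_tsum_of_summable_integral_norm i1 s1,
    ← integral_tsum_of_summable_integral_norm i2 s2]
  exact tsum_congr fun i => (hkey i).1

/-- the sum is 1-Lipschitz -/
theorem IsPacking.lipschitz (h : IsPacking Ω c r δ) : LipschitzWith 1 (uS c r) := by
  have hI : ∀ (i : Idx r) x y, |uI c r i x - uI c r i y| ≤ dist x y := by
    intro i x y
    have := (lipschitz_ub (c i) (l := r i / 13) (by have := i.2; positivity)).dist_le_mul x y
    rw [NNReal.coe_one, one_mul, Real.dist_eq] at this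
    exact this
  have hone : ∀ (i : Idx r) x y, x ∈ ball (c i) (r i) →
      (∀ j : Idx r, j ≠ i → y ∉ ball (c j) (r j)) → |uS c r x - uS c r y| ≤ dist x y := by
    intro i x y hx hy
    have h1 : uS c r x = uI c r i x := h.tsum_mem uI_out hx
    have h2 : uS c r y = uI c r i y := by
      by_cases hyi : y ∈ ball (c i) (r i)
      · exact h.tsum_mem uI_out hyi
      · rw [uI_out i y hyi]
        apply uS_out
        intro j
        rcases eq_or_ne j i with rfl | hj
        · exact hyi
        · exact hy j hj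
    rw [h1, h2]; exact hI i x y
  apply LipschitzWith.of_dist_le_mul
  intro x y
  rw [NNReal.coe_one, one_mul, Real.dist_eq]
  by_cases hx : ∃ i : Idx r, x ∈ ball (c i) (r i)
  · obtain ⟨i, hi⟩ := hx
    by_cases hy : ∃ j : Idx r, j ≠ i ∧ y ∈ ball (c j) (r j)
    · obtain ⟨j, hji, hj⟩ := hy
      -- a point of the segment outside both balls
      have hz : ∃ z ∈ segment ℝ x y, z ∉ ball (c i) (r i) ∧ z ∉ ball (c j) (r j) := by
        by_contra hcon
        push Not at hcon
        have hconn := (convex_segment x y).isPreconnected (ball (c i) (r i)) (ball (c j) (r j))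
          isOpen_ball isOpen_ball (fun z hz => by
            by_cases hzi : z ∈ ball (c i) (r i)
            · exact Or.inl hzi
            · exact Or.inr (hcon z hz hzi)) ⟨x, left_mem_segment ℝ x y, hi⟩
            ⟨y, right_mem_segment ℝ x y, hj⟩
        obtain ⟨z, _, hz1, hz2⟩ := hconn
        exact h.not_mem hji hz1 hz2
      obtain ⟨z, hz, hzi, hzj⟩ := hz
      have e1 : uS c r x = uI c r i x := h.tsum_mem uI_out hi
      have e2 : uS c r y = uI c r j y := h.tsum_mem uI_out hj
      have a1 := hI i x z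
      have a2 := hI j z y
      rw [uI_out i z hzi, sub_zero] at a1
      rw [uI_out j z hzj, zero_sub, abs_neg] at a2
      rw [e1, e2, ← dist_add_dist_of_mem_segment hz]
      exact (abs_sub _ _).trans (add_le_add a1 a2)
    · push Not at hy
      exact hone i x y hi fun j hj => hy j hj
  · push Not at hx
    by_cases hy : ∃ j : Idx r, y ∈ ball (c j) (r j)
    · obtain ⟨j, hj⟩ := hy
      rw [abs_sub_comm, dist_comm]
      exact hone j y x hj fun k _ => hx k
    · push Not at hy
      rw [uS_out hx, uS_out hy]; simp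

theorem IsPacking.eventuallyEq (h : IsPacking Ω c r δ) {i : Idx r} {x : E (n + 3)}
    (hx : x ∈ ball (c i) (r i)) : uS c r =ᶠ[𝓝 x] ub (c i) (r i / 13) := by
  filter_upwards [isOpen_ball.mem_nhds hx] with y hy
  exact h.tsum_mem uI_out hy

theorem IsPacking.hasFDerivAt (h : IsPacking Ω c r δ) {i : Idx r} {x : E (n + 3)}
    (hx : x ∈ ball (c i) (r i)) :
    HasFDerivAt (uS c r) (innerSL ℝ (DU ((r i / 13)⁻¹ • (x - c i)))) x :=
  (hasFDerivAt_ub (c i) (l := r i / 13) (by have := i.2; positivity) x).congr_of_eventuallyEq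
    (h.eventuallyEq hx)

/-- the gradient vanishes almost everywhere off the balls -/
theorem IsPacking.fderiv_off (h : IsPacking Ω c r δ) :
    ∀ᵐ x, (∀ i : Idx r, x ∉ ball (c i) (r i)) → fderiv ℝ (uS c r) x = 0 := by
  set S : Set (E (n + 3)) := {x | ∀ i : Idx r, x ∉ ball (c i) (r i)} with hS
  have hSm : MeasurableSet S := by
    have : S = ⋂ i : Idx r, (ball (c i) (r i))ᶜ := by ext x; simp [hS]
    rw [this]
    exact MeasurableSet.iInter fun i => measurableSet_ball.compl
  set e : E (n + 3) := bv 0 with he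
  set T : Set (E (n + 3)) := {x | DifferentiableAt ℝ (uS c r) x} with hT
  have hTm : MeasurableSet T := measurableSet_of_differentiableAt ℝ (uS c r)
  have hA : ApproximatesLinearOn (fun x => uS c r x • e) (0 : E (n + 3) →L[ℝ] E (n + 3))
      (S ∩ T) 0 := by
    intro x hx y hy
    beta_reduce
    rw [uS_out hx.1, uS_out hy.1]
    simp
  have h1 := hA.norm_fderiv_sub_le volume (hSm.inter hTm)
    (fun x => (fderiv ℝ (uS c r) x).smulRight e) (fun x hx =>
      ((hx.2 : DifferentiableAt ℝ (uS c r) x).hasFDerivAt.smul_const e).hasFDerivWithinAt)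
  rw [ae_restrict_iff' (hSm.inter hTm)] at h1
  filter_upwards [h1, h.lipschitz.ae_differentiableAt] with x hx hd hxS
  have h2 := hx ⟨hxS, hd⟩
  rw [sub_zero] at h2
  have h3 : ‖(fderiv ℝ (uS c r) x).smulRight e‖ = 0 := by
    have : ‖(fderiv ℝ (uS c r) x).smulRight e‖₊ = 0 := le_antisymm h2 bot_le
    rw [← coe_nnnorm, this, NNReal.coe_zero]
  rw [ContinuousLinearMap.norm_smulRight_apply] at h3
  have h4 : ‖e‖ = 1 := by simp [he]
  rw [h4, mul_one] at h3
  exact norm_eq_zero.1 h3

end bumps

end Pool.Agent.Helper36.Light
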