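import Pool.Agent.Helper36.LightBd

/-!
The model bump `U`, its field and the weak identity.
-/

namespace Pool.Agent.Helper36.Light

open MeasureTheory Set Filter Topology
open scoped NNReal

variable {n : ℕ}

/-- components of the field -/
noncomputable def FX (ε : ℝ) (i : Fin (n + 3)) (x : E (n + 3)) : ℝ :=
  Fin.cases (XA ε (x 0) (tt x)) (fun j => XB ε (x 0) (tt x) * x j.succ) i

/-- their derivatives -/
noncomputable def FX' (ε : ℝ) (i : Fin (n + 3)) (x : E (n + 3)) : ℝ :=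
  Fin.cases (XAs ε (x 0) (tt x))
    (fun j => XBt ε (x 0) (tt x) * (2 * x j.succ) * x j.succ + XB ε (x 0) (tt x)) i

theorem FX_zero (ε : ℝ) (x : E (n + 3)) : FX ε 0 x = XA ε (x 0) (tt x) := rfl
theorem FX_succ (ε : ℝ) (j : Fin (n + 2)) (x : E (n + 3)) :
    FX ε j.succ x = XB ε (x 0) (tt x) * x j.succ := rfl
theorem FX'_zero (ε : ℝ) (x : E (n + 3)) : FX' ε 0 x = XAs ε (x 0) (tt x) := rfl
theorem FX'_succ (ε : ℝ) (j : Fin (n + 2)) (x : E (n + 3)) :
    FX' ε j.succ x =
      XBt ε (x 0) (tt x) * (2 * x j.succ) * x j.succ + XB ε (x 0) (tt x) := rfl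

theorem sum_FX' (ε : ℝ) (x : E (n + 3)) : ∑ i, FX' ε i x = Dv n ε (x 0) (tt x) := by
  rw [Fin.sum_univ_succ, FX'_zero]
  simp_rw [FX'_succ]
  rw [Finset.sum_add_distrib, Finset.sum_const, Finset.card_univ, Fintype.card_fin]
  have : ∑ j : Fin (n + 2), XBt ε (x 0) (tt x) * (2 * x j.succ) * x j.succ
      = 2 * tt x * XBt ε (x 0) (tt x) := by
    conv_rhs => unfold tt
    rw [Finset.mul_sum, Finset.sum_mul]
    apply Finset.sum_congr rfl
    intro j _
    unfold tt
    ring
  rw [this]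
  unfold Dv
  rw [nsmul_eq_mul]
  push_cast
  ring

theorem contDiff_coord (i : Fin (n + 3)) : ContDiff ℝ 1 (fun x : E (n + 3) => x i) := by
  fun_prop

theorem contDiff_tt : ContDiff ℝ 1 (tt (n := n)) := by
  unfold tt
  fun_prop

theorem contDiff_Nf : ContDiff ℝ 1 (fun x : E (n + 3) => Nf (x 0) (tt x)) := by
  unfold Nf
  have h0 := contDiff_g0.comp (contDiff_coord (n := n) 0)
  have h1 := contDiff_g1.comp (contDiff_coord (n := n) 0)
  have h2 := (contDiff_kn 4).comp (contDiff_tt (n := n))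
  have h3 := (contDiff_kn 2).comp (contDiff_tt (n := n))
  have h4 := contDiff_tt (n := n)
  exact ((h1.pow 2).mul h2).add (((contDiff_const.mul h4).mul (h0.pow 2)).mul h3)

theorem contDiff_w {ε : ℝ} (hε : 0 < ε) :
    ContDiff ℝ 1 (fun x : E (n + 3) => w ε (x 0) (tt x)) := by
  unfold w
  have hpos : ∀ x : E (n + 3), 0 < 1 - Nf (x 0) (tt x) + ε := by
    intro x
    have := Nf_le_one (s := x 0) (tt_nonneg x)
    linarith
  have h1 : ContDiff ℝ 1 (fun x : E (n + 3) => 1 - Nf (x 0) (tt x) + ε) :=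
    (contDiff_const.sub contDiff_Nf).add contDiff_const
  have h2 : ContDiff ℝ 1 (fun x : E (n + 3) => √(1 - Nf (x 0) (tt x) + ε)) :=
    h1.sqrt (fun x => (hpos x).ne')
  exact h2.inv (fun x => (Real.sqrt_pos.2 (hpos x)).ne')

theorem contDiff_FX {ε : ℝ} (hε : 0 < ε) (i : Fin (n + 3)) : ContDiff ℝ 1 (FX ε i) := by
  have h0 := contDiff_g0.comp (contDiff_coord (n := n) 0)
  have h1 := contDiff_g1.comp (contDiff_coord (n := n) 0)
  have h2 := (contDiff_kn 1).comp (contDiff_tt (n := n))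
  have h3 := (contDiff_kn 0).comp (contDiff_tt (n := n))
  have h4 := contDiff_w (n := n) hε
  refine Fin.cases ?_ (fun j => ?_) i
  · exact (h1.mul h2).mul h4
  · exact (((contDiff_const (c := (-(3 / 50) : ℝ))).mul h0).mul h3).mul h4 |>.mul
      (contDiff_coord j.succ)

theorem FX_support {ε : ℝ} (i : Fin (n + 3)) {x : E (n + 3)} (h : 7 ≤ |x 0| ∨ 100 ≤ tt x) :
    FX ε i x = 0 := by
  have ha : XA ε (x 0) (tt x) = 0 ∧ XB ε (x 0) (tt x) = 0 := by
    unfold XA XB
    rcases h with h | h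
    · obtain ⟨a, b, c⟩ := g_support h
      rw [a, b]; simp
    · rw [kn_zero_of (j := 2) h, kn_zero_of (j := 1) h]; simp
  refine Fin.cases ?_ (fun j => ?_) i
  · rw [FX_zero, ha.1]
  · rw [FX_succ, ha.2, zero_mul]

theorem norm_sq_eq' (x : E (n + 3)) : ‖x‖ ^ 2 = (x 0) ^ 2 + tt x := by
  rw [EuclideanSpace.norm_sq_eq, Fin.sum_univ_succ]
  unfold tt
  simp only [Real.norm_eq_abs, sq_abs]

theorem out_of_ball {x : E (n + 3)} (h : 13 ≤ ‖x‖) : 7 ≤ |x 0| ∨ 100 ≤ tt x := by
  by_contra hcon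
  push Not at hcon
  have h1 := norm_sq_eq' x
  have h2 : (x 0) ^ 2 < 7 ^ 2 := by
    rw [← sq_abs]; gcongr; exact hcon.1
  have h3 : (13 : ℝ) ^ 2 ≤ ‖x‖ ^ 2 := by gcongr
  linarith [hcon.2]

theorem hasCompactSupport_FX {ε : ℝ} (i : Fin (n + 3)) : HasCompactSupport (FX ε i) := by
  apply HasCompactSupport.intro (isCompact_closedBall (0 : E (n + 3)) 13)
  intro x hx
  apply FX_support
  apply out_of_ball
  rw [mem_closedBall_zero_iff] at hx
  linarith

theorem add_smul_bv_self (x : E (n + 3)) (i : Fin (n + 3)) (r : ℝ) :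
    (x + r • bv i) i = x i + r := by
  simp

theorem add_smul_bv_ne (x : E (n + 3)) {i j : Fin (n + 3)} (h : j ≠ i) (r : ℝ) :
    (x + r • bv i) j = x j := by
  simp [h]

theorem hasLineDeriv_FX {ε : ℝ} (hε : 0 < ε) (i : Fin (n + 3)) (x : E (n + 3)) :
    HasLineDerivAt ℝ (FX ε i) (FX' ε i x) x (bv i) := by
  have hpos : 0 < 1 - Nf (x 0) (tt x) + ε := by
    have := Nf_le_one (s := x 0) (tt_nonneg x)
    linarith
  unfold HasLineDerivAt
  refine Fin.cases ?_ (fun j => ?_) i
  · have h1 : (fun r : ℝ => FX ε 0 (x + r • bv 0)) = fun r => XA ε (x 0 + r) (tt x) := by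
      funext r
      rw [FX_zero, add_smul_bv_self]
      congr 1
      unfold tt
      apply Finset.sum_congr rfl
      intro k _
      rw [add_smul_bv_ne x (Fin.succ_ne_zero k)]
    rw [h1, FX'_zero]
    have h2 := hasDerivAt_XA (s := x 0 + 0) (t := tt x) (ε := ε) (by rw [add_zero]; exact hpos)
    have h3 := h2.comp_const_add (x 0) 0
    simpa using h3
  · have htt : ∀ r : ℝ, tt (x + r • bv j.succ) = tt x + (2 * x j.succ * r + r ^ 2) := by
      intro r
      unfold tt
      rw [← Finset.sum_erase_add _ _ (Finset.mem_univ j),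
        ← Finset.sum_erase_add (a := j) Finset.univ (fun j : Fin (n + 2) => (x j.succ) ^ 2)
          (Finset.mem_univ j)]
      rw [add_smul_bv_self]
      have : ∑ k ∈ Finset.univ.erase j, ((x + r • bv j.succ) k.succ) ^ 2
          = ∑ k ∈ Finset.univ.erase j, (x k.succ) ^ 2 := by
        apply Finset.sum_congr rfl
        intro k hk
        rw [add_smul_bv_ne x]
        intro hc
        exact (Finset.mem_erase.1 hk).1 (Fin.succ_injective _ hc)
      rw [this]
      ring
    have h1 : (fun r : ℝ => FX ε j.succ (x + r • bv j.succ)) =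
        fun r => XB ε (x 0) (tt x + (2 * x j.succ * r + r ^ 2)) * (x j.succ + r) := by
      funext r
      rw [FX_succ, add_smul_bv_self, add_smul_bv_ne x (Fin.succ_ne_zero j).symm, htt]
    rw [h1, FX'_succ]
    have h2 : HasDerivAt (fun r : ℝ => tt x + (2 * x j.succ * r + r ^ 2)) (2 * x j.succ) 0 := by
      have a1 := (hasDerivAt_id (0 : ℝ)).const_mul (2 * x j.succ)
      have a2 := (hasDerivAt_id (0 : ℝ)).pow 2
      have a3 := (a1.add a2).const_add (tt x)
      refine (a3.congr_deriv ?_)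
      simp
    have h3 : HasDerivAt (fun t => XB ε (x 0) t) (XBt ε (x 0) (tt x))
        (tt x + (2 * x j.succ * 0 + 0 ^ 2)) := by
      have := hasDerivAt_XB (s := x 0) (t := tt x) (ε := ε) hpos
      simpa using this
    have h4 := h3.comp (0 : ℝ) h2
    have h5 : HasDerivAt (fun r : ℝ => x j.succ + r) 1 0 := (hasDerivAt_id (0 : ℝ)).const_add _
    have h6 := h4.mul h5
    refine h6.congr_deriv ?_
    simp

/-- the regularised vector field -/
noncomputable def XX (ε : ℝ) (x : E (n + 3)) : E (n + 3) := ∑ i, FX ε i x • bv i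

theorem weak_eps {ε : ℝ} (hε : 0 < ε) {K : ℝ≥0} {η : E (n + 3) → ℝ} (hη : LipschitzWith K η) :
    ∫ x, fderiv ℝ η x (XX ε x) = - ∫ x, Dv n ε (x 0) (tt x) * η x := by
  have h := ibp (FX ε) (FX' ε) (contDiff_FX hε) hasCompactSupport_FX (hasLineDeriv_FX hε) hη
  simp_rw [sum_FX'] at h
  exact h

end Pool.Agent.Helper36.Light
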