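import Pool.Agent.Helper36.LightW

/-!
The model bump `U` and its rescalings.
-/

namespace Pool.Agent.Helper36.Light

open MeasureTheory Set Filter Topology
open scoped NNReal

variable {n : ℕ}

/-- the model bump -/
noncomputable def UU (x : E (n + 3)) : ℝ := g0 (x 0) * kn 3 (tt x)

/-- components of the gradient -/
noncomputable def dU (i : Fin (n + 3)) (x : E (n + 3)) : ℝ :=
  Fin.cases (g1 (x 0) * kn 3 (tt x)) (fun j => -(3 / 50) * g0 (x 0) * kn 2 (tt x) * x j.succ) i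

theorem dU_zero (x : E (n + 3)) : dU 0 x = g1 (x 0) * kn 3 (tt x) := rfl
theorem dU_succ (j : Fin (n + 2)) (x : E (n + 3)) :
    dU j.succ x = -(3 / 50) * g0 (x 0) * kn 2 (tt x) * x j.succ := rfl

/-- the gradient -/
noncomputable def DU (x : E (n + 3)) : E (n + 3) := WithLp.toLp 2 (fun i => dU i x)

theorem DU_apply (x : E (n + 3)) (i : Fin (n + 3)) : DU x i = dU i x := rfl

theorem norm_DU_sq (x : E (n + 3)) : ‖DU x‖ ^ 2 = Nf (x 0) (tt x) := by
  rw [EuclideanSpace.norm_sq_eq, Fin.sum_univ_succ]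
  simp only [Real.norm_eq_abs, sq_abs, DU_apply, dU_zero, dU_succ]
  have : ∑ j : Fin (n + 2), (-(3 / 50) * g0 (x 0) * kn 2 (tt x) * x j.succ) ^ 2
      = (9 / 2500 * g0 (x 0) ^ 2 * kn 2 (tt x) ^ 2) * tt x := by
    conv_rhs => rw [tt]
    rw [Finset.mul_sum]
    apply Finset.sum_congr rfl
    intro j _
    simp only [tt]
    ring
  rw [this]
  unfold Nf
  rw [kn_eq_pow 6, kn_eq_pow 4, kn_eq_pow 3, kn_eq_pow 2]
  ring

theorem norm_DU_le (x : E (n + 3)) : ‖DU x‖ ≤ 1 := by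
  have h := norm_DU_sq x
  have h2 := Nf_le_one (s := x 0) (tt_nonneg x)
  rw [← h] at h2
  nlinarith [norm_nonneg (DU x)]

theorem XX_eq (ε : ℝ) (x : E (n + 3)) : XX ε x = w ε (x 0) (tt x) • DU x := by
  ext i
  have h1 : (XX ε x) i = FX ε i x := by
    unfold XX
    simp [Finset.sum_apply, Pi.single_apply]
  rw [h1]
  refine Fin.cases ?_ (fun j => ?_) i
  · rw [FX_zero, PiLp.smul_apply, DU_apply, dU_zero, smul_eq_mul]; unfold XA; ring
  · rw [FX_succ, PiLp.smul_apply, DU_apply, dU_succ, smul_eq_mul]; unfold XB; ring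

theorem XX_zero_eq (x : E (n + 3)) : XX 0 x = (√(1 - ‖DU x‖ ^ 2))⁻¹ • DU x := by
  rw [XX_eq, norm_DU_sq]; unfold w; rw [add_zero]

theorem hasFDerivAt_tt (x : E (n + 3)) :
    HasFDerivAt tt (∑ j : Fin (n + 2), (2 * x j.succ) • (EuclideanSpace.proj j.succ : E (n + 3) →L[ℝ] ℝ)) x := by
  unfold tt
  apply HasFDerivAt.fun_sum
  intro j _
  have h := ((EuclideanSpace.proj j.succ : E (n + 3) →L[ℝ] ℝ).hasFDerivAt (x := x)).pow 2
  refine h.congr_fderiv ?_
  ext v
  simp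

theorem hasFDerivAt_UU (x : E (n + 3)) : HasFDerivAt UU (innerSL ℝ (DU x)) x := by
  have h0 := (hasDerivAt_g0 (x 0)).comp_hasFDerivAt x
    ((EuclideanSpace.proj 0 : E (n + 3) →L[ℝ] ℝ).hasFDerivAt (x := x))
  have h1 := (hasDerivAt_kn 1 (tt x)).comp_hasFDerivAt x (hasFDerivAt_tt x)
  have h := h0.mul h1
  refine h.congr_fderiv ?_
  ext v
  have hR : (innerSL ℝ (DU x)) v = g1 (x 0) * kn 3 (tt x) * v 0
      + ∑ j : Fin (n + 2), -(3 / 50) * g0 (x 0) * kn 2 (tt x) * x j.succ * v j.succ := by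
    simp only [innerSL_apply_apply, PiLp.inner_apply, DU_apply]
    rw [Fin.sum_univ_succ]
    simp only [dU_zero, dU_succ, RCLike.inner_apply, conj_trivial]
    rw [mul_comm]
    congr 1
    apply Finset.sum_congr rfl
    intro j _
    rw [mul_comm]
  have hS : (∑ j : Fin (n + 2), (2 * x j.succ) •
      (EuclideanSpace.proj j.succ : E (n + 3) →L[ℝ] ℝ)) v = ∑ j : Fin (n + 2),
        2 * x j.succ * v j.succ := by
    simp
  rw [hR]
  simp only [add_apply, smul_apply, hS]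
  have hT : ∑ j : Fin (n + 2), -(3 / 50) * g0 (x 0) * kn 2 (tt x) * x j.succ * v j.succ
      = -(3 / 100) * g0 (x 0) * kn 2 (tt x) * ∑ j : Fin (n + 2), 2 * x j.succ * v j.succ := by
    rw [Finset.mul_sum]
    apply Finset.sum_congr rfl
    intro j _
    ring
  rw [hT]
  simp
  ring

theorem UU_eq_zero {x : E (n + 3)} (h : 13 ≤ ‖x‖) : UU x = 0 := by
  unfold UU
  rcases out_of_ball h with h | h
  · rw [(g_support h).1, zero_mul]
  · rw [kn_zero_of (j := 2) h, mul_zero]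

theorem UU_axis {s : ℝ} (hs : |s| ≤ 1) : UU (s • bv (0 : Fin (n + 3))) = s := by
  unfold UU
  have h1 : (s • bv (0 : Fin (n + 3))) 0 = s := by simp
  have h2 : tt (s • bv (0 : Fin (n + 3))) = 0 := by
    unfold tt
    apply Finset.sum_eq_zero
    intro j _
    simp [Fin.succ_ne_zero]
  rw [h1, h2, (g_of_le_one hs).1]
  unfold kn pp
  norm_num

/-- rescaled bump -/
noncomputable def ub (c : E (n + 3)) (l : ℝ) (x : E (n + 3)) : ℝ := l * UU (l⁻¹ • (x - c))
/-- rescaled field -/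
noncomputable def Xb (c : E (n + 3)) (l : ℝ) (x : E (n + 3)) : E (n + 3) := XX 0 (l⁻¹ • (x - c))
/-- rescaled source -/
noncomputable def Gb (c : E (n + 3)) (l : ℝ) (x : E (n + 3)) : ℝ := l⁻¹ * GG (l⁻¹ • (x - c))

theorem hasFDerivAt_ub (c : E (n + 3)) {l : ℝ} (hl : 0 < l) (x : E (n + 3)) :
    HasFDerivAt (ub c l) (innerSL ℝ (DU (l⁻¹ • (x - c)))) x := by
  have h1 : HasFDerivAt (fun x : E (n + 3) => l⁻¹ • (x - c))
      (l⁻¹ • ContinuousLinearMap.id ℝ (E (n + 3))) x :=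
    ((hasFDerivAt_id x).sub_const c).const_smul l⁻¹
  have h2 := ((hasFDerivAt_UU (l⁻¹ • (x - c))).comp x h1).const_mul l
  refine h2.congr_fderiv ?_
  ext v
  simp [hl.ne']

theorem lipschitz_ub (c : E (n + 3)) {l : ℝ} (hl : 0 < l) : LipschitzWith 1 (ub c l) := by
  apply lipschitzWith_of_nnnorm_fderiv_le (𝕜 := ℝ)
  · intro x; exact (hasFDerivAt_ub c hl x).differentiableAt
  · intro x
    rw [(hasFDerivAt_ub c hl x).fderiv]
    have : ‖innerSL ℝ (DU (l⁻¹ • (x - c)))‖ ≤ 1 := by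
      rw [innerSL_apply_norm]; exact norm_DU_le _
    exact_mod_cast this

theorem norm_resc {c x : E (n + 3)} {l : ℝ} (hl : 0 < l) (h : 13 * l ≤ ‖x - c‖) :
    13 ≤ ‖l⁻¹ • (x - c)‖ := by
  rw [norm_smul, norm_inv, Real.norm_of_nonneg hl.le, ← div_eq_inv_mul, le_div_iff₀ hl]
  exact h

theorem ub_eq_zero {c x : E (n + 3)} {l : ℝ} (hl : 0 < l) (h : 13 * l ≤ ‖x - c‖) :
    ub c l x = 0 := by
  unfold ub; rw [UU_eq_zero (norm_resc hl h), mul_zero]

theorem Xb_eq_zero {c x : E (n + 3)} {l : ℝ} (hl : 0 < l) (h : 13 * l ≤ ‖x - c‖) :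
    Xb c l x = 0 := XX_eq_zero (norm_resc hl h)

theorem Gb_eq_zero {c x : E (n + 3)} {l : ℝ} (hl : 0 < l) (h : 13 * l ≤ ‖x - c‖) :
    Gb c l x = 0 := by
  unfold Gb; rw [GG_eq_zero (norm_resc hl h), mul_zero]

theorem ub_axis {c : E (n + 3)} {l s : ℝ} (hl : 0 < l) (h : |s| ≤ l) :
    ub c l (c + s • bv 0) = s := by
  unfold ub
  rw [add_sub_cancel_left, smul_smul, UU_axis, ← mul_assoc, mul_inv_cancel₀ hl.ne', one_mul]
  rw [abs_mul, abs_inv, abs_of_pos hl, ← div_eq_inv_mul, div_le_one hl]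
  exact h

theorem integrable_resc {F : Type*} [NormedAddCommGroup F] {f : E (n + 3) → F}
    (hf : Integrable f) (c : E (n + 3)) {l : ℝ} (hl : 0 < l) :
    Integrable (fun x => f (l⁻¹ • (x - c))) := by
  have h1 : Integrable (fun x => f (l⁻¹ • x)) :=
    (integrable_comp_smul_iff volume f (inv_ne_zero hl.ne')).2 hf
  exact h1.comp_sub_right c

theorem integral_resc {F : Type*} [NormedAddCommGroup F] [NormedSpace ℝ F] (f : E (n + 3) → F)
    (c : E (n + 3)) {l : ℝ} (hl : 0 < l) :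
    ∫ x, f (l⁻¹ • (x - c)) = l ^ (n + 3) • ∫ x, f x := by
  rw [integral_sub_right_eq_self (fun x => f (l⁻¹ • x)) c, Measure.integral_comp_smul]
  congr 1
  rw [finrank_euclideanSpace, Fintype.card_fin, inv_pow, inv_inv, abs_of_pos (by positivity)]

theorem integrable_Xb (c : E (n + 3)) {l : ℝ} (hl : 0 < l) : Integrable (Xb c l) :=
  integrable_resc integrable_XX c hl

theorem integrable_Gb (c : E (n + 3)) {l : ℝ} (hl : 0 < l) : Integrable (Gb c l) :=
  (integrable_resc integrable_GG c hl).const_mul _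

theorem integral_norm_Xb (c : E (n + 3)) {l : ℝ} (hl : 0 < l) :
    ∫ x, ‖Xb c l x‖ = l ^ (n + 3) * ∫ x : E (n + 3), ‖XX 0 x‖ := by
  have := integral_resc (fun x : E (n + 3) => ‖XX 0 x‖) c hl
  rw [smul_eq_mul] at this
  exact this

theorem integral_norm_Gb (c : E (n + 3)) {l : ℝ} (hl : 0 < l) :
    ∫ x, ‖Gb c l x‖ = l ^ (n + 2) * ∫ x : E (n + 3), ‖GG x‖ := by
  have h := integral_resc (fun x : E (n + 3) => ‖GG x‖) c hl
  rw [smul_eq_mul] at h
  unfold Gb
  simp_rw [norm_mul]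
  rw [integral_const_mul, h, norm_inv, Real.norm_of_nonneg hl.le, ← mul_assoc]
  congr 1
  field_simp
  ring

/-- The weak identity for the rescaled bumps. -/
theorem weak_resc (c : E (n + 3)) {l : ℝ} (hl : 0 < l) {K : ℝ≥0} {η : E (n + 3) → ℝ}
    (hη : LipschitzWith K η) :
    ∫ x, fderiv ℝ η x (Xb c l x) = ∫ x, Gb c l x * η x := by
  set ζ : E (n + 3) → ℝ := fun y => η (c + l • y) with hζ
  have hζL : LipschitzWith (K * l.toNNReal) ζ := by
    apply LipschitzWith.of_dist_le_mul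
    intro x y
    have h1 := hη.dist_le_mul (c + l • x) (c + l • y)
    rw [dist_add_left, dist_smul₀, Real.norm_of_nonneg hl.le] at h1
    rw [NNReal.coe_mul, Real.coe_toNNReal l hl.le, mul_assoc]
    exact h1
  have hcancel : ∀ x : E (n + 3), c + l • (l⁻¹ • (x - c)) = x := by
    intro x
    rw [smul_smul, mul_inv_cancel₀ hl.ne', one_smul]; abel
  have h1 : ∀ᵐ x, fderiv ℝ η x (Xb c l x) =
      l⁻¹ * (fun y => fderiv ℝ ζ y (XX 0 y)) (l⁻¹ • (x - c)) := by
    filter_upwards [hη.ae_differentiableAt] with x hx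
    have h2 : HasFDerivAt ζ ((fderiv ℝ η x).comp (l • ContinuousLinearMap.id ℝ (E (n + 3))))
        (l⁻¹ • (x - c)) := by
      have h3 : HasFDerivAt (fun y : E (n + 3) => c + l • y)
          (l • ContinuousLinearMap.id ℝ (E (n + 3))) (l⁻¹ • (x - c)) :=
        ((hasFDerivAt_id _).const_smul l).const_add c
      have h4 : HasFDerivAt η (fderiv ℝ η x) (c + l • (l⁻¹ • (x - c))) := by
        rw [hcancel]; exact hx.hasFDerivAt
      exact HasFDerivAt.comp (g := η) (f := fun y => c + l • y) (l⁻¹ • (x - c)) h4 h3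
    beta_reduce
    rw [h2.fderiv]
    unfold Xb
    simp [hl.ne']
  rw [integral_congr_ae h1, integral_const_mul,
    integral_resc (fun y => fderiv ℝ ζ y (XX 0 y)) c hl, weak_model hζL,
    ← integral_resc (fun y => GG y * ζ y) c hl, ← integral_const_mul]
  apply integral_congr_ae
  filter_upwards with x
  simp only [hζ]
  rw [hcancel]
  unfold Gb
  ring

end Pool.Agent.Helper36.Light
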