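import Pool.Agent.Helper36.LightU

/-!
The limit: weak identity for the singular field.
-/

namespace Pool.Agent.Helper36.Light

open MeasureTheory Set Filter Topology
open scoped NNReal

variable {n : ℕ}

theorem ae_coord_ne (i : Fin (n + 3)) (c : ℝ) : ∀ᵐ x : E (n + 3), x i ≠ c := by
  have h : ∀ᵐ y : Fin (n + 3) → ℝ, y i ≠ c :=
    Measure.ae_eval_ne (fun _ : Fin (n + 3) => (volume : Measure ℝ)) i c
  exact (PiLp.volume_preserving_ofLp (Fin (n + 3))).quasiMeasurePreserving.ae h

/-- the generic points -/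
def Gen (x : E (n + 3)) : Prop := x 1 ≠ 0 ∧ x 2 ≠ 0 ∧ x 0 ≠ 1 ∧ x 0 ≠ -1

theorem ae_gen : ∀ᵐ x : E (n + 3), Gen x := by
  filter_upwards [ae_coord_ne (n := n) 1 0, ae_coord_ne (n := n) 2 0, ae_coord_ne (n := n) 0 1,
    ae_coord_ne (n := n) 0 (-1)] with x h1 h2 h3 h4
  exact ⟨h1, h2, h3, h4⟩

theorem Gen.tt_pos {x : E (n + 3)} (h : Gen x) : 0 < tt x := by
  have h3 := two_le_tt x
  have : 0 < (x 1) ^ 2 := by have := h.1; positivity
  have : 0 ≤ (x 2) ^ 2 := by positivity
  linarith

/-- the sequence of regularisation parameters -/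
noncomputable def ek (k : ℕ) : ℝ := 1 / ((k : ℝ) + 1)

theorem ek_pos (k : ℕ) : 0 < ek k := by unfold ek; positivity

theorem tendsto_ek : Tendsto ek atTop (𝓝 0) := tendsto_one_div_add_atTop_nhds_zero_nat

theorem tendsto_w {s t : ℝ} (ht : 0 < t) :
    Tendsto (fun k => w (ek k) s t) atTop (𝓝 (w 0 s t)) := by
  have h := q_pos (s := s) ht
  have hc : ContinuousAt (fun ε : ℝ => w ε s t) 0 := by
    unfold w
    apply ContinuousAt.inv₀
    · fun_prop
    · rw [add_zero]; exact (Real.sqrt_pos.2 h).ne'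
  exact hc.tendsto.comp tendsto_ek

theorem tendsto_Dv {s t : ℝ} (ht : 0 < t) :
    Tendsto (fun k => Dv n (ek k) s t) atTop (𝓝 (Dv n 0 s t)) := by
  have hc : Continuous (fun v : ℝ =>
      (g2 s * kn 3 t * v + 1 / 2 * g1 s * kn 3 t * v ^ 3 * Ns s t)
      + (n + 2 : ℝ) * (-(3 / 50) * g0 s * kn 2 t * v)
      + 2 * t * (-(3 / 50) * g0 s * (-(1 / 50) * kn 1 t * v + 1 / 2 * kn 2 t * v ^ 3 * Nt s t))) := by
    fun_prop
  exact (hc.tendsto (w 0 s t)).comp (tendsto_w ht)

theorem tendsto_FX (i : Fin (n + 3)) {x : E (n + 3)} (ht : 0 < tt x) :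
    Tendsto (fun k => FX (ek k) i x) atTop (𝓝 (FX 0 i x)) := by
  refine Fin.cases ?_ (fun j => ?_) i
  · simp_rw [FX_zero]
    unfold XA
    exact (tendsto_w ht).const_mul _
  · simp_rw [FX_succ]
    unfold XB
    exact ((tendsto_w ht).const_mul _).mul_const _

theorem FX_bound {ε : ℝ} (hε : 0 ≤ ε) (i : Fin (n + 3)) {x : E (n + 3)} (h : Gen x) :
    |FX ε i x| ≤ 40 * HH x := by
  have hb := XA_bound hε x h.1 h.2.1 h.2.2.1 h.2.2.2
  refine Fin.cases ?_ (fun j => ?_) i
  · rw [FX_zero]; exact hb.1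
  · rw [FX_succ]; exact hb.2 j

theorem norm_XX_le {ε : ℝ} (hε : 0 ≤ ε) {x : E (n + 3)} (h : Gen x) :
    ‖XX ε x‖ ≤ (n + 3 : ℝ) * (40 * HH x) := by
  unfold XX
  refine (norm_sum_le _ _).trans ?_
  have : ∀ i ∈ (Finset.univ : Finset (Fin (n + 3))), ‖FX ε i x • bv i‖ ≤ 40 * HH x := by
    intro i _
    rw [norm_smul]
    simpa using FX_bound hε i h
  refine (Finset.sum_le_card_nsmul _ _ _ this).trans ?_
  rw [Finset.card_univ, Fintype.card_fin, nsmul_eq_mul]
  push_cast
  exact le_refl _

theorem continuous_FX {ε : ℝ} (hε : 0 < ε) (i : Fin (n + 3)) : Continuous (FX ε i) :=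
  (contDiff_FX hε i).continuous

theorem continuous_XX {ε : ℝ} (hε : 0 < ε) : Continuous (XX (n := n) ε) := by
  unfold XX
  exact continuous_finsetSum _ fun i _ => (continuous_FX hε i).smul continuous_const

theorem tendsto_XX {x : E (n + 3)} (ht : 0 < tt x) :
    Tendsto (fun k => XX (ek k) x) atTop (𝓝 (XX 0 x)) := by
  unfold XX
  exact tendsto_finsetSum _ fun i _ => (tendsto_FX i ht).smul_const _

theorem aesm_XX : AEStronglyMeasurable (XX (n := n) 0) volume := by
  apply aestronglyMeasurable_of_tendsto_ae atTop (f := fun k => XX (ek k))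
  · intro k; exact (continuous_XX (ek_pos k)).aestronglyMeasurable
  · filter_upwards [ae_gen] with x hx
    exact tendsto_XX hx.tt_pos

theorem integrable_XX : Integrable (XX (n := n) 0) := by
  apply Integrable.mono' (((integrable_HH (n := n)).const_mul 40).const_mul (n + 3 : ℝ)) aesm_XX
  filter_upwards [ae_gen] with x hx
  exact norm_XX_le le_rfl hx

theorem continuous_Dv {ε : ℝ} (hε : 0 < ε) :
    Continuous (fun x : E (n + 3) => Dv n ε (x 0) (tt x)) := by
  have h0 : Continuous (fun x : E (n + 3) => x 0) := (contDiff_coord 0).continuous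
  have ht : Continuous (fun x : E (n + 3) => tt x) := contDiff_tt.continuous
  have hg0 : Continuous (fun x : E (n + 3) => g0 (x 0)) := contDiff_g0.continuous.comp h0
  have hg1 : Continuous (fun x : E (n + 3) => g1 (x 0)) := contDiff_g1.continuous.comp h0
  have hg2 : Continuous (fun x : E (n + 3) => g2 (x 0)) := continuous_g2.comp h0
  have hk : ∀ j, Continuous (fun x : E (n + 3) => kn j (tt x)) := fun j =>
    (continuous_kn j).comp ht
  have hw : Continuous (fun x : E (n + 3) => w ε (x 0) (tt x)) := (contDiff_w hε).continuous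
  have k1 := hk 1
  have k2 := hk 2
  have k3 := hk 3
  have k4 := hk 4
  have k5 := hk 5
  have k6 := hk 6
  unfold Dv XAs XB XBt Ns Nt
  fun_prop

/-- the source of the model bump -/
noncomputable def GG (x : E (n + 3)) : ℝ := - Dv n 0 (x 0) (tt x)

theorem aesm_GG : AEStronglyMeasurable (GG (n := n)) volume := by
  apply aestronglyMeasurable_of_tendsto_ae atTop
    (f := fun k (x : E (n + 3)) => - Dv n (ek k) (x 0) (tt x))
  · intro k; exact (continuous_Dv (ek_pos k)).neg.aestronglyMeasurable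
  · filter_upwards [ae_gen] with x hx
    exact (tendsto_Dv hx.tt_pos).neg

theorem integrable_GG : Integrable (GG (n := n)) := by
  apply Integrable.mono' ((integrable_HH (n := n)).const_mul (CD n)) aesm_GG
  filter_upwards [ae_gen] with x hx
  unfold GG
  rw [norm_neg]
  exact Dv_bound le_rfl x hx.1 hx.2.1 hx.2.2.1 hx.2.2.2

theorem GG_eq_zero {x : E (n + 3)} (h : 13 ≤ ‖x‖) : GG x = 0 := by
  unfold GG; rw [Dv_support (out_of_ball h), neg_zero]

theorem XX_eq_zero {ε : ℝ} {x : E (n + 3)} (h : 13 ≤ ‖x‖) : XX ε x = 0 := by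
  unfold XX
  apply Finset.sum_eq_zero
  intro i _
  rw [FX_support i (out_of_ball h), zero_smul]

theorem measurable_fderiv_apply {m : ℕ} (η : E m → ℝ) {v : E m → E m}
    (hv : AEStronglyMeasurable v volume) :
    AEStronglyMeasurable (fun x => fderiv ℝ η x (v x)) volume := by
  have h1 : AEStronglyMeasurable (fderiv ℝ η) volume :=
    (measurable_fderiv ℝ η).aestronglyMeasurable
  exact (isBoundedBilinearMap_apply (𝕜 := ℝ) (E := E m) (F := ℝ)).continuous.comp_aestronglyMeasurable
    (h1.prodMk hv)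

/-- The weak identity for the model bump. -/
theorem weak_model {K : ℝ≥0} {η : E (n + 3) → ℝ} (hη : LipschitzWith K η) :
    ∫ x, fderiv ℝ η x (XX 0 x) = ∫ x, GG x * η x := by
  have h1 : Tendsto (fun k => ∫ x, fderiv ℝ η x (XX (ek k) x)) atTop
      (𝓝 (∫ x, fderiv ℝ η x (XX 0 x))) := by
    apply tendsto_integral_of_dominated_convergence
      (fun x => (K : ℝ) * ((n + 3 : ℝ) * (40 * HH x)))
    · intro k
      exact measurable_fderiv_apply η (continuous_XX (ek_pos k)).aestronglyMeasurable
    · exact (((integrable_HH (n := n)).const_mul 40).const_mul (n + 3 : ℝ)).const_mul _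
    · intro k
      filter_upwards [ae_gen] with x hx
      refine (ContinuousLinearMap.le_opNorm _ _).trans ?_
      exact mul_le_mul (norm_fderiv_le_of_lipschitz ℝ hη) (norm_XX_le (ek_pos k).le hx)
        (norm_nonneg _) K.2
    · filter_upwards [ae_gen] with x hx
      exact ((fderiv ℝ η x).continuous.tendsto _).comp (tendsto_XX hx.tt_pos)
  have hbd : ∀ x : E (n + 3), ‖x‖ < 13 → |η x| ≤ |η 0| + K * 13 := by
    intro x hx
    have h2 := hη.dist_le_mul x 0
    rw [dist_zero_right, Real.dist_eq] at h2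
    have h3 : |η x| ≤ |η 0| + |η x - η 0| := by
      have := abs_add_le (η 0) (η x - η 0)
      simpa using this
    have h4 : (K : ℝ) * ‖x‖ ≤ K * 13 := by
      apply mul_le_mul_of_nonneg_left hx.le K.2
    linarith
  have h2 : Tendsto (fun k => ∫ x, -Dv n (ek k) (x 0) (tt x) * η x) atTop
      (𝓝 (∫ x, GG x * η x)) := by
    apply tendsto_integral_of_dominated_convergence
      (fun x => (CD n * HH x) * (|η 0| + K * 13))
    · intro k
      exact ((continuous_Dv (ek_pos k)).neg.mul hη.continuous).aestronglyMeasurable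
    · exact ((integrable_HH (n := n)).const_mul (CD n)).mul_const _
    · intro k
      filter_upwards [ae_gen] with x hx
      rw [norm_mul, norm_neg]
      rcases lt_or_ge ‖x‖ 13 with h | h
      · apply mul_le_mul _ (hbd x h) (abs_nonneg _) (mul_nonneg (CD_pos n).le (HH_nonneg x))
        exact Dv_bound (ek_pos k).le x hx.1 hx.2.1 hx.2.2.1 hx.2.2.2
      · rw [Dv_support (out_of_ball h), norm_zero, zero_mul]
        have := HH_nonneg x
        have := CD_pos n
        positivity
    · filter_upwards [ae_gen] with x hx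
      exact (tendsto_Dv hx.tt_pos).neg.mul_const _
  refine tendsto_nhds_unique h1 (h2.congr fun k => ?_)
  rw [weak_eps (ek_pos k) hη, ← integral_neg]
  apply integral_congr_ae
  filter_upwards with x
  ring

end Pool.Agent.Helper36.Light
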