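import Pool.Agent.Helper36.RelFreeBasic

/-!
Affine groups over a ring and the consequence of primitivity in rank two.
-/

open scoped commutatorElement

namespace Pool.Agent.Helper36

/-- The word `h = [z,y]^{(z-1)^2(z+1)} x`, where `z = [x,y]`. -/
def hword {G : Type*} [Group G] (x y : G) : G :=
  (⁅x, y⁆ ^ 3 * ⁅⁅x, y⁆, y⁆ * (⁅x, y⁆ ^ 3)⁻¹) * (⁅x, y⁆ ^ 2 * ⁅⁅x, y⁆, y⁆ * (⁅x, y⁆ ^ 2)⁻¹)⁻¹ *
    (⁅x, y⁆ * ⁅⁅x, y⁆, y⁆ * ⁅x, y⁆⁻¹)⁻¹ * ⁅⁅x, y⁆, y⁆ * x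

theorem map_hword {G H : Type*} [Group G] [Group H] (f : G →* H) (x y : G) :
    f (hword x y) = hword (f x) (f y) := by
  simp only [hword, map_mul, map_inv, map_pow, map_commutatorElement]

/-- The affine group `T ⋊ H`. -/
@[ext]
structure Aff (T : Type*) [Ring T] (H : Subgroup Tˣ) where
  /-- translation part -/
  m : T
  /-- linear part -/
  u : H

namespace Aff

variable {T : Type*} [Ring T] {H : Subgroup Tˣ}

instance : Mul (Aff T H) := ⟨fun p q => ⟨p.m + ((p.u : Tˣ) : T) * q.m, p.u * q.u⟩⟩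
instance : One (Aff T H) := ⟨⟨0, 1⟩⟩
instance : Inv (Aff T H) := ⟨fun p => ⟨-((((p.u)⁻¹ : H) : Tˣ) : T) * p.m, p.u⁻¹⟩⟩

@[simp] theorem mul_m (p q : Aff T H) : (p * q).m = p.m + ((p.u : Tˣ) : T) * q.m := rfl
@[simp] theorem mul_u (p q : Aff T H) : (p * q).u = p.u * q.u := rfl
@[simp] theorem one_m : (1 : Aff T H).m = 0 := rfl
@[simp] theorem one_u : (1 : Aff T H).u = 1 := rfl
@[simp] theorem inv_m (p : Aff T H) : (p⁻¹).m = -((((p.u)⁻¹ : H) : Tˣ) : T) * p.m := rfl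
@[simp] theorem inv_u (p : Aff T H) : (p⁻¹).u = p.u⁻¹ := rfl

instance : Group (Aff T H) :=
  Group.ofLeftAxioms
    (by
      intro a b c
      ext
      · simp [mul_add, mul_assoc, add_assoc]
      · simp [mul_assoc])
    (by
      intro a
      ext
      · simp
      · simp)
    (by
      intro a
      ext
      · simp
      · simp)

/-- projection -/
def proj : Aff T H →* H where
  toFun p := p.u
  map_one' := rfl
  map_mul' _ _ := rfl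

/-- right multiplication on the translation part -/
def rmul (τ : T) : Aff T H →* Aff T H where
  toFun p := ⟨p.m * τ, p.u⟩
  map_one' := by ext <;> simp
  map_mul' p q := by ext <;> simp [add_mul, mul_assoc]

theorem comm_of_u_one {p q : Aff T H} (hp : p.u = 1) (hq : q.u = 1) : p * q = q * p := by
  ext
  · simp [hp, hq, add_comm]
  · simp [hp, hq]

theorem law (hH : ∀ a b c : H, ⁅⁅a, b⁆, c⁆ = 1) : Law (Aff T H) := by
  intro a b c d e f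
  rw [commutatorElement_eq_one_iff_mul_comm]
  apply comm_of_u_one
  · change proj ⁅⁅a, b⁆, c⁆ = 1
    rw [map_commutatorElement, map_commutatorElement]; exact hH _ _ _
  · change proj ⁅⁅d, e⁆, f⁆ = 1
    rw [map_commutatorElement, map_commutatorElement]; exact hH _ _ _

end Aff

/-- The row `ρ` evaluated at `m`. -/
def rho {T : Type*} [Ring T] (X Y Z m₀ m₁ : T) : T :=
  (Z ^ 3 - Z ^ 2 - Z + 1) * ((1 - Y) * ((1 - Z * Y) * m₀ + (X - Z) * m₁) + (Z - 1) * m₁) + m₀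

theorem comm_m {T : Type*} [Ring T] {H : Subgroup Tˣ} (p q : Aff T H) :
    (⁅p, q⁆).m = p.m + ((p.u : Tˣ) : T) * q.m
      - (((p.u * q.u * p.u⁻¹ : H) : Tˣ) : T) * p.m - (((⁅p.u, q.u⁆ : H) : Tˣ) : T) * q.m := by
  rw [commutatorElement_def, commutatorElement_def]
  simp only [Aff.mul_m, Aff.mul_u, Aff.inv_m, Aff.inv_u, Subgroup.coe_mul, Units.val_mul]
  noncomm_ring

theorem comm_u {T : Type*} [Ring T] {H : Subgroup Tˣ} (p q : Aff T H) :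
    (⁅p, q⁆).u = ⁅p.u, q.u⁆ := rfl

theorem hword_m {T : Type*} [Ring T] {H : Subgroup Tˣ} (hH : ∀ a b c : H, ⁅⁅a, b⁆, c⁆ = 1)
    (p q : Aff T H) :
    (hword p q).m = rho ((p.u : Tˣ) : T) ((q.u : Tˣ) : T) (((⁅p.u, q.u⁆ : H) : Tˣ) : T) p.m q.m := by
  have h1 : ((((⁅p.u, q.u⁆ * q.u * ⁅p.u, q.u⁆⁻¹ : H)) : Tˣ) : T) = ((q.u : Tˣ) : T) := by
    have h := hH p.u q.u q.u
    rw [commutatorElement_eq_one_iff_mul_comm] at h
    rw [h, mul_inv_cancel_right]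
  have h2 : (p.u * q.u * p.u⁻¹ : H) = ⁅p.u, q.u⁆ * q.u := by
    rw [commutatorElement_def]; group
  have hz : (⁅p, q⁆).m = (1 - (((⁅p.u, q.u⁆ : H) : Tˣ) : T) * ((q.u : Tˣ) : T)) * p.m
      + (((p.u : Tˣ) : T) - (((⁅p.u, q.u⁆ : H) : Tˣ) : T)) * q.m := by
    rw [comm_m, h2, Subgroup.coe_mul, Units.val_mul]
    noncomm_ring
  have he : (⁅⁅p, q⁆, q⁆).m = (1 - ((q.u : Tˣ) : T)) * (⁅p, q⁆).m +
      ((((⁅p.u, q.u⁆ : H) : Tˣ) : T) - 1) * q.m := by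
    rw [comm_m, comm_u, h1, hH]
    simp only [Subgroup.coe_one, Units.val_one]
    noncomm_ring
  have hu : (⁅⁅p, q⁆, q⁆).u = 1 := by
    rw [comm_u, comm_u]; exact hH _ _ _
  have key : ∀ (a b : Aff T H), b.u = 1 → (a * b * a⁻¹).m = ((a.u : Tˣ) : T) * b.m := by
    intro a b hb
    simp only [Aff.mul_m, Aff.mul_u, Aff.inv_m, hb, mul_one]
    rw [neg_mul, mul_neg, ← mul_assoc, ← Units.val_mul, ← Subgroup.coe_mul, mul_inv_cancel]
    simp
  have key2 : ∀ (a b : Aff T H), b.u = 1 → (a * b * a⁻¹).u = 1 := by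
    intro a b hb
    simp [hb]
  have key3 : ∀ (b : Aff T H), b.u = 1 → (b⁻¹).m = - b.m := by
    intro b hb
    simp [hb]
  have key4 : ∀ (b : Aff T H), b.u = 1 → (b⁻¹).u = 1 := by
    intro b hb
    simp [hb]
  have pw : ∀ n : ℕ, (((⁅p, q⁆ ^ n).u : Tˣ) : T) = (((⁅p.u, q.u⁆ : H) : Tˣ) : T) ^ n := by
    intro n
    have : (⁅p, q⁆ ^ n).u = (⁅p.u, q.u⁆) ^ n := by
      change Aff.proj (⁅p, q⁆ ^ n) = _
      rw [map_pow]; rfl
    rw [this]; simp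
  unfold hword
  rw [Aff.mul_m, Aff.mul_m, Aff.mul_m, Aff.mul_m]
  simp only [Aff.mul_u, key2 _ _ hu, key4 _ (key2 _ _ hu), key3 _ (key2 _ _ hu), key _ _ hu, hu,
    mul_one, Subgroup.coe_one, Units.val_one, one_mul, pw, comm_u, he, hz]
  unfold rho
  generalize ((p.u : Tˣ) : T) = X
  generalize ((q.u : Tˣ) : T) = Y
  generalize (((⁅p.u, q.u⁆ : H) : Tˣ) : T) = Z
  generalize (1 - Y) * ((1 - Z * Y) * p.m + (X - Z) * q.m) + (Z - 1) * q.m = D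
  noncomm_ring

theorem hword_u {T : Type*} [Ring T] {H : Subgroup Tˣ} (hH : ∀ a b c : H, ⁅⁅a, b⁆, c⁆ = 1)
    (p q : Aff T H) : (hword p q).u = p.u := by
  change Aff.proj (hword p q) = Aff.proj p
  rw [map_hword]
  have h := hH (Aff.proj p) (Aff.proj q) (Aff.proj q)
  unfold hword
  rw [h]
  simp only [mul_one, mul_inv_cancel, inv_one, one_mul]

/-- The consequence of primitivity of `hword` in rank 2. -/
theorem core {T : Type*} [Ring T] {H : Subgroup Tˣ} (hH : ∀ a b c : H, ⁅⁅a, b⁆, c⁆ = 1)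
    (X Y : H) (φ : Gam 2 ≃* Gam 2) (i : Fin 2)
    (hφ : φ (gen i) = hword (gen 0) (gen 1)) :
    ∃ k₀ k₁ : T, rho ((X : Tˣ) : T) ((Y : Tˣ) : T) (((⁅X, Y⁆ : H) : Tˣ) : T) k₀ k₁ = 0 ∧
      ∀ m₀ m₁ : T, rho ((X : Tˣ) : T) ((Y : Tˣ) : T) (((⁅X, Y⁆ : H) : Tˣ) : T) m₀ m₁ = 0 →
        ∃ τ : T, m₀ = k₀ * τ ∧ m₁ = k₁ * τ := by
  have hlaw : Law (Aff T H) := Aff.law hH
  obtain ⟨j, hj⟩ : ∃ j : Fin 2, ∀ l : Fin 2, l = i ∨ l = j := by
    have h : ∀ i : Fin 2, ∃ j : Fin 2, ∀ l : Fin 2, l = i ∨ l = j := by decide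
    exact h i
  have hne : i ≠ j := by
    intro h
    rw [← h] at hj
    have h0 := hj 0
    have h1 := hj 1
    simp only [or_self] at h0 h1
    rw [← h0] at h1
    exact absurd h1 (by decide)
  -- the homomorphisms
  let f : T → T → (Gam 2 →* Aff T H) := fun m₀ m₁ => liftG hlaw ![⟨m₀, X⟩, ⟨m₁, Y⟩]
  have f0 : ∀ m₀ m₁, f m₀ m₁ (gen 0) = ⟨m₀, X⟩ := fun m₀ m₁ => liftG_gen hlaw _ 0
  have f1 : ∀ m₀ m₁, f m₀ m₁ (gen 1) = ⟨m₁, Y⟩ := fun m₀ m₁ => liftG_gen hlaw _ 1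
  have fh : ∀ m₀ m₁, f m₀ m₁ (φ (gen i)) =
      ⟨rho ((X : Tˣ) : T) ((Y : Tˣ) : T) (((⁅X, Y⁆ : H) : Tˣ) : T) m₀ m₁, X⟩ := by
    intro m₀ m₁
    rw [hφ, map_hword, f0, f1]
    apply Aff.ext
    · rw [hword_m hH]
    · rw [hword_u hH]
  have fproj : ∀ m₀ m₁ (g : Gam 2), (f m₀ m₁ g).u = (f 0 0 g).u := by
    intro m₀ m₁ g
    have : (Aff.proj).comp (f m₀ m₁) = (Aff.proj).comp (f 0 0) := by
      apply hom_ext
      intro l
      fin_cases l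
      · change (f m₀ m₁ (gen 0)).u = (f 0 0 (gen 0)).u
        rw [f0, f0]
      · change (f m₀ m₁ (gen 1)).u = (f 0 0 (gen 1)).u
        rw [f1, f1]
    exact DFunLike.congr_fun this g
  -- injectivity
  have inj : ∀ m₀ m₁ m₀' m₁' : T,
      rho ((X : Tˣ) : T) ((Y : Tˣ) : T) (((⁅X, Y⁆ : H) : Tˣ) : T) m₀ m₁ =
      rho ((X : Tˣ) : T) ((Y : Tˣ) : T) (((⁅X, Y⁆ : H) : Tˣ) : T) m₀' m₁' →
      (f m₀ m₁ (φ (gen j))).m = (f m₀' m₁' (φ (gen j))).m → m₀ = m₀' ∧ m₁ = m₁' := by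
    intro m₀ m₁ m₀' m₁' h1 h2
    have e : (f m₀ m₁).comp φ.toMonoidHom = (f m₀' m₁').comp φ.toMonoidHom := by
      apply hom_ext
      intro l
      rcases hj l with rfl | rfl
      · change f m₀ m₁ (φ (gen _)) = f m₀' m₁' (φ (gen _))
        rw [fh, fh, h1]
      · change f m₀ m₁ (φ (gen _)) = f m₀' m₁' (φ (gen _))
        apply Aff.ext
        · exact h2
        · rw [fproj, fproj m₀']
    have e2 : ∀ g, f m₀ m₁ g = f m₀' m₁' g := by
      intro g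
      have := DFunLike.congr_fun e (φ.symm g)
      simpa using this
    have e3 := e2 (gen 0)
    have e4 := e2 (gen 1)
    rw [f0, f0] at e3
    rw [f1, f1] at e4
    exact ⟨congrArg Aff.m e3, congrArg Aff.m e4⟩
  -- the hom with prescribed values
  let uj : H := (f 0 0 (φ (gen j))).u
  let f' : Gam 2 →* Aff T H := liftG hlaw (fun l => if l = i then ⟨0, X⟩ else ⟨1, uj⟩)
  have f'i : f' (gen i) = ⟨0, X⟩ := by
    change liftG hlaw _ (gen i) = _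
    rw [liftG_gen]; simp
  have f'j : f' (gen j) = ⟨1, uj⟩ := by
    change liftG hlaw _ (gen j) = _
    rw [liftG_gen]; simp [hne.symm]
  let F : Gam 2 →* Aff T H := f'.comp φ.symm.toMonoidHom
  have hF : ∀ g, F (φ g) = f' g := by
    intro g
    change f' (φ.symm (φ g)) = f' g
    rw [MulEquiv.symm_apply_apply]
  have Fproj : ∀ g, (F g).u = (f 0 0 g).u := by
    intro g
    have : ((Aff.proj).comp F).comp φ.toMonoidHom = ((Aff.proj).comp (f 0 0)).comp φ.toMonoidHom := by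
      apply hom_ext
      intro l
      rcases hj l with rfl | rfl
      · change (F (φ (gen _))).u = (f 0 0 (φ (gen _))).u
        rw [hF, f'i, fh]
      · change (F (φ (gen _))).u = (f 0 0 (φ (gen _))).u
        rw [hF, f'j]
    have h := DFunLike.congr_fun this (φ.symm g)
    change (F (φ (φ.symm g))).u = (f 0 0 (φ (φ.symm g))).u at h
    rwa [MulEquiv.apply_symm_apply] at h
  let k₀ : T := (F (gen 0)).m
  let k₁ : T := (F (gen 1)).m
  have hFf : F = f k₀ k₁ := by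
    apply hom_ext
    intro l
    fin_cases l
    · change F (gen 0) = f k₀ k₁ (gen 0)
      rw [f0]
      apply Aff.ext
      · rfl
      · rw [Fproj, f0]
    · change F (gen 1) = f k₀ k₁ (gen 1)
      rw [f1]
      apply Aff.ext
      · rfl
      · rw [Fproj, f1]
  have hk : rho ((X : Tˣ) : T) ((Y : Tˣ) : T) (((⁅X, Y⁆ : H) : Tˣ) : T) k₀ k₁ = 0 := by
    have h1 := fh k₀ k₁
    rw [← hFf, hF, f'i] at h1
    exact (congrArg Aff.m h1).symm
  have hL : (f k₀ k₁ (φ (gen j))).m = 1 := by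
    rw [← hFf, hF, f'j]
  refine ⟨k₀, k₁, hk, ?_⟩
  intro m₀ m₁ hm
  let τ : T := (f m₀ m₁ (φ (gen j))).m
  have hr : (Aff.rmul τ).comp (f k₀ k₁) = f (k₀ * τ) (k₁ * τ) := by
    apply hom_ext
    intro l
    fin_cases l
    · change Aff.rmul τ (f k₀ k₁ (gen 0)) = f (k₀ * τ) (k₁ * τ) (gen 0)
      rw [f0, f0]; rfl
    · change Aff.rmul τ (f k₀ k₁ (gen 1)) = f (k₀ * τ) (k₁ * τ) (gen 1)
      rw [f1, f1]; rfl
  have hLτ : (f (k₀ * τ) (k₁ * τ) (φ (gen j))).m = τ := by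
    rw [← hr]
    change (f k₀ k₁ (φ (gen j))).m * τ = τ
    rw [hL, one_mul]
  have hρτ : rho ((X : Tˣ) : T) ((Y : Tˣ) : T) (((⁅X, Y⁆ : H) : Tˣ) : T) (k₀ * τ) (k₁ * τ) = 0 := by
    have : rho ((X : Tˣ) : T) ((Y : Tˣ) : T) (((⁅X, Y⁆ : H) : Tˣ) : T) (k₀ * τ) (k₁ * τ) =
      rho ((X : Tˣ) : T) ((Y : Tˣ) : T) (((⁅X, Y⁆ : H) : Tˣ) : T) k₀ k₁ * τ := by
      simp only [rho, add_mul, mul_assoc]
    rw [this, hk, zero_mul]
  exact ⟨τ, inj m₀ m₁ (k₀ * τ) (k₁ * τ) (by rw [hm, hρτ]) (by rw [hLτ])⟩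

end Pool.Agent.Helper36
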