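import Mathlib

/-!
Basic facts about the relatively free groups of the variety of groups whose
third term of the lower central series is abelian.
-/

open scoped commutatorElement

namespace Pool.Agent.Helper36

/-- The set consisting of the single law `[[[x0,x1],x2],[[x3,x4],x5]]`. -/
def lawW : Set (FreeGroup ℕ) :=
  {⁅⁅⁅FreeGroup.of 0, FreeGroup.of 1⁆, FreeGroup.of 2⁆,
    ⁅⁅FreeGroup.of 3, FreeGroup.of 4⁆, FreeGroup.of 5⁆⁆}

/-- A group satisfies the law. -/
def Law (G : Type*) [Group G] : Prop :=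
  ∀ a b c d e f : G, ⁅⁅⁅a, b⁆, c⁆, ⁅⁅d, e⁆, f⁆⁆ = 1

/-- The verbal subgroup. -/
abbrev V (n : ℕ) : Subgroup (FreeGroup (Fin n)) :=
  Subgroup.normalClosure
    {x : FreeGroup (Fin n) | ∃ u ∈ lawW, ∃ g : ℕ → FreeGroup (Fin n), FreeGroup.lift g u = x}

theorem V_le_ker {n : ℕ} {Q : Type*} [Group Q] (hQ : Law Q) (f : FreeGroup (Fin n) →* Q) :
    V n ≤ f.ker := by
  apply Subgroup.normalClosure_le_normal
  rintro x ⟨u, hu, g, rfl⟩
  rw [lawW, Set.mem_singleton_iff] at hu
  subst hu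
  simp only [SetLike.mem_coe, MonoidHom.mem_ker, map_commutatorElement, FreeGroup.lift_apply_of]
  exact hQ _ _ _ _ _ _

/-- The relatively free group of rank `n`. -/
abbrev Gam (n : ℕ) : Type := FreeGroup (Fin n) ⧸ V n

theorem law_Gam (n : ℕ) : Law (Gam n) := by
  intro a b c d e f
  obtain ⟨a, rfl⟩ := QuotientGroup.mk_surjective a
  obtain ⟨b, rfl⟩ := QuotientGroup.mk_surjective b
  obtain ⟨c, rfl⟩ := QuotientGroup.mk_surjective c
  obtain ⟨d, rfl⟩ := QuotientGroup.mk_surjective d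
  obtain ⟨e, rfl⟩ := QuotientGroup.mk_surjective e
  obtain ⟨f, rfl⟩ := QuotientGroup.mk_surjective f
  have h : (⁅⁅⁅a, b⁆, c⁆, ⁅⁅d, e⁆, f⁆⁆ : FreeGroup (Fin n)) ∈ V n := by
    apply Subgroup.subset_normalClosure
    refine ⟨_, rfl, fun i => match i with
      | 0 => a | 1 => b | 2 => c | 3 => d | 4 => e | _ => f, ?_⟩
    simp only [map_commutatorElement, FreeGroup.lift_apply_of]
  have h2 := (QuotientGroup.eq_one_iff _).2 h
  exact h2

/-- The homomorphism out of the relatively free group. -/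
def liftG {n : ℕ} {Q : Type*} [Group Q] (hQ : Law Q) (a : Fin n → Q) : Gam n →* Q :=
  QuotientGroup.lift (V n) (FreeGroup.lift a) (fun x hx => V_le_ker hQ _ hx)

/-- generators -/
def gen {n : ℕ} (i : Fin n) : Gam n := QuotientGroup.mk (FreeGroup.of i)

@[simp] theorem liftG_gen {n : ℕ} {Q : Type*} [Group Q] (hQ : Law Q) (a : Fin n → Q) (i : Fin n) :
    liftG hQ a (gen i) = a i := by
  simp [liftG, gen]

theorem hom_ext {n : ℕ} {Q : Type*} [Group Q] {f g : Gam n →* Q}
    (h : ∀ i, f (gen i) = g (gen i)) : f = g := by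
  apply QuotientGroup.monoidHom_ext
  apply FreeGroup.ext_hom
  intro i
  exact h i

end Pool.Agent.Helper36
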