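import Pool.Agent.Helper36.RelFreeBasic

/-!
Endomorphisms of the relatively free group which are trivial modulo the abelian
normal subgroup generated by the triple commutators, and the corresponding derivations.
-/

open scoped commutatorElement IsMulCommutative

namespace Pool.Agent.Helper36

/-- The subgroup generated by all triple commutators. -/
def A3 (G : Type*) [Group G] : Subgroup G :=
  Subgroup.closure {g | ∃ a b c : G, ⁅⁅a, b⁆, c⁆ = g}

theorem conj_comm {G : Type*} [Group G] (g a b : G) :
    g * ⁅a, b⁆ * g⁻¹ = ⁅g * a * g⁻¹, g * b * g⁻¹⁆ := by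
  simp only [commutatorElement_def]; group

instance A3_normal (G : Type*) [Group G] : (A3 G).Normal := by
  refine ⟨fun n hn g => ?_⟩
  induction hn using Subgroup.closure_induction with
  | mem x hx =>
    obtain ⟨a, b, c, rfl⟩ := hx
    apply Subgroup.subset_closure
    refine ⟨g * a * g⁻¹, g * b * g⁻¹, g * c * g⁻¹, ?_⟩
    rw [conj_comm g ⁅a, b⁆ c, conj_comm g a b]
  | one => simp
  | mul x y _ _ hx hy =>
    have : g * (x * y) * g⁻¹ = (g * x * g⁻¹) * (g * y * g⁻¹) := by group
    rw [this]; exact Subgroup.mul_mem _ hx hy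
  | inv x _ hx =>
    have : g * x⁻¹ * g⁻¹ = (g * x * g⁻¹)⁻¹ := by group
    rw [this]; exact Subgroup.inv_mem _ hx

instance A3_comm (n : ℕ) : IsMulCommutative (A3 (Gam n)) := by
  apply Subgroup.isMulCommutative_closure
  rintro x ⟨a, b, c, rfl⟩ y ⟨d, e, f, rfl⟩
  have := law_Gam n a b c d e f
  exact commutatorElement_eq_one_iff_mul_comm.1 this

/-- The abelian normal subgroup written additively. -/
abbrev MM (n : ℕ) : Type := Additive (A3 (Gam n))

/-- The ring of endomorphisms. -/
abbrev EE (n : ℕ) : Type := Module.End ℤ (MM n)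

/-- inclusion of the module in the group -/
def inc {n : ℕ} (m : MM n) : Gam n := ((Additive.toMul m : A3 (Gam n)) : Gam n)

theorem inc_add {n : ℕ} (a b : MM n) : inc (a + b) = inc a * inc b := rfl
theorem inc_zero {n : ℕ} : inc (0 : MM n) = 1 := rfl
theorem inc_neg {n : ℕ} (a : MM n) : inc (-a) = (inc a)⁻¹ := rfl
theorem inc_sub {n : ℕ} (a b : MM n) : inc (a - b) = inc a * (inc b)⁻¹ := by
  rw [sub_eq_add_neg, inc_add, inc_neg]
theorem inc_inj {n : ℕ} {a b : MM n} (h : inc a = inc b) : a = b := by
  apply Additive.toMul.injective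
  exact Subtype.ext h
theorem inc_mem {n : ℕ} (a : MM n) : inc a ∈ A3 (Gam n) := (Additive.toMul a).2

/-- make an element of the module -/
def mkM {n : ℕ} (g : Gam n) (h : g ∈ A3 (Gam n)) : MM n := Additive.ofMul ⟨g, h⟩

@[simp] theorem inc_mkM {n : ℕ} (g : Gam n) (h : g ∈ A3 (Gam n)) : inc (mkM g h) = g := rfl

/-- The conjugation action of one element. -/
def act0 {n : ℕ} (g : Gam n) : MM n →+ MM n where
  toFun := fun m => mkM (g * inc m * g⁻¹) ((A3_normal _).conj_mem _ (inc_mem m) g)
  map_zero' := by apply inc_inj; simp [inc_zero]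
  map_add' := fun a b => by
    apply inc_inj
    simp only [inc_mkM, inc_add]
    group

/-- The conjugation action as endomorphisms of the additive group. -/
def act {n : ℕ} : Gam n →* EE n where
  toFun g := (act0 g).toIntLinearMap
  map_one' := by
    apply LinearMap.ext; intro m; apply inc_inj
    simp [act0]
  map_mul' g h := by
    apply LinearMap.ext; intro m; apply inc_inj
    simp [act0, mul_assoc]

theorem inc_act {n : ℕ} (g : Gam n) (m : MM n) : inc (act g m) = g * inc m * g⁻¹ := rfl

theorem act_eq_one {n : ℕ} {g : Gam n} (h : g ∈ A3 (Gam n)) : act g = 1 := by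
  apply LinearMap.ext; intro m; apply inc_inj
  rw [inc_act]
  have := (A3_comm n).is_comm.comm ⟨g, h⟩ ⟨inc m, inc_mem m⟩
  have h2 : g * inc m = inc m * g := congrArg Subtype.val this
  rw [h2]; simp

/-- The endomorphism `x_i ↦ a_i x_i`. -/
def tau {n : ℕ} (a : Fin n → MM n) : Gam n →* Gam n :=
  liftG (law_Gam n) (fun i => inc (a i) * gen i)

theorem tau_gen {n : ℕ} (a : Fin n → MM n) (i : Fin n) :
    tau a (gen i) = inc (a i) * gen i := by simp [tau]

theorem tau_mem {n : ℕ} (a : Fin n → MM n) (g : Gam n) : tau a g * g⁻¹ ∈ A3 (Gam n) := by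
  have h : (QuotientGroup.mk' (A3 (Gam n))).comp (tau a) = QuotientGroup.mk' (A3 (Gam n)) := by
    apply hom_ext
    intro i
    simp only [MonoidHom.comp_apply, tau_gen, map_mul]
    have : QuotientGroup.mk' (A3 (Gam n)) (inc (a i)) = 1 :=
      (QuotientGroup.eq_one_iff _).2 (inc_mem (a i))
    rw [this, one_mul]
  have h2 := DFunLike.congr_fun h g
  have h3 : QuotientGroup.mk' (A3 (Gam n)) (tau a g * g⁻¹) = 1 := by
    rw [map_mul, map_inv, ← MonoidHom.comp_apply, h2, mul_inv_cancel]
  exact (QuotientGroup.eq_one_iff _).1 h3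

/-- The derivation associated with `tau a`. -/
def der {n : ℕ} (a : Fin n → MM n) (g : Gam n) : MM n := mkM (tau a g * g⁻¹) (tau_mem a g)

theorem tau_eq {n : ℕ} (a : Fin n → MM n) (g : Gam n) : tau a g = inc (der a g) * g := by
  simp [der]

theorem der_gen {n : ℕ} (a : Fin n → MM n) (i : Fin n) : der a (gen i) = a i := by
  apply inc_inj
  simp [der, tau_gen]

theorem der_mul {n : ℕ} (a : Fin n → MM n) (g h : Gam n) :
    der a (g * h) = der a g + act g (der a h) := by
  apply inc_inj
  simp only [der, inc_mkM, inc_add, inc_act, map_mul]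
  group

theorem der_one {n : ℕ} (a : Fin n → MM n) : der a 1 = 0 := by
  apply inc_inj; simp [der, inc_zero]

theorem der_inv {n : ℕ} (a : Fin n → MM n) (g : Gam n) :
    der a g⁻¹ = - act g⁻¹ (der a g) := by
  have h := der_mul a g⁻¹ g
  rw [inv_mul_cancel, der_one] at h
  exact (neg_eq_of_add_eq_zero_left h.symm).symm

theorem der_comm {n : ℕ} (a : Fin n → MM n) (g h : Gam n) :
    der a ⁅g, h⁆ = der a g - act (g * h * g⁻¹) (der a g) + act g (der a h)
      - act ⁅g, h⁆ (der a h) := by
  rw [commutatorElement_def, der_mul, der_mul, der_mul, der_inv, der_inv]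
  simp only [map_neg, map_mul, Module.End.mul_apply]
  abel

/-- restriction of the derivation to the module, as an additive endomorphism -/
def derM0 {n : ℕ} (a : Fin n → MM n) : MM n →+ MM n where
  toFun m := der a (inc m)
  map_zero' := by rw [inc_zero, der_one]
  map_add' x y := by rw [inc_add, der_mul, act_eq_one (inc_mem x)]; rfl

/-- restriction of the derivation to the module, as a linear endomorphism -/
def derM {n : ℕ} (a : Fin n → MM n) : EE n := (derM0 a).toIntLinearMap

theorem derM_apply {n : ℕ} (a : Fin n → MM n) (m : MM n) : derM a m = der a (inc m) := rfl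

theorem derM_act {n : ℕ} (a : Fin n → MM n) (g : Gam n) : derM a * act g = act g * derM a := by
  apply LinearMap.ext; intro m
  change der a (inc (act g m)) = act g (der a (inc m))
  rw [inc_act, der_mul, der_mul, der_inv, map_neg, ← Module.End.mul_apply, ← map_mul]
  have : act (g * inc m * g⁻¹) = 1 :=
    act_eq_one ((A3_normal _).conj_mem _ (inc_mem m) g)
  rw [this, Module.End.one_apply]
  abel

/-- If `der a` kills all `a i`, then `tau a ∘ tau (-a) = id`. -/
theorem tau_tau_neg {n : ℕ} (a : Fin n → MM n) (h : ∀ i, derM a (a i) = 0) :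
    (tau a).comp (tau (-a)) = MonoidHom.id _ := by
  apply hom_ext
  intro i
  have h1 := h i
  rw [derM_apply] at h1
  have h2 : tau a (inc (a i)) = inc (a i) := by
    rw [tau_eq, h1, inc_zero, one_mul]
  simp only [MonoidHom.comp_apply, tau_gen, map_mul, Pi.neg_apply, inc_neg, map_inv, h2,
    MonoidHom.id_apply]
  group

/-- uniqueness: `der (-a) = - der a` -/
theorem der_neg {n : ℕ} (a : Fin n → MM n) (g : Gam n) : der (-a) g = - der a g := by
  let f : Gam n →* Gam n :=
    { toFun := fun g => inc (- der a g) * g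
      map_one' := by rw [der_one, neg_zero, inc_zero, one_mul]
      map_mul' := fun g h => by
        simp only [der_mul, inc_neg, inc_add, inc_act]
        have h1 : inc (der a g) * (g * inc (der a h) * g⁻¹)
            = (g * inc (der a h) * g⁻¹) * inc (der a g) := by
          have := (A3_comm n).is_comm.comm ⟨inc (der a g), inc_mem _⟩
            ⟨g * inc (der a h) * g⁻¹, (A3_normal _).conj_mem _ (inc_mem _) g⟩
          exact congrArg Subtype.val this
        rw [h1]
        group }
  have hf : f = tau (-a) := by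
    apply hom_ext
    intro i
    change inc (- der a (gen i)) * gen i = _
    rw [der_gen, tau_gen]; rfl
  apply inc_inj
  have h2 : tau (-a) g = inc (- der a g) * g := by rw [← hf]; rfl
  rw [tau_eq] at h2
  exact mul_right_cancel h2

theorem derM_neg {n : ℕ} (a : Fin n → MM n) : derM (-a) = - derM a := by
  apply LinearMap.ext; intro m
  exact der_neg a (inc m)

/-- The automorphism defined by `a` when `der a` kills all `a i`. -/
def tauEquiv {n : ℕ} (a : Fin n → MM n) (h : ∀ i, derM a (a i) = 0) : Gam n ≃* Gam n :=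
  MonoidHom.toMulEquiv (tau a) (tau (-a))
    (by
      have h' : ∀ i, derM (-a) ((-a) i) = 0 := by
        intro i
        rw [derM_neg, Pi.neg_apply, map_neg, LinearMap.neg_apply, h i, neg_zero, neg_zero]
      have := tau_tau_neg (-a) h'
      rwa [neg_neg] at this)
    (tau_tau_neg a h)

theorem tauEquiv_apply {n : ℕ} (a : Fin n → MM n) (h : ∀ i, derM a (a i) = 0) (g : Gam n) :
    tauEquiv a h g = tau a g := rfl

end Pool.Agent.Helper36
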