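import Mathlib

/-!
The unimodularity identity in a ring with elements `x, y, z` such that
`x y = z y x` with `z` commuting with `x` and `y`.
-/

open scoped IsMulCommutative

namespace Pool.Agent.Helper36

/-- relation `x u = v x` -/
def Rel {R : Type*} [Ring R] (x u v : R) : Prop := x * u = v * x

theorem Rel.mul {R : Type*} [Ring R] {x u v u' v' : R} (h : Rel x u v) (h' : Rel x u' v') :
    Rel x (u * u') (v * v') := by
  unfold Rel at *
  rw [← mul_assoc, h, mul_assoc, h', mul_assoc]

theorem Rel.add {R : Type*} [Ring R] {x u v u' v' : R} (h : Rel x u v) (h' : Rel x u' v') :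
    Rel x (u + u') (v + v') := by
  unfold Rel at *
  rw [mul_add, add_mul, h, h']

theorem Rel.sub {R : Type*} [Ring R] {x u v u' v' : R} (h : Rel x u v) (h' : Rel x u' v') :
    Rel x (u - u') (v - v') := by
  unfold Rel at *
  rw [mul_sub, sub_mul, h, h']

theorem Rel.one {R : Type*} [Ring R] {x : R} : Rel x 1 1 := by
  unfold Rel; rw [mul_one, one_mul]

theorem unimodular {R : Type*} [Ring R] (x y yi z zi : R)
    (hzx : x * z = z * x) (hzy : y * z = z * y) (hxy : x * y = z * y * x)
    (hy : y * yi = 1) (hy' : yi * y = 1) (hz : z * zi = 1) (hz' : zi * z = 1) :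
    ∃ c₁ ∈ Subring.closure {x, y, yi, z, zi}, ∃ c₂ ∈ Subring.closure {x, y, yi, z, zi},
      (1 + (z - 1) * (z - 1) * (z + 1) * ((1 - y) * (1 - z * y))) * c₁ +
      (z - 1) * (z - 1) * (z + 1) * ((1 - y) * (x - z) + (z - 1)) * c₂ = 1 := by
  -- the commutative subring
  have hcomm : IsMulCommutative (Subring.closure ({y, yi, z, zi} : Set R)) := by
    have h1 : yi * z = z * yi := by
      calc yi * z = yi * z * (y * yi) := by rw [hy, mul_one]
        _ = yi * (z * y) * yi := by simp only [mul_assoc]
        _ = yi * (y * z) * yi := by rw [hzy]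
        _ = (yi * y) * (z * yi) := by simp only [mul_assoc]
        _ = z * yi := by rw [hy', one_mul]
    have h2 : y * zi = zi * y := by
      calc y * zi = (zi * z) * (y * zi) := by rw [hz', one_mul]
        _ = zi * (z * y) * zi := by simp only [mul_assoc]
        _ = zi * (y * z) * zi := by rw [hzy]
        _ = (zi * y) * (z * zi) := by simp only [mul_assoc]
        _ = zi * y := by rw [hz, mul_one]
    have h3 : yi * zi = zi * yi := by
      calc yi * zi = (zi * z) * (yi * zi) := by rw [hz', one_mul]
        _ = zi * (z * yi) * zi := by simp only [mul_assoc]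
        _ = zi * (yi * z) * zi := by rw [h1]
        _ = (zi * yi) * (z * zi) := by simp only [mul_assoc]
        _ = zi * yi := by rw [hz, mul_one]
    apply Subring.isMulCommutative_closure
    rintro u (rfl | rfl | rfl | rfl) v (rfl | rfl | rfl | rfl) <;>
      simp only [hy, hy', hz, hz', hzy, h1, h2, h3]
  let S := Subring.closure ({y, yi, z, zi} : Set R)
  let Y : S := ⟨y, Subring.subset_closure (by simp)⟩
  let Yi : S := ⟨yi, Subring.subset_closure (by simp)⟩
  let Z : S := ⟨z, Subring.subset_closure (by simp)⟩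
  let Zi : S := ⟨zi, Subring.subset_closure (by simp)⟩
  have hYYi : Y * Yi = 1 := Subtype.ext hy
  have hZZi : Z * Zi = 1 := Subtype.ext hz
  let a : S := 1 - Y
  let b : S := 1 - Z * Y
  let b' : S := 1 - Z * (Z * Y)
  let k : S := (Z - 1) * (Z - 1) * (Z + 1)
  let r : S := 1 + k * (a * b)
  let sr : S := 1 + k * (b * b')
  let sa : S := 1 - Zi * Y
  let g : S := Z * (Z - 1) * Yi * (sa * sa) * (a * a)
  let sg : S := Z * (Z - 1) * (Zi * Yi) * (a * a) * (b * b)
  let k1 : S := b * (1 - k * (a * b)) + sg
  have id1 : b + sr * sg = r * k1 := by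
    have e1 : sg = (Z - 1) * Yi * (a * a) * (b * b) := by
      simp only [sg]; linear_combination (Z - 1) * Yi * (a * a) * (b * b) * hZZi
    simp only [k1]
    rw [e1]
    simp only [sr, r, k, a, b, b']
    linear_combination (Z - 1)^2 * (Z + 1) * (1 - Z * Y) * (1 - Z^2) * (Z - 1) *
      (1 - Y)^2 * (1 - Z*Y)^2 * hYYi
  have id2 : r * (1 + k * (b * g)) - k * b * (a + r * g) = 1 := by
    simp only [r]; ring
  -- relations with x
  have RZ : Rel x (Z : R) (Z : R) := hzx
  have RY : Rel x (Y : R) ((Z * Y : S) : R) := hxy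
  have RZi : Rel x (Zi : R) (Zi : R) := by
    change x * zi = zi * x
    calc x * zi = (zi * z) * (x * zi) := by rw [hz', one_mul]
      _ = zi * (z * x) * zi := by simp only [mul_assoc]
      _ = zi * (x * z) * zi := by rw [hzx]
      _ = (zi * x) * (z * zi) := by simp only [mul_assoc]
      _ = zi * x := by rw [hz, mul_one]
  have RYi : Rel x (Yi : R) ((Zi * Yi : S) : R) := by
    change x * yi = zi * yi * x
    have e2 : (Zi * Yi) * (Z * Y) = 1 := by linear_combination Zi * Z * hYYi + hZZi
    have e3 : (zi * yi) * (z * y) = 1 := congrArg Subtype.val e2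
    calc x * yi = ((zi * yi) * (z * y)) * (x * yi) := by rw [e3, one_mul]
      _ = (zi * yi) * (z * y * x) * yi := by simp only [mul_assoc]
      _ = (zi * yi) * (x * y) * yi := by rw [hxy]
      _ = (zi * yi * x) * (y * yi) := by simp only [mul_assoc]
      _ = zi * yi * x := by rw [hy, mul_one]
  have R1 : Rel x ((1 : S) : R) ((1 : S) : R) := Rel.one
  have Ra : Rel x (a : R) (b : R) := R1.sub RY
  have Rb : Rel x (b : R) (b' : R) := R1.sub (RZ.mul RY)
  have Rk : Rel x (k : R) (k : R) := ((RZ.sub R1).mul (RZ.sub R1)).mul (RZ.add R1)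
  have Rr : Rel x (r : R) (sr : R) := R1.add (Rk.mul (Ra.mul Rb))
  have Rsa : Rel x (sa : R) (a : R) := by
    have h := R1.sub (RZi.mul RY)
    have e4 : (1 - Zi * (Z * Y) : S) = a := by
      simp only [a]; linear_combination (-Y) * hZZi
    have e5 : ((1 : S) : R) - (Zi : R) * ((Z * Y : S) : R) = (a : R) := congrArg Subtype.val e4
    rw [e5] at h
    exact h
  have Rg : Rel x (g : R) (sg : R) :=
    (((RZ.mul (RZ.sub R1)).mul RYi).mul (Rsa.mul Rsa)).mul (Ra.mul Ra)
  have Rc2 : Rel x ((a + r * g : S) : R) ((r * k1 : S) : R) := by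
    have h : Rel x ((a + r * g : S) : R) ((b + sr * sg : S) : R) := Ra.add (Rr.mul Rg)
    rwa [id1] at h
  have hSle : ∀ s : S, (s : R) ∈ Subring.closure {x, y, yi, z, zi} := by
    intro s
    refine (Subring.closure_mono ?_) s.2
    intro u hu
    exact Set.mem_insert_of_mem _ hu
  have hx : x ∈ Subring.closure {x, y, yi, z, zi} := Subring.subset_closure (by simp)
  refine ⟨((1 + k * (b * g) : S) : R) - ((k * a * k1 : S) : R) * x,
    Subring.sub_mem _ (hSle _) (Subring.mul_mem _ (hSle _) hx),
    ((a + r * g : S) : R), hSle _, ?_⟩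
  have e6 : (1 + (z - 1) * (z - 1) * (z + 1) * ((1 - y) * (1 - z * y))) = (r : R) := rfl
  have e7 : (z - 1) * (z - 1) * (z + 1) * ((1 - y) * (x - z) + (z - 1))
      = ((k * a : S) : R) * x - ((k * b : S) : R) := by
    have e8 : ((k * b : S) : R) = (k : R) * (1 - z * y) := rfl
    have e9 : ((k * a : S) : R) = (k : R) * (1 - y) := rfl
    have e10 : (z - 1) * (z - 1) * (z + 1) = (k : R) := rfl
    rw [e8, e9, e10]
    have : (1 - y) * (x - z) + (z - 1) = (1 - y) * x - (1 - z * y) := by
      rw [mul_sub, sub_mul 1 y z, hzy]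
      noncomm_ring
    rw [this]
    noncomm_ring
  rw [e6, e7]
  have e11 : (((k * a : S) : R) * x - ((k * b : S) : R)) * ((a + r * g : S) : R)
      = ((k * a * (r * k1) : S) : R) * x - ((k * b * (a + r * g) : S) : R) := by
    rw [sub_mul, mul_assoc, Rc2]
    push_cast
    noncomm_ring
  have e12 : (r : R) * (((1 + k * (b * g) : S) : R) - ((k * a * k1 : S) : R) * x)
      = ((r * (1 + k * (b * g)) : S) : R) - ((k * a * (r * k1) : S) : R) * x := by
    have e13 : (k * a * (r * k1) : S) = r * (k * a * k1) := by ring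
    rw [e13]
    push_cast
    noncomm_ring
  rw [e11, e12]
  have e14 : ((r * (1 + k * (b * g)) : S) : R) - ((k * b * (a + r * g) : S) : R) = 1 := by
    have := congrArg (Subtype.val : S → R) id2
    exact this
  rw [← e14]
  abel

end Pool.Agent.Helper36
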