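import Pool.Agent.Helper36.RelFreeSkew

/-!
The element `hword` is not primitive in rank two.
-/

open scoped commutatorElement
open SkewMonoidAlgebra

noncomputable section

namespace Pool.Agent.Helper36

/-- embedding of coefficients -/
abbrev cc : R0 →+* TT := singleOneRingHom

theorem cc_apply (f : R0) : cc f = single 1 f := rfl

theorem five_eq_zero : (5 : R0) = 0 := by
  have h2 : (5 : R0) = LaurentPolynomial.C (5 : ZMod 5) := (map_ofNat _ 5).symm
  rw [h2]
  have h3 : (5 : ZMod 5) = 0 := by decide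
  rw [h3, map_zero]

/-- `a = 1 - y` -/
def pa : R0 := 1 - yy
/-- `b = σ(a)` -/
def pb : R0 := 1 - 2 * yy
/-- `r = 1 + 3ab` -/
def pr : R0 := 1 + 3 * (pa * pb)
/-- `σ(r)` -/
def pr1 : R0 := 1 + 3 * (pb * (1 - 4 * yy))
/-- `σ^{-1}(r)` -/
def prm1 : R0 := 1 + 3 * ((1 - 3 * yy) * pa)
/-- `σ^2(r)` -/
def pr2 : R0 := 1 + 3 * ((1 - 4 * yy) * (1 - 3 * yy))

theorem s_pa : sigE pa = pb := by
  simp only [pa, pb, map_sub, map_one, sigE_yy]

theorem s_pr : sigE pr = pr1 := by
  simp only [pa, pb, pr, pr1, prm1, pr2, map_add, map_sub, map_mul, map_one, sigE_yy, map_ofNat]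
  ring

theorem s_prm1 : sigE prm1 = pr := by
  simp only [pa, pb, pr, pr1, prm1, pr2, map_add, map_sub, map_mul, map_one, sigE_yy, map_ofNat]
  linear_combination (-(3 * yy * (1 - 2 * yy))) * five_eq_zero

theorem s_pr1 : sigE pr1 = pr2 := by
  simp only [pa, pb, pr, pr1, prm1, pr2, map_add, map_sub, map_mul, map_one, sigE_yy, map_ofNat]
  linear_combination (-(3 * yy * (1 - 4 * yy))) * five_eq_zero

theorem s_pr2 : sigE pr2 = prm1 := by
  simp only [pa, pb, pr, pr1, prm1, pr2, map_add, map_sub, map_mul, map_one, sigE_yy, map_ofNat]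
  linear_combination (-(3 * (1 - 6 * yy) * yy) - 3 * (1 - 3 * yy) * yy) * five_eq_zero

theorem rho_eq (m₀ m₁ : TT) :
    rho (single g1 1) (single 1 yy) 2 m₀ m₁ =
      cc pr * m₀ + cc 3 * ((cc pa * single g1 1 - cc pb) * m₁) := by
  have h1 : (single 1 yy : TT) = cc yy := rfl
  rw [h1]
  simp only [pr, pa, pb, map_add, map_mul, map_sub, map_one, map_ofNat, rho]
  generalize cc yy = Y
  generalize (single g1 1 : TT) = X
  have e1 : (2 ^ 3 - 2 ^ 2 - 2 + 1 : TT) = 3 := by norm_num
  have e2 : (2 - 1 : TT) = 1 := by norm_num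
  have e3 : (1 - Y) * (X - 2) + 1 = (1 - Y) * X - (1 - 2 * Y) := by
    rw [mul_sub, mul_two, two_mul]; abel
  have e4 : (1 - Y) * ((1 - 2 * Y) * m₀ + (X - 2) * m₁) + 1 * m₁
      = ((1 - Y) * (1 - 2 * Y)) * m₀ + ((1 - Y) * X - (1 - 2 * Y)) * m₁ := by
    rw [← e3, mul_add, add_mul, mul_assoc, mul_assoc, add_assoc]
  rw [e1, e2, e4, add_mul 1, one_mul, mul_add 3, mul_assoc 3]
  abel

theorem X_mul_cc (f : R0) : (single g1 1 : TT) * cc f = single g1 (sigE f) := by
  rw [cc_apply, single_mul_single, smul_one, mul_one, one_mul]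

theorem cc_mul_single (f g : R0) (n : Multiplicative ℤ) : cc f * single n g = single n (f * g) := by
  rw [cc_apply, single_mul_single, one_mul, _root_.one_smul]

theorem X_mul_single1 (f : R0) : (single g1 1 : TT) * single g1 f = single (g1 * g1) (sigE f) := by
  rw [single_mul_single, smul_one, one_mul]

/-- first element of the kernel -/
theorem ker1 : rho (single g1 1 : TT) (single 1 yy) 2
    (single g1 (-(3 * (pa * pr1))) + single 1 (3 * (pb * prm1))) (single 1 (pr * prm1)) = 0 := by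
  rw [rho_eq]
  have h : (single 1 (pr * prm1) : TT) = cc (pr * prm1) := rfl
  rw [h, sub_mul, mul_assoc (cc pa), X_mul_cc, map_mul sigE, s_pr, s_prm1, ← map_mul,
    mul_add, cc_mul_single, cc_mul_single, cc_mul_single, mul_sub, cc_mul_single, ← map_mul cc,
    cc_apply]
  have e1 : (single g1 (pr * -(3 * (pa * pr1))) : TT) + single 1 (pr * (3 * (pb * prm1)))
      + (single g1 (3 * (pa * (pr1 * pr))) - single 1 (3 * (pb * (pr * prm1)))) =
      single g1 (pr * -(3 * (pa * pr1)) + 3 * (pa * (pr1 * pr))) +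
      single 1 (pr * (3 * (pb * prm1)) - (3 * (pb * (pr * prm1)))) := by
    rw [single_add, sub_eq_add_neg _ (3 * (pb * (pr * prm1))), single_add, single_neg]
    abel
  rw [e1]
  have e2 : pr * -(3 * (pa * pr1)) + 3 * (pa * (pr1 * pr)) = 0 := by ring
  have e3 : pr * (3 * (pb * prm1)) - (3 * (pb * (pr * prm1))) = 0 := by ring
  rw [e2, e3, single_zero, single_zero, add_zero]

/-- second element of the kernel -/
theorem ker2 : rho (single g1 1 : TT) (single 1 yy) 2
    (single (g1 * g1) (-(3 * (pa * pb * pr2))) + single 1 (3 * (pa * pb * pr2)))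
    (single 1 (pa * (pr * pr2)) + single g1 (pa * (prm1 * pr1))) = 0 := by
  rw [rho_eq]
  have h : (single 1 (pa * (pr * pr2)) : TT) = cc (pa * (pr * pr2)) := rfl
  rw [h, mul_add (cc pa * single g1 1 - cc pb), sub_mul, sub_mul, mul_assoc (cc pa),
    mul_assoc (cc pa), X_mul_cc, X_mul_single1, map_mul sigE, map_mul sigE, map_mul sigE,
    map_mul sigE, s_pa, s_pr, s_prm1, s_pr1, s_pr2, mul_add, cc_mul_single, cc_mul_single,
    cc_mul_single, cc_mul_single, cc_mul_single, ← map_mul cc, cc_apply (pb * (pa * (pr * pr2))),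
    mul_add, mul_sub, mul_sub, cc_mul_single, cc_mul_single, cc_mul_single, cc_mul_single]
  have e1 : (single (g1 * g1) (pr * -(3 * (pa * pb * pr2))) : TT) + single 1 (pr * (3 * (pa * pb * pr2))) +
      (single g1 (3 * (pa * (pb * (pr1 * prm1)))) - single 1 (3 * (pb * (pa * (pr * pr2)))) +
        (single (g1 * g1) (3 * (pa * (pb * (pr * pr2)))) - single g1 (3 * (pb * (pa * (prm1 * pr1)))))) =
      single (g1 * g1) (pr * -(3 * (pa * pb * pr2)) + 3 * (pa * (pb * (pr * pr2)))) +
      single 1 (pr * (3 * (pa * pb * pr2)) - 3 * (pb * (pa * (pr * pr2)))) +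
      single g1 (3 * (pa * (pb * (pr1 * prm1))) - 3 * (pb * (pa * (prm1 * pr1)))) := by
    rw [single_add, sub_eq_add_neg (pr * (3 * (pa * pb * pr2))), single_add, single_neg,
      sub_eq_add_neg (3 * (pa * (pb * (pr1 * prm1)))), single_add, single_neg]
    abel
  rw [e1]
  have e2 : pr * -(3 * (pa * pb * pr2)) + 3 * (pa * (pb * (pr * pr2))) = 0 := by ring
  have e3 : pr * (3 * (pa * pb * pr2)) - 3 * (pb * (pa * (pr * pr2))) = 0 := by ring
  have e4 : 3 * (pa * (pb * (pr1 * prm1))) - 3 * (pb * (pa * (prm1 * pr1))) = 0 := by ring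
  rw [e2, e3, e4, single_zero, single_zero, single_zero, add_zero, add_zero]

theorem ev_pr : ev pr = 0 := by
  simp only [pr, pa, pb, map_add, map_sub, map_mul, map_one, map_ofNat, ev_yy]; decide

theorem ev_pb : ev pb = 2 := by
  simp only [pb, map_sub, map_mul, map_one, map_ofNat, ev_yy]; decide

theorem ev_w : ev (pa * (prm1 * pr1)) = 1 := by
  simp only [prm1, pr1, pa, pb, map_add, map_sub, map_mul, map_one, map_ofNat, ev_yy]; decide

/-- evaluation at `y = 1` -/
def ev1 : R0 →+* ZMod 5 := LaurentPolynomial.eval₂ (RingHom.id _) 1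

theorem ev1_yy : ev1 yy = 1 := by simp [ev1]

theorem c_ne_zero : pr * prm1 ≠ 0 := by
  intro h
  have h1 := congrArg ev1 h
  simp only [pr, prm1, pa, pb, map_add, map_sub, map_mul, map_one, map_ofNat, ev1_yy, map_zero] at h1
  revert h1; decide

theorem not_prim_two (φ : Gam 2 ≃* Gam 2) (i : Fin 2) :
    φ (gen i) ≠ hword (gen 0) (gen 1) := by
  intro h
  obtain ⟨k₀, k₁, hk, hm⟩ := core HH_law ⟨Xu, Subgroup.subset_closure (by simp)⟩
    ⟨Yu, Subgroup.subset_closure (by simp)⟩ φ i h
  have hZ : ((((⁅(⟨Xu, Subgroup.subset_closure (by simp)⟩ : HH),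
      (⟨Yu, Subgroup.subset_closure (by simp)⟩ : HH)⁆ : HH) : TTˣ)) : TT) = 2 := by
    change ((⁅Xu, Yu⁆ : TTˣ) : TT) = 2
    rw [comm_Xu_Yu]; rfl
  rw [hZ] at hk hm
  change rho (single g1 1 : TT) (single 1 yy) 2 k₀ k₁ = 0 at hk
  change ∀ m₀ m₁ : TT, rho (single g1 1 : TT) (single 1 yy) 2 m₀ m₁ = 0 →
    ∃ τ : TT, m₀ = k₀ * τ ∧ m₁ = k₁ * τ at hm
  obtain ⟨τ₁, _, h1⟩ := hm _ _ ker1
  obtain ⟨τ₂, _, h2⟩ := hm _ _ ker2
  obtain ⟨n, f, rfl⟩ := mono_of_mul_single c_ne_zero h1.symm
  -- the value of `f` at `y = 2` is zero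
  have hf : ev f = 0 := by
    rw [rho_eq] at hk
    have h3 := congrArg (fun u : TT => u.coeff n) hk
    simp only [coeff_add, coeff_zero, sub_mul, mul_sub, coeff_sub, mul_assoc,
      Finsupp.add_apply, Finsupp.sub_apply, Finsupp.zero_apply] at h3
    rw [cc_mul_single, cc_mul_single, single_mul_single, cc_mul_single, cc_mul_single,
      coeff_single, coeff_single, Finsupp.single_eq_same, Finsupp.single_eq_of_ne, cc_apply,
      coeff_single_one_mul] at h3
    · have h4 := congrArg ev h3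
      simp only [map_add, map_sub, map_mul, ev_pr, ev_pb, map_zero, map_ofNat, zero_mul] at h4
      have h5 : (3 : ZMod 5) * (2 * ev f) = ev f := by
        rw [← mul_assoc]
        have : (3 * 2 : ZMod 5) = 1 := by decide
        rw [this, one_mul]
      rw [h5] at h4
      have h6 : 0 + (0 - ev f) = - ev f := by ring
      rw [h6] at h4
      exact neg_eq_zero.1 h4
    · intro h0
      have h7 : g1 = 1 := by
        have := congrArg (fun z => z * n⁻¹) h0
        simpa using this.symm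
      have h8 : (1 : ℤ) = 0 := h7
      exact absurd h8 (by norm_num)
  have h9 := congrArg (fun u : TT => ev (u.coeff g1)) h2
  have hg1 : g1 ≠ (1 : Multiplicative ℤ) := by
    intro h0
    have h8 : (1 : ℤ) = 0 := h0
    exact absurd h8 (by norm_num)
  simp only [coeff_add, Finsupp.add_apply, coeff_single_mul, map_mul, hf, zero_mul] at h9
  rw [coeff_single, coeff_single, Finsupp.single_eq_same, Finsupp.single_eq_of_ne hg1, zero_add,
    ev_w] at h9
  exact absurd h9 (by decide)

end Pool.Agent.Helper36
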