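import Pool.Agent.Helper36.RelFreeDer
import Pool.Agent.Helper36.RelFreeId
import Pool.Agent.Helper36.RelFreeAff

/-!
The element `h` becomes primitive in rank three.
-/

open scoped commutatorElement IsMulCommutative

namespace Pool.Agent.Helper36

section rank3

/-- abbreviations -/
abbrev gx : Gam 3 := gen 0
/-- abbreviations -/
abbrev gy : Gam 3 := gen 1
/-- abbreviations -/
abbrev gt : Gam 3 := gen 2
/-- abbreviations -/
abbrev gz : Gam 3 := ⁅gx, gy⁆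

theorem triple_mem {n : ℕ} (a b c : Gam n) : ⁅⁅a, b⁆, c⁆ ∈ A3 (Gam n) :=
  Subgroup.subset_closure ⟨a, b, c, rfl⟩

/-- `[z,t]` -/
def Et : MM 3 := mkM ⁅gz, gt⁆ (triple_mem _ _ _)
/-- `[z,y]` -/
def Ey : MM 3 := mkM ⁅gz, gy⁆ (triple_mem _ _ _)

theorem act_z_comm (g : Gam 3) : act gz * act g = act g * act gz := by
  have h : gz * g = ⁅gz, g⁆ * (g * gz) := by rw [commutatorElement_def]; group
  rw [← map_mul, h, map_mul, act_eq_one (triple_mem _ _ _), one_mul, map_mul]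

theorem act_xy : act gx * act gy = act gz * act gy * act gx := by
  rw [← map_mul, ← map_mul, ← map_mul]
  have h : gx * gy = gz * gy * gx := by
    change gx * gy = ⁅gx, gy⁆ * gy * gx
    rw [commutatorElement_def]; group
  rw [← h]

theorem act_conj_xy : act (gx * gy * gx⁻¹) = act gz * act gy := by
  rw [← map_mul]
  have h : gx * gy * gx⁻¹ = gz * gy := by
    change gx * gy * gx⁻¹ = ⁅gx, gy⁆ * gy
    rw [commutatorElement_def]; group
  rw [← h]

/-- derivation of `z` -/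
theorem der_z (a : Fin 3 → MM 3) :
    der a gz = (1 - act gz * act gy) (der a gx) + (act gx - act gz) (der a gy) := by
  rw [der_comm, act_conj_xy]
  simp only [LinearMap.sub_apply, Module.End.one_apply]
  abel

/-- derivation of `[z,g]` -/
theorem der_zg (a : Fin 3 → MM 3) (g : Gam 3) :
    der a ⁅gz, g⁆ = (1 - act g) (der a gz) + (act gz - 1) (der a g) := by
  rw [der_comm, act_eq_one (triple_mem gx gy g)]
  have h : act (gz * g * gz⁻¹) = act g := by
    have h2 : gz * g * gz⁻¹ = ⁅gz, g⁆ * g := by rw [commutatorElement_def]; group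
    rw [h2, map_mul, act_eq_one (triple_mem gx gy g), one_mul]
  rw [h]
  simp only [LinearMap.sub_apply, Module.End.one_apply]
  abel

theorem derM_Et (a : Fin 3 → MM 3) :
    derM a Et = (1 - act gt) ((1 - act gz * act gy) (a 0) + (act gx - act gz) (a 1))
      + (act gz - 1) (a 2) := by
  rw [derM_apply, Et, inc_mkM, der_zg, der_z]
  simp only [der_gen]

theorem derM_Ey (a : Fin 3 → MM 3) :
    derM a Ey = (1 - act gy) ((1 - act gz * act gy) (a 0) + (act gx - act gz) (a 1))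
      + (act gz - 1) (a 1) := by
  rw [derM_apply, Ey, inc_mkM, der_zg, der_z]
  simp only [der_gen]

theorem derM_comm_closure (a : Fin 3 → MM 3) {c : EE 3}
    (hc : c ∈ Subring.closure (Set.range (act : Gam 3 → EE 3))) :
    derM a * c = c * derM a := by
  induction hc using Subring.closure_induction with
  | mem x hx => obtain ⟨g, rfl⟩ := hx; exact derM_act a g
  | zero => rw [mul_zero, zero_mul]
  | one => rw [mul_one, one_mul]
  | add x y _ _ hx hy => rw [mul_add, add_mul, hx, hy]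
  | neg x _ hx => rw [mul_neg, neg_mul, hx]
  | mul x y _ _ hx hy => rw [← mul_assoc, hx, mul_assoc, hy, mul_assoc]

theorem act_mem (g : Gam 3) : act g ∈ Subring.closure (Set.range (act : Gam 3 → EE 3)) :=
  Subring.subset_closure ⟨g, rfl⟩

/-- If `derM a e = 0` and all `a i` are multiples of `e`, then `derM a (a i) = 0`. -/
theorem derM_mult (a : Fin 3 → MM 3) (e : MM 3) (he : derM a e = 0) {c : EE 3}
    (hc : c ∈ Subring.closure (Set.range (act : Gam 3 → EE 3))) : derM a (c e) = 0 := by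
  rw [← Module.End.mul_apply, derM_comm_closure a hc, Module.End.mul_apply, he, map_zero]


theorem alg_eZ {R : Type*} [Ring R] {Z U : R} (h : Z * U = U * Z) :
    (Z - 1) * U = U * (Z - 1) := by
  rw [sub_mul, mul_sub, one_mul, mul_one, h]

theorem alg_one_sub {R : Type*} [Ring R] {Z U : R} (h : Z * U = U * Z) :
    (Z - 1) * (1 - U) = (1 - U) * (Z - 1) := by
  apply alg_eZ
  rw [sub_mul, mul_sub, one_mul, mul_one, h]

theorem alg1 {R : Type*} [Ring R] {Y Z T : R} (hZY : Z * Y = Y * Z) (hZT : Z * T = T * Z) :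
    (1 - T) * ((1 - Z * Y) * (Z - 1)) + (Z - 1) * ((T - 1) * (1 - Z * Y)) = 0 := by
  have e0 : Z * (Z * Y) = (Z * Y) * Z := by rw [hZY, ← mul_assoc, hZY]
  have e1 : (Z - 1) * (1 - Z * Y) = (1 - Z * Y) * (Z - 1) := alg_one_sub e0
  have e2 : (Z - 1) * (1 - T) = (1 - T) * (Z - 1) := alg_one_sub hZT
  have e3 : (T - 1) = - (1 - T) := by abel
  rw [e3, neg_mul, mul_neg, ← mul_assoc (Z - 1), e2, mul_assoc, e1]
  abel

theorem alg3 {R : Type*} [Ring R] {X Y Z T : R} (c₁ c₂ : R)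
    (hZX : Z * X = X * Z) (hZY : Z * Y = Y * Z) (hZT : Z * T = T * Z) :
    (1 - T) * ((1 - Z * Y) * (-((Z - 1) * c₁)) + (X - Z) * (-((Z - 1) * c₂)))
      + (Z - 1) * (-((T - 1) * ((1 - Z * Y) * c₁ + (X - Z) * c₂))) = 0 := by
  have e0 : Z * (Z * Y) = (Z * Y) * Z := by rw [hZY, ← mul_assoc, hZY]
  have e1 : (Z - 1) * (1 - Z * Y) = (1 - Z * Y) * (Z - 1) := alg_one_sub e0
  have e1' : (Z - 1) * (X - Z) = (X - Z) * (Z - 1) := by
    apply alg_eZ; rw [mul_sub, sub_mul, hZX]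
  have e2 : (Z - 1) * (1 - T) = (1 - T) * (Z - 1) := alg_one_sub hZT
  have e3 : (T - 1) = - (1 - T) := by abel
  have e4 : (1 - Z * Y) * (-((Z - 1) * c₁)) = - ((Z - 1) * ((1 - Z * Y) * c₁)) := by
    rw [mul_neg, ← mul_assoc, ← e1, mul_assoc]
  have e5 : (X - Z) * (-((Z - 1) * c₂)) = - ((Z - 1) * ((X - Z) * c₂)) := by
    rw [mul_neg, ← mul_assoc, ← e1', mul_assoc]
  rw [e4, e5, e3, neg_mul, neg_neg, ← mul_assoc (Z - 1) (1 - T), e2, ← neg_add, ← mul_add, mul_neg,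
    mul_assoc]
  abel

theorem alg4 {R : Type*} [Ring R] {X Y Z : R} (c₁ c₂ : R)
    (hZX : Z * X = X * Z) (hZY : Z * Y = Y * Z) :
    (1 - Y) * ((1 - Z * Y) * (-((Z - 1) * c₁)) + (X - Z) * (-((Z - 1) * c₂)))
      + (Z - 1) * (-((Z - 1) * c₂)) = -((Z - 1) * ((1 - Y) * ((1 - Z * Y) * c₁ + (X - Z) * c₂)
      + (Z - 1) * c₂)) := by
  have e0 : Z * (Z * Y) = (Z * Y) * Z := by rw [hZY, ← mul_assoc, hZY]
  have e1 : (Z - 1) * (1 - Z * Y) = (1 - Z * Y) * (Z - 1) := alg_one_sub e0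
  have e1' : (Z - 1) * (X - Z) = (X - Z) * (Z - 1) := by
    apply alg_eZ; rw [mul_sub, sub_mul, hZX]
  have e2 : (Z - 1) * (1 - Y) = (1 - Y) * (Z - 1) := alg_one_sub hZY
  have e4 : (1 - Z * Y) * (-((Z - 1) * c₁)) = - ((Z - 1) * ((1 - Z * Y) * c₁)) := by
    rw [mul_neg, ← mul_assoc, ← e1, mul_assoc]
  have e5 : (X - Z) * (-((Z - 1) * c₂)) = - ((Z - 1) * ((X - Z) * c₂)) := by
    rw [mul_neg, ← mul_assoc, ← e1', mul_assoc]
  rw [e4, e5, mul_add (Z - 1) ((1 - Y) * _), ← mul_assoc (Z - 1) (1 - Y), e2, ← neg_add,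
    ← mul_add, mul_neg, mul_assoc (1 - Y), mul_neg]
  abel

theorem alg5 {R : Type*} [Ring R] {X Y Z : R} (c₁ c₂ : R)
    (hc : (1 + (Z - 1) * (Z - 1) * (Z + 1) * ((1 - Y) * (1 - Z * Y))) * c₁ +
      (Z - 1) * (Z - 1) * (Z + 1) * ((1 - Y) * (X - Z) + (Z - 1)) * c₂ = 1) :
    (((Z - 1) * ((Z - 1) * (Z + 1))) * (-((Z - 1) * ((1 - Y) * ((1 - Z * Y) * c₁
      + (X - Z) * c₂) + (Z - 1) * c₂)))) + (Z - 1) + (-((Z - 1) * c₁)) = 0 := by
  have h2 : (Z - 1) * ((Z - 1) * (Z + 1)) * (Z - 1) = (Z - 1) * ((Z - 1) * (Z - 1) * (Z + 1)) := by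
    noncomm_ring
  have h3 : (((Z - 1) * ((Z - 1) * (Z + 1))) * (-((Z - 1) * ((1 - Y) * ((1 - Z * Y) * c₁
      + (X - Z) * c₂) + (Z - 1) * c₂)))) = - ((Z - 1) * (((Z - 1) * (Z - 1) * (Z + 1)) *
       ((1 - Y) * ((1 - Z * Y) * c₁ + (X - Z) * c₂) + (Z - 1) * c₂))) := by
    rw [mul_neg, ← mul_assoc, h2, mul_assoc]
  rw [h3]
  have h4 : 1 - c₁ = ((Z - 1) * (Z - 1) * (Z + 1)) *
       ((1 - Y) * ((1 - Z * Y) * c₁ + (X - Z) * c₂) + (Z - 1) * c₂) := by
    nth_rewrite 1 [← hc]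
    generalize (Z - 1) * (Z - 1) * (Z + 1) = k
    simp only [mul_add, add_mul, mul_assoc, one_mul]
    abel
  rw [← h4, mul_sub, mul_one]
  abel

theorem alg6 {R : Type*} [Ring R] (Z : R) :
    (Z - 1) * ((Z - 1) * (Z + 1)) = Z ^ 3 - Z ^ 2 - Z + 1 := by
  noncomm_ring

set_option maxHeartbeats 1000000 in
theorem prim_three : ∃ ψ : Gam 3 ≃* Gam 3, ψ gx = hword gx gy := by
  obtain ⟨X, hX⟩ : ∃ X : EE 3, X = act gx := ⟨_, rfl⟩
  obtain ⟨Y, hY⟩ : ∃ X : EE 3, X = act gy := ⟨_, rfl⟩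
  obtain ⟨Z, hZ⟩ : ∃ X : EE 3, X = act gz := ⟨_, rfl⟩
  obtain ⟨T, hT⟩ : ∃ X : EE 3, X = act gt := ⟨_, rfl⟩
  have hZX : Z * X = X * Z := by rw [hZ, hX]; exact act_z_comm gx
  have hZY : Z * Y = Y * Z := by rw [hZ, hY]; exact act_z_comm gy
  have hZT : Z * T = T * Z := by rw [hZ, hT]; exact act_z_comm gt
  have hXY : X * Y = Z * Y * X := by rw [hZ, hX, hY]; exact act_xy
  have memX : X ∈ Subring.closure (Set.range (act : Gam 3 → EE 3)) := by rw [hX]; exact act_mem _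
  have memY : Y ∈ Subring.closure (Set.range (act : Gam 3 → EE 3)) := by rw [hY]; exact act_mem _
  have memZ : Z ∈ Subring.closure (Set.range (act : Gam 3 → EE 3)) := by rw [hZ]; exact act_mem _
  have memT : T ∈ Subring.closure (Set.range (act : Gam 3 → EE 3)) := by rw [hT]; exact act_mem _
  have mem1 : (1 : EE 3) ∈ Subring.closure (Set.range (act : Gam 3 → EE 3)) := Subring.one_mem _
  have dEt : ∀ a : Fin 3 → MM 3, derM a Et = (1 - T) ((1 - Z * Y) (a 0) + (X - Z) (a 1))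
      + (Z - 1) (a 2) := by
    intro a; rw [hT, hX, hY, hZ]; exact derM_Et a
  have dEy : ∀ a : Fin 3 → MM 3, derM a Ey = (1 - Y) ((1 - Z * Y) (a 0) + (X - Z) (a 1))
      + (Z - 1) (a 1) := by
    intro a; rw [hX, hY, hZ]; exact derM_Ey a
  obtain ⟨c₁, hc₁, c₂, hc₂, hc⟩ := unimodular X Y (act gy⁻¹) Z (act gz⁻¹)
    hZX.symm hZY.symm hXY
    (by rw [hY, ← map_mul, mul_inv_cancel, map_one])
    (by rw [hY, ← map_mul, inv_mul_cancel, map_one])
    (by rw [hZ, ← map_mul, mul_inv_cancel, map_one])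
    (by rw [hZ, ← map_mul, inv_mul_cancel, map_one])
  have hsub : Subring.closure {X, Y, act gy⁻¹, Z, act gz⁻¹} ≤
      Subring.closure (Set.range (act : Gam 3 → EE 3)) := by
    apply Subring.closure_mono
    rintro u (rfl | rfl | rfl | rfl | rfl)
    · exact ⟨_, hX.symm⟩
    · exact ⟨_, hY.symm⟩
    · exact ⟨_, rfl⟩
    · exact ⟨_, hZ.symm⟩
    · exact ⟨_, rfl⟩
  have memc₁ := hsub hc₁
  have memc₂ := hsub hc₂
  -- first automorphism
  let a₁ : Fin 3 → MM 3 := ![(Z - 1) Et, 0, ((T - 1) * (1 - Z * Y)) Et]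
  have hE₁ : derM a₁ Et = 0 := by
    rw [dEt]
    change (1 - T) ((1 - Z * Y) ((Z - 1) Et) + (X - Z) 0)
      + (Z - 1) (((T - 1) * (1 - Z * Y)) Et) = 0
    rw [map_zero, add_zero]
    change ((1 - T) * ((1 - Z * Y) * (Z - 1)) + (Z - 1) * ((T - 1) * (1 - Z * Y))) Et = 0
    rw [alg1 hZY hZT]; rfl
  have h₁ : ∀ i, derM a₁ (a₁ i) = 0 := by
    intro i
    fin_cases i
    · exact derM_mult a₁ Et hE₁ (Subring.sub_mem _ memZ mem1)
    · exact map_zero _
    · exact derM_mult a₁ Et hE₁ (Subring.mul_mem _ (Subring.sub_mem _ memT mem1)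
        (Subring.sub_mem _ mem1 (Subring.mul_mem _ memZ memY)))
  -- second automorphism
  let a₂ : Fin 3 → MM 3 := ![0, 0, (Z + 1) Ey]
  have hE₂ : derM a₂ Ey = 0 := by
    rw [dEy]
    change (1 - Y) ((1 - Z * Y) 0 + (X - Z) 0) + (Z - 1) 0 = 0
    simp only [map_zero, add_zero]
  have h₂ : ∀ i, derM a₂ (a₂ i) = 0 := by
    intro i
    fin_cases i
    · exact map_zero _
    · exact map_zero _
    · exact derM_mult a₂ Ey hE₂ (Subring.add_mem _ memZ mem1)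
  have hE₂t : derM a₂ Et = ((Z - 1) * (Z + 1)) Ey := by
    rw [dEt]
    change (1 - T) ((1 - Z * Y) 0 + (X - Z) 0) + (Z - 1) ((Z + 1) Ey) = _
    simp only [map_zero, add_zero, zero_add]
    rfl
  -- third automorphism
  let a₃ : Fin 3 → MM 3 := ![(-((Z - 1) * c₁)) Et, (-((Z - 1) * c₂)) Et,
    (-((T - 1) * ((1 - Z * Y) * c₁ + (X - Z) * c₂))) Et]
  have hE₃ : derM a₃ Et = 0 := by
    rw [dEt]
    change ((1 - T) * ((1 - Z * Y) * (-((Z - 1) * c₁)) + (X - Z) * (-((Z - 1) * c₂)))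
      + (Z - 1) * (-((T - 1) * ((1 - Z * Y) * c₁ + (X - Z) * c₂)))) Et = 0
    rw [alg3 c₁ c₂ hZX hZY hZT]; rfl
  have h₃ : ∀ i, derM a₃ (a₃ i) = 0 := by
    intro i
    fin_cases i
    · exact derM_mult a₃ Et hE₃ (Subring.neg_mem _ (Subring.mul_mem _
        (Subring.sub_mem _ memZ mem1) memc₁))
    · exact derM_mult a₃ Et hE₃ (Subring.neg_mem _ (Subring.mul_mem _
        (Subring.sub_mem _ memZ mem1) memc₂))
    · exact derM_mult a₃ Et hE₃ (Subring.neg_mem _ (Subring.mul_mem _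
        (Subring.sub_mem _ memT mem1) (Subring.add_mem _
          (Subring.mul_mem _ (Subring.sub_mem _ mem1 (Subring.mul_mem _ memZ memY)) memc₁)
          (Subring.mul_mem _ (Subring.sub_mem _ memX memZ) memc₂))))
  have hE₃y : derM a₃ Ey = (-((Z - 1) * ((1 - Y) * ((1 - Z * Y) * c₁ + (X - Z) * c₂)
      + (Z - 1) * c₂))) Et := by
    rw [dEy, ← alg4 c₁ c₂ hZX hZY]
    rfl
  -- composition
  refine ⟨((tauEquiv a₁ h₁).trans (tauEquiv a₂ h₂)).trans (tauEquiv a₃ h₃), ?_⟩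
  change tau a₃ (tau a₂ (tau a₁ gx)) = _
  have s1 : tau a₁ gx = inc ((Z - 1) Et) * gx := tau_gen a₁ 0
  have s2 : tau a₂ gx = gx := by
    rw [tau_gen a₂ 0]
    change inc (0 : MM 3) * _ = _
    rw [inc_zero, one_mul]
  have s2' : tau a₂ (inc ((Z - 1) Et)) = inc ((Z - 1) Et + ((Z - 1) * ((Z - 1) * (Z + 1))) Ey) := by
    have e : der a₂ (inc ((Z - 1) Et)) = ((Z - 1) * ((Z - 1) * (Z + 1))) Ey := by
      change (derM a₂ * (Z - 1)) Et = _
      rw [derM_comm_closure a₂ (Subring.sub_mem _ memZ mem1), Module.End.mul_apply, hE₂t]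
      rfl
    rw [tau_eq, ← inc_add, e, add_comm]
  have s3 : tau a₃ gx = inc ((-((Z - 1) * c₁)) Et) * gx := tau_gen a₃ 0
  have s3' : ∀ m : MM 3, tau a₃ (inc m) = inc (derM a₃ m + m) := by
    intro m
    rw [tau_eq, ← inc_add, ← derM_apply]
  have memk : (Z - 1) * ((Z - 1) * (Z + 1)) ∈
      Subring.closure (Set.range (act : Gam 3 → EE 3)) :=
    Subring.mul_mem _ (Subring.sub_mem _ memZ mem1) (Subring.mul_mem _
      (Subring.sub_mem _ memZ mem1) (Subring.add_mem _ memZ mem1))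
  have e5 : derM a₃ ((Z - 1) Et) = 0 :=
    derM_mult a₃ Et hE₃ (Subring.sub_mem _ memZ mem1)
  have e6 : derM a₃ (((Z - 1) * ((Z - 1) * (Z + 1))) Ey) =
      (((Z - 1) * ((Z - 1) * (Z + 1))) * (-((Z - 1) * ((1 - Y) * ((1 - Z * Y) * c₁ + (X - Z) * c₂)
      + (Z - 1) * c₂)))) Et := by
    change (derM a₃ * ((Z - 1) * ((Z - 1) * (Z + 1)))) Ey = _
    rw [derM_comm_closure a₃ memk, Module.End.mul_apply, hE₃y]
    rfl
  have key := alg5 c₁ c₂ hc
  have key2 : (0 + (((Z - 1) * ((Z - 1) * (Z + 1))) * (-((Z - 1) * ((1 - Y) * ((1 - Z * Y) * c₁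
      + (X - Z) * c₂) + (Z - 1) * c₂)))) Et + ((Z - 1) Et + ((Z - 1) * ((Z - 1) * (Z + 1))) Ey)
      + (-((Z - 1) * c₁)) Et) = ((Z - 1) * ((Z - 1) * (Z + 1))) Ey := by
    have h5 := congrArg (fun f : EE 3 => f Et) key
    simp only [LinearMap.add_apply, LinearMap.zero_apply] at h5
    rw [zero_add]
    calc _ = ((((Z - 1) * ((Z - 1) * (Z + 1))) * (-((Z - 1) * ((1 - Y) * ((1 - Z * Y) * c₁
      + (X - Z) * c₂) + (Z - 1) * c₂)))) Et + (Z - 1) Et + (-((Z - 1) * c₁)) Et)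
        + ((Z - 1) * ((Z - 1) * (Z + 1))) Ey := by abel
      _ = _ := by rw [h5, zero_add]
  have key3 : ((Z - 1) * ((Z - 1) * (Z + 1))) Ey = act (gz ^ 3) Ey + -(act (gz ^ 2) Ey)
      + -(act gz Ey) + Ey := by
    rw [alg6, hZ, ← map_pow, ← map_pow]
    simp only [LinearMap.add_apply, LinearMap.sub_apply, Module.End.one_apply]
    abel
  rw [s1, map_mul, s2, s2', map_mul, s3, s3', ← mul_assoc, ← inc_add, map_add, e5, e6, key2, key3]
  simp only [inc_add, inc_neg, inc_act, hword]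
  rfl

end rank3

end Pool.Agent.Helper36
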