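import Pool.Agent.Helper36.RelFreeAff

/-!
A skew Laurent polynomial ring over `F_5[y,1/y]` in which the element is seen not to be primitive.
-/

open scoped commutatorElement

noncomputable section

namespace Pool.Agent.Helper36

section degree

variable {k : Type*} [CommRing k] [IsDomain k] {G : Type*} [CommGroup G] [LinearOrder G]
  [IsOrderedMonoid G] [MulSemiringAction G k]

open SkewMonoidAlgebra

omit [IsDomain k] [LinearOrder G] [IsOrderedMonoid G] in
theorem coeff_top (u v : SkewMonoidAlgebra k G) (N M : G) (hN : N ∈ u.support)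
    (hNmax : ∀ a ∈ u.support, a ≠ N → v.coeff (a⁻¹ * (N * M)) = 0) :
    (u * v).coeff (N * M) = u.coeff N * N • v.coeff M := by
  rw [coeff_mul_left, sum_def', Finset.sum_eq_single N]
  · rw [inv_mul_cancel_left]
  · intro b hb hbN
    rw [hNmax b hb hbN, smul_zero, mul_zero]
  · intro h
    exact absurd hN h

theorem mono_of_mul_single {u v : SkewMonoidAlgebra k G} {c : k} (hc : c ≠ 0)
    (h : u * v = single 1 c) : ∃ n f, u = single n f := by
  have hu : u ≠ 0 := by
    rintro rfl
    rw [zero_mul] at h
    exact hc (single_eq_zero.1 h.symm)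
  have hv : v ≠ 0 := by
    rintro rfl
    rw [mul_zero] at h
    exact hc (single_eq_zero.1 h.symm)
  have hus : u.support.Nonempty := by
    rw [Finset.nonempty_iff_ne_empty]; intro h0; exact hu (support_eq_empty.1 h0)
  have hvs : v.support.Nonempty := by
    rw [Finset.nonempty_iff_ne_empty]; intro h0; exact hv (support_eq_empty.1 h0)
  have hNu := u.support.max'_mem hus
  have hMv := v.support.max'_mem hvs
  have hNu' := u.support.min'_mem hus
  have hMv' := v.support.min'_mem hvs
  set N := u.support.max' hus with hN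
  set M := v.support.max' hvs with hM
  set N' := u.support.min' hus with hN'
  set M' := v.support.min' hvs with hM'
  have nz : ∀ (a b : G), a ∈ u.support → b ∈ v.support → u.coeff a * a • v.coeff b ≠ 0 := by
    intro a b ha hb
    apply mul_ne_zero (mem_support_iff.1 ha)
    intro h0
    apply mem_support_iff.1 hb
    have := congrArg (fun z => a⁻¹ • z) h0
    simpa using this
  have h1 : (u * v).coeff (N * M) ≠ 0 := by
    rw [coeff_top u v N M hNu]
    · exact nz _ _ hNu hMv
    · intro a ha haN
      rw [← notMem_support_iff]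
      intro hmem
      have h2 : a⁻¹ * (N * M) ≤ M := v.support.le_max' _ hmem
      have h3 : a < N := lt_of_le_of_ne (u.support.le_max' _ ha) haN
      have h4 : a * M < N * M := mul_lt_mul_left h3 M
      have h5 : N * M ≤ a * M := by
        calc N * M = a * (a⁻¹ * (N * M)) := by rw [mul_inv_cancel_left]
          _ ≤ a * M := mul_le_mul_right h2 a
      exact absurd h4 (not_lt.2 h5)
  have h1' : (u * v).coeff (N' * M') ≠ 0 := by
    rw [coeff_top u v N' M' hNu']
    · exact nz _ _ hNu' hMv'
    · intro a ha haN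
      rw [← notMem_support_iff]
      intro hmem
      have h2 : M' ≤ a⁻¹ * (N' * M') := v.support.min'_le _ hmem
      have h3 : N' < a := lt_of_le_of_ne (u.support.min'_le _ ha) haN.symm
      have h4 : N' * M' < a * M' := mul_lt_mul_left h3 M'
      have h5 : a * M' ≤ N' * M' := by
        calc a * M' ≤ a * (a⁻¹ * (N' * M')) := mul_le_mul_right h2 a
          _ = N' * M' := by rw [mul_inv_cancel_left]
      exact absurd h4 (not_lt.2 h5)
  rw [h] at h1 h1'
  have e1 : N * M = 1 := by
    by_contra hne
    apply h1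
    rw [coeff_single]
    exact Finsupp.single_eq_of_ne hne
  have e2 : N' * M' = 1 := by
    by_contra hne
    apply h1'
    rw [coeff_single]
    exact Finsupp.single_eq_of_ne hne
  have h6 : N' ≤ N := u.support.min'_le _ hNu
  have h7 : M' ≤ M := v.support.min'_le _ hMv
  have h8 : N = N' := by
    apply le_antisymm _ h6
    have h9 : N * M' ≤ N * M := mul_le_mul_right h7 N
    have h10 : N * M' ≤ N' * M' := by rw [e2, ← e1]; exact h9
    exact le_of_mul_le_mul_right' h10
  refine ⟨N, u.coeff N, ?_⟩
  apply SkewMonoidAlgebra.ext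
  intro a
  rw [coeff_single]
  by_cases ha : a = N
  · rw [ha, Finsupp.single_eq_same]
  · rw [Finsupp.single_eq_of_ne ha]
    rw [← notMem_support_iff]
    intro hmem
    apply ha
    apply le_antisymm (u.support.le_max' _ hmem)
    have := u.support.min'_le _ hmem
    rw [← hN', ← h8] at this
    exact this

end degree

/-- Laurent polynomials over `F_5`. -/
abbrev R0 : Type := LaurentPolynomial (ZMod 5)

/-- the unit `2` of `F_5` -/
def two5 : (ZMod 5)ˣ := ⟨2, 3, by decide, by decide⟩

/-- the unit `c T` -/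
def uT (c : (ZMod 5)ˣ) : R0ˣ where
  val := LaurentPolynomial.C (c : ZMod 5) * LaurentPolynomial.T 1
  inv := LaurentPolynomial.C ((c⁻¹ : (ZMod 5)ˣ) : ZMod 5) * LaurentPolynomial.T (-1)
  val_inv := by
    have h : (LaurentPolynomial.C (c : ZMod 5) * LaurentPolynomial.T 1) *
        (LaurentPolynomial.C ((c⁻¹ : (ZMod 5)ˣ) : ZMod 5) * LaurentPolynomial.T (-1)) =
        LaurentPolynomial.C ((c : ZMod 5) * ((c⁻¹ : (ZMod 5)ˣ) : ZMod 5)) *
          (LaurentPolynomial.T 1 * LaurentPolynomial.T (-1) : R0) := by
      rw [map_mul]; ring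
    rw [h, ← LaurentPolynomial.T_add, Units.mul_inv]
    simp
  inv_val := by
    have h : (LaurentPolynomial.C ((c⁻¹ : (ZMod 5)ˣ) : ZMod 5) * LaurentPolynomial.T (-1)) *
        (LaurentPolynomial.C (c : ZMod 5) * LaurentPolynomial.T 1) =
        LaurentPolynomial.C ((c : ZMod 5) * ((c⁻¹ : (ZMod 5)ˣ) : ZMod 5)) *
          (LaurentPolynomial.T 1 * LaurentPolynomial.T (-1) : R0) := by
      rw [map_mul]; ring
    rw [h, ← LaurentPolynomial.T_add, Units.mul_inv]
    simp

/-- the endomorphism `T ↦ c T` -/
def sig (c : (ZMod 5)ˣ) : R0 →+* R0 := LaurentPolynomial.eval₂ LaurentPolynomial.C (uT c)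

theorem sig_T (c : (ZMod 5)ˣ) :
    sig c (LaurentPolynomial.T 1) = LaurentPolynomial.C (c : ZMod 5) * LaurentPolynomial.T 1 := by
  simp [sig, uT]

theorem sig_C (c : (ZMod 5)ˣ) (a : ZMod 5) :
    sig c (LaurentPolynomial.C a) = LaurentPolynomial.C a := by
  simp [sig]

theorem R0_hom_ext {S : Type*} [Semiring S] {f g : R0 →+* S}
    (h : f (LaurentPolynomial.T 1) = g (LaurentPolynomial.T 1)) : f = g := by
  apply RingHom.ext
  intro p
  have hC : ∀ a : ZMod 5, f (LaurentPolynomial.C a) = g (LaurentPolynomial.C a) := by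
    intro a
    have : f.comp LaurentPolynomial.C = g.comp LaurentPolynomial.C := Subsingleton.elim _ _
    exact DFunLike.congr_fun this a
  have hTn : ∀ n : ℕ, f (LaurentPolynomial.T n) = g (LaurentPolynomial.T n) := by
    intro n
    have e : (LaurentPolynomial.T (n : ℤ) : R0) = LaurentPolynomial.T 1 ^ n := by
      rw [LaurentPolynomial.T_pow, mul_one]
    rw [e, map_pow, map_pow, h]
  have hTn' : ∀ n : ℕ, f (LaurentPolynomial.T (-n)) = g (LaurentPolynomial.T (-n)) := by
    intro n
    have e1 : f (LaurentPolynomial.T (-n)) * f (LaurentPolynomial.T n) = 1 := by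
      rw [← map_mul, ← LaurentPolynomial.T_add, neg_add_cancel, LaurentPolynomial.T_zero, map_one]
    have e2 : g (LaurentPolynomial.T n) * g (LaurentPolynomial.T (-n)) = 1 := by
      rw [← map_mul, ← LaurentPolynomial.T_add, add_neg_cancel, LaurentPolynomial.T_zero, map_one]
    calc f (LaurentPolynomial.T (-n)) = f (LaurentPolynomial.T (-n)) *
          (g (LaurentPolynomial.T n) * g (LaurentPolynomial.T (-n))) := by rw [e2, mul_one]
      _ = (f (LaurentPolynomial.T (-n)) * f (LaurentPolynomial.T n)) *
          g (LaurentPolynomial.T (-n)) := by rw [hTn, mul_assoc]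
      _ = _ := by rw [e1, one_mul]
  induction p using LaurentPolynomial.induction_on' with
  | add p q hp hq => rw [map_add, map_add, hp, hq]
  | C_mul_T n a =>
    rw [map_mul, map_mul, hC]
    obtain ⟨m, rfl | rfl⟩ := n.eq_nat_or_neg
    · rw [hTn]
    · rw [hTn']

theorem sig_comp : (sig two5⁻¹).comp (sig two5) = RingHom.id _ := by
  apply R0_hom_ext
  rw [RingHom.comp_apply, sig_T, map_mul, sig_T, sig_C, ← mul_assoc, ← map_mul, Units.mul_inv]
  simp

theorem sig_comp' : (sig two5).comp (sig two5⁻¹) = RingHom.id _ := by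
  apply R0_hom_ext
  rw [RingHom.comp_apply, sig_T, map_mul, sig_T, sig_C, ← mul_assoc, ← map_mul, Units.inv_mul]
  simp

/-- the automorphism `σ` of `R0` with `σ(y) = 2 y` -/
def sigE : RingAut R0 := RingEquiv.ofRingHom (sig two5) (sig two5⁻¹) sig_comp' sig_comp

/-- evaluation at `y = 2` -/
def ev : R0 →+* ZMod 5 := LaurentPolynomial.eval₂ (RingHom.id _) two5

/-- `y` -/
abbrev yy : R0 := LaurentPolynomial.T 1

theorem ev_yy : ev yy = 2 := by simp [ev, two5]

theorem sigE_yy : sigE yy = 2 * yy := by
  change sig two5 (LaurentPolynomial.T 1) = _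
  rw [sig_T]
  have : LaurentPolynomial.C ((two5 : (ZMod 5)ˣ) : ZMod 5) = (2 : R0) := by
    change LaurentPolynomial.C (2 : ZMod 5) = _
    exact map_ofNat _ 2
  rw [this]

instance actR0 : MulSemiringAction (Multiplicative ℤ) R0 :=
  MulSemiringAction.compHom R0 (zpowersHom (RingAut R0) sigE)

theorem smul_one (f : R0) : (Multiplicative.ofAdd (1 : ℤ)) • f = sigE f := by
  change (zpowersHom (RingAut R0) sigE (Multiplicative.ofAdd (1 : ℤ))) f = sigE f
  simp [zpowersHom_apply]

instance fact5 : Fact (Nat.Prime 5) := ⟨by norm_num⟩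

instance domR0 : IsDomain R0 := by
  have : IsDomain (ZMod 5) := inferInstance
  infer_instance

/-- The skew Laurent polynomial ring. -/
abbrev TT : Type := SkewMonoidAlgebra R0 (Multiplicative ℤ)

open SkewMonoidAlgebra

/-- generator of the infinite cyclic group -/
abbrev g1 : Multiplicative ℤ := Multiplicative.ofAdd (1 : ℤ)

/-- the unit `x` -/
def Xu : TTˣ where
  val := single g1 1
  inv := single g1⁻¹ 1
  val_inv := by
    rw [single_mul_single, mul_inv_cancel, MulSemiringAction.smul_one, mul_one, single_one_one]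
  inv_val := by
    rw [single_mul_single, inv_mul_cancel, MulSemiringAction.smul_one, mul_one, single_one_one]

/-- the unit `y` -/
def Yu : TTˣ where
  val := single 1 yy
  inv := single 1 (LaurentPolynomial.T (-1))
  val_inv := by
    rw [single_mul_single, _root_.one_smul, ← LaurentPolynomial.T_add, mul_one]; simp
  inv_val := by
    rw [single_mul_single, _root_.one_smul, ← LaurentPolynomial.T_add, mul_one]; simp

/-- the unit `2` -/
def Zu : TTˣ where
  val := 2
  inv := 3
  val_inv := by
    have : (2 * 3 : TT) = ((6 : ℕ) : TT) := by norm_num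
    rw [this, natCast_def, one_def]
    have h : ((6 : ℕ) : R0) = 1 := by
      have h2 : ((6 : ℕ) : R0) = LaurentPolynomial.C ((6 : ℕ) : ZMod 5) := by
        rw [map_natCast]
      rw [h2]
      have h3 : ((6 : ℕ) : ZMod 5) = 1 := by decide
      rw [h3, map_one]
    rw [h]
  inv_val := by
    have : (3 * 2 : TT) = ((6 : ℕ) : TT) := by norm_num
    rw [this, natCast_def, one_def]
    have h : ((6 : ℕ) : R0) = 1 := by
      have h2 : ((6 : ℕ) : R0) = LaurentPolynomial.C ((6 : ℕ) : ZMod 5) := by
        rw [map_natCast]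
      rw [h2]
      have h3 : ((6 : ℕ) : ZMod 5) = 1 := by decide
      rw [h3, map_one]
    rw [h]

theorem Zu_comm (u : TTˣ) : Zu * u = u * Zu := by
  apply Units.ext
  change (2 : TT) * (u : TT) = (u : TT) * 2
  rw [two_mul, mul_two]

theorem Xu_Yu : Xu * Yu = Zu * Yu * Xu := by
  apply Units.ext
  change (single g1 1 : TT) * single 1 yy = 2 * single 1 yy * single g1 1
  rw [single_mul_single, smul_one, sigE_yy, mul_assoc, single_mul_single, two_mul (single _ _),
    _root_.one_smul, ← single_add, mul_one, mul_one, one_mul, one_mul, two_mul]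

theorem comm_Xu_Yu : ⁅Xu, Yu⁆ = Zu := by
  rw [commutatorElement_def, Xu_Yu]; group

/-- The subgroup generated by `x` and `y`. -/
def HH : Subgroup TTˣ := Subgroup.closure {Xu, Yu}

theorem HH_law (a b c : HH) : ⁅⁅a, b⁆, c⁆ = 1 := by
  have hc : IsMulCommutative (Subgroup.closure
      ((QuotientGroup.mk' (Subgroup.center TTˣ)) '' {Xu, Yu})) := by
    have hXY : (QuotientGroup.mk' (Subgroup.center TTˣ)) Xu *
        (QuotientGroup.mk' (Subgroup.center TTˣ)) Yu = (QuotientGroup.mk' (Subgroup.center TTˣ)) Yu *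
        (QuotientGroup.mk' (Subgroup.center TTˣ)) Xu := by
      rw [← commutatorElement_eq_one_iff_mul_comm, ← map_commutatorElement, comm_Xu_Yu]
      rw [QuotientGroup.mk'_apply, QuotientGroup.eq_one_iff, Subgroup.mem_center_iff]
      intro g
      exact (Zu_comm g).symm
    apply Subgroup.isMulCommutative_closure
    rintro _ ⟨u, (rfl | rfl), rfl⟩ _ ⟨v, (rfl | rfl), rfl⟩
    · rfl
    · exact hXY
    · exact hXY.symm
    · rfl
  have hmem : ∀ a : HH, (QuotientGroup.mk' (Subgroup.center TTˣ)) (a : TTˣ) ∈ Subgroup.closure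
      ((QuotientGroup.mk' (Subgroup.center TTˣ)) '' {Xu, Yu}) := by
    intro a
    rw [← MonoidHom.map_closure]
    exact Subgroup.mem_map_of_mem _ a.2
  have h1 : (⁅(a : TTˣ), (b : TTˣ)⁆) ∈ Subgroup.center TTˣ := by
    rw [← QuotientGroup.eq_one_iff, ← QuotientGroup.mk'_apply, map_commutatorElement,
      commutatorElement_eq_one_iff_mul_comm]
    have := hc.is_comm.comm ⟨_, hmem a⟩ ⟨_, hmem b⟩
    exact congrArg Subtype.val this
  apply Subtype.ext
  change ⁅⁅(a : TTˣ), (b : TTˣ)⁆, (c : TTˣ)⁆ = 1
  rw [commutatorElement_eq_one_iff_mul_comm]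
  exact ((Subgroup.mem_center_iff.1 h1) c).symm

end Pool.Agent.Helper36
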